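import Mathlib

/-! Counting uniformly random orders of a finite set. -/

open Finset
open scoped BigOperators Classical

namespace Run7.h999.USat

noncomputable section

variable {C : Type} [Fintype C]

/-- orders of `C` -/
abbrev Ord (C : Type) : Type := Fin (Nat.card C) ≃ C

/-- the initial segment of length `m` -/
def seg (e : Ord C) (m : ℕ) : Finset C := Finset.univ.filter fun c => ((e.symm c : Fin _) : ℕ) < m

/-- the number of orders whose initial segment of length `m` contains `T` -/
def cnt (m : ℕ) (T : Finset C) : ℕ := (Finset.univ.filter fun e : Ord C => T ⊆ seg e m).card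

lemma card_seg (e : Ord C) {m : ℕ} (hm : m ≤ Nat.card C) : (seg e m).card = m := by
  have h : (seg e m) = (Finset.univ.filter fun i : Fin (Nat.card C) => (i : ℕ) < m).map e.toEmbedding := by
    ext c
    simp only [seg, mem_filter, mem_univ, true_and, mem_map, Equiv.coe_toEmbedding]
    constructor
    · intro h
      exact ⟨e.symm c, h, by simp⟩
    · rintro ⟨i, hi, rfl⟩
      simpa using hi
  rw [h, Finset.card_map]
  have := Fin.card_filter_val_lt (n := Nat.card C) (m := m)
  rw [min_eq_right hm] at this
  exact this

lemma cnt_congr (m : ℕ) (T : Finset C) {c c' : C} (hc : c ∉ T) (hc' : c' ∉ T) :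
    cnt m (insert c T) = cnt m (insert c' T) := by
  unfold cnt
  refine Finset.card_bij' (fun e _ => e.trans (Equiv.swap c c')) (fun e _ => e.trans (Equiv.swap c c'))
    ?_ ?_ ?_ ?_
  · intro e he
    simp only [mem_filter, mem_univ, true_and, seg, subset_iff, mem_insert, forall_eq_or_imp] at he ⊢
    refine ⟨?_, ?_⟩
    · simpa using he.1
    · intro x hx
      have h1 : x ≠ c := fun h => hc (h ▸ hx)
      have h2 : x ≠ c' := fun h => hc' (h ▸ hx)
      simpa [Equiv.swap_apply_of_ne_of_ne h1 h2] using he.2 x hx
  · intro e he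
    simp only [mem_filter, mem_univ, true_and, seg, subset_iff, mem_insert, forall_eq_or_imp] at he ⊢
    refine ⟨?_, ?_⟩
    · simpa using he.1
    · intro x hx
      have h1 : x ≠ c := fun h => hc (h ▸ hx)
      have h2 : x ≠ c' := fun h => hc' (h ▸ hx)
      simpa [Equiv.swap_apply_of_ne_of_ne h1 h2] using he.2 x hx
  · intro e _
    ext i
    simp
  · intro e _
    ext i
    simp

lemma sum_cnt (m : ℕ) (hm : m ≤ Nat.card C) (T : Finset C) :
    ∑ c ∈ Tᶜ, cnt m (insert c T) = cnt m T * (m - T.card) := by
  unfold cnt
  simp_rw [Finset.card_filter]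
  rw [Finset.sum_comm]
  rw [Finset.sum_mul]
  refine Finset.sum_congr rfl ?_
  intro e _
  by_cases h : T ⊆ seg e m
  · simp only [insert_subset_iff, h, and_true, if_true, one_mul]
    rw [← Finset.card_filter]
    have h2 : (Finset.filter (fun c => c ∈ seg e m) Tᶜ) = seg e m \ T := by
      ext c
      simp [and_comm]
    rw [h2, Finset.card_sdiff_of_subset h, card_seg e hm]
  · simp [insert_subset_iff, h]

lemma cnt_insert (m : ℕ) (hm : m ≤ Nat.card C) (T : Finset C) {c : C} (hc : c ∉ T) :
    cnt m (insert c T) * (Nat.card C - T.card) = cnt m T * (m - T.card) := by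
  rw [← sum_cnt m hm T]
  rw [Finset.sum_congr rfl (fun c' hc' => cnt_congr m T (c := c') (c' := c) (by simpa using hc') hc)]
  rw [Finset.sum_const, Finset.card_compl, Nat.card_eq_fintype_card, smul_eq_mul, mul_comm]

/-- probability that the initial segment of length `m` contains `T` -/
def prob (m : ℕ) (T : Finset C) : ℝ := (cnt m T : ℝ) / (Nat.card (Ord C) : ℝ)

lemma card_ord_pos : 0 < (Nat.card (Ord C) : ℝ) := by
  have : Nonempty (Ord C) := ⟨(Finite.equivFin C).symm⟩
  have : 0 < Nat.card (Ord C) := Nat.card_pos
  exact_mod_cast this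

lemma cnt_empty (m : ℕ) : cnt m (∅ : Finset C) = Nat.card (Ord C) := by
  unfold cnt
  simp [Nat.card_eq_fintype_card]

lemma prob_empty (m : ℕ) : prob m (∅ : Finset C) = 1 := by
  unfold prob
  rw [cnt_empty]
  exact div_self (ne_of_gt card_ord_pos)

lemma prob_nonneg (m : ℕ) (T : Finset C) : 0 ≤ prob m T := by
  unfold prob; positivity

lemma prob_insert (m : ℕ) (hm : m ≤ Nat.card C) (T : Finset C) {c : C} (hc : c ∉ T) :
    prob m (insert c T) = prob m T * (((m - T.card : ℕ) : ℝ) / ((Nat.card C - T.card : ℕ) : ℝ)) := by
  have h := cnt_insert m hm T hc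
  have hlt : T.card < Nat.card C := by
    rw [Nat.card_eq_fintype_card]
    have : (insert c T).card ≤ Fintype.card C := Finset.card_le_univ _
    rw [Finset.card_insert_of_notMem hc] at this
    omega
  have hpos : (0 : ℝ) < ((Nat.card C - T.card : ℕ) : ℝ) := by
    have : 0 < Nat.card C - T.card := by omega
    exact_mod_cast this
  unfold prob
  have h' : (cnt m (insert c T) : ℝ) * ((Nat.card C - T.card : ℕ) : ℝ) =
      (cnt m T : ℝ) * ((m - T.card : ℕ) : ℝ) := by exact_mod_cast h
  have h0 := card_ord_pos (C := C)
  field_simp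
  linarith

lemma prob_le (m : ℕ) (hm : m ≤ Nat.card C) (T : Finset C) :
    prob m T ≤ ((m : ℝ) / (Nat.card C : ℝ)) ^ T.card := by
  induction T using Finset.induction_on with
  | empty => simp [prob_empty]
  | insert c T hc ih =>
    rw [prob_insert m hm T hc, Finset.card_insert_of_notMem hc, pow_succ]
    have hlt : T.card < Nat.card C := by
      rw [Nat.card_eq_fintype_card]
      have : (insert c T).card ≤ Fintype.card C := Finset.card_le_univ _
      rw [Finset.card_insert_of_notMem hc] at this
      omega
    have hpos : (0 : ℝ) < ((Nat.card C - T.card : ℕ) : ℝ) := by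
      have : 0 < Nat.card C - T.card := by omega
      exact_mod_cast this
    have hN : (0 : ℝ) < (Nat.card C : ℝ) := by
      have : 0 < Nat.card C := by omega
      exact_mod_cast this
    have key : ((m - T.card : ℕ) : ℝ) / ((Nat.card C - T.card : ℕ) : ℝ) ≤ (m : ℝ) / (Nat.card C : ℝ) := by
      rw [div_le_div_iff₀ hpos hN]
      have h1 : (m - T.card) * Nat.card C ≤ m * (Nat.card C - T.card) := by
        rcases le_total m T.card with h | h
        · rw [Nat.sub_eq_zero_of_le h]; simp
        · obtain ⟨a, rfl⟩ := Nat.exists_eq_add_of_le h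
          obtain ⟨b, hb⟩ := Nat.exists_eq_add_of_lt hlt
          rw [hb] at hm ⊢
          have e1 : T.card + a - T.card = a := by omega
          have e2 : T.card + b + 1 - T.card = b + 1 := by omega
          rw [e1, e2]
          nlinarith
      exact_mod_cast h1
    exact mul_le_mul ih key (by positivity) (by positivity)

lemma le_prob (m s : ℕ) (hm : m ≤ Nat.card C) (hs : s ≤ m) (T : Finset C) (hT : T.card ≤ s + 1) :
    (((m : ℝ) - s) / (Nat.card C : ℝ)) ^ T.card ≤ prob m T := by
  induction T using Finset.induction_on with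
  | empty => simp [prob_empty]
  | insert c T hc ih =>
    rw [Finset.card_insert_of_notMem hc] at hT
    rw [prob_insert m hm T hc, Finset.card_insert_of_notMem hc, pow_succ]
    have hlt : T.card < Nat.card C := by
      rw [Nat.card_eq_fintype_card]
      have : (insert c T).card ≤ Fintype.card C := Finset.card_le_univ _
      rw [Finset.card_insert_of_notMem hc] at this
      omega
    have hpos : (0 : ℝ) < ((Nat.card C - T.card : ℕ) : ℝ) := by
      have : 0 < Nat.card C - T.card := by omega
      exact_mod_cast this
    have hN : (0 : ℝ) < (Nat.card C : ℝ) := by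
      have : 0 < Nat.card C := by omega
      exact_mod_cast this
    have hms : (0 : ℝ) ≤ (m : ℝ) - s := by
      have : (s : ℝ) ≤ m := by exact_mod_cast hs
      linarith
    have key : ((m : ℝ) - s) / (Nat.card C : ℝ) ≤ ((m - T.card : ℕ) : ℝ) / ((Nat.card C - T.card : ℕ) : ℝ) := by
      rw [div_le_div_iff₀ hN hpos]
      have h1 : ((m - T.card : ℕ) : ℝ) = (m : ℝ) - T.card := by
        rw [Nat.cast_sub (by omega)]
      have h2 : ((Nat.card C - T.card : ℕ) : ℝ) = (Nat.card C : ℝ) - T.card := by
        rw [Nat.cast_sub (by omega)]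
      rw [h1, h2]
      have h3 : (T.card : ℝ) ≤ s := by
        have : T.card ≤ s := by omega
        exact_mod_cast this
      have h4 : (0 : ℝ) ≤ (T.card : ℝ) := by positivity
      nlinarith
    exact mul_le_mul (ih (by omega)) key (by positivity) (prob_nonneg _ _)

end

end Run7.h999.USat
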