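import Mathlib
import Pool.Agent.Run7.h999.USat.Order

/-! Two-clauses over `n` variables. -/

open Finset
open scoped BigOperators Classical

namespace Run7.h999.USat

noncomputable section

/-- literals -/
abbrev Lit (n : ℕ) : Type := Fin n × Bool

/-- negation of a literal -/
def ng {n : ℕ} (x : Lit n) : Lit n := (x.1, !x.2)

@[simp] lemma ng_fst {n : ℕ} (x : Lit n) : (ng x).1 = x.1 := rfl
@[simp] lemma ng_snd {n : ℕ} (x : Lit n) : (ng x).2 = !x.2 := rfl
@[simp] lemma ng_ng {n : ℕ} (x : Lit n) : ng (ng x) = x := by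
  ext <;> simp [ng]

lemma ng_inj {n : ℕ} {x y : Lit n} : ng x = ng y ↔ x = y :=
  ⟨fun h => by rw [← ng_ng x, h, ng_ng], fun h => by rw [h]⟩

lemma ng_ne {n : ℕ} (x : Lit n) : ng x ≠ x := by
  intro h
  have := congrArg Prod.snd h
  simp at this

lemma eq_or_eq_ng {n : ℕ} {x y : Lit n} (h : x.1 = y.1) : x = y ∨ x = ng y := by
  rcases x with ⟨a, b⟩
  rcases y with ⟨c, d⟩
  simp only [ng] at *
  subst h
  cases b <;> cases d <;> simp

/-- being a legal 2-clause -/
abbrev IsCl {n : ℕ} (c : Finset (Fin n × Bool)) : Prop := c.card = 2 ∧ (c.image Prod.fst).card = 2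

/-- the type of all 2-clauses -/
abbrev Cl (n : ℕ) : Type := {c : Finset (Fin n × Bool) // c.card = 2 ∧ (c.image Prod.fst).card = 2}

lemma isCl_pair {n : ℕ} {x y : Lit n} (h : x.1 ≠ y.1) : IsCl ({x, y} : Finset (Fin n × Bool)) := by
  have hxy : x ≠ y := fun e => h (by rw [e])
  refine ⟨Finset.card_pair hxy, ?_⟩
  rw [Finset.image_insert, Finset.image_singleton]
  exact Finset.card_pair h

lemma isCl_iff {n : ℕ} (c : Finset (Fin n × Bool)) :
    IsCl c ↔ ∃ x y : Lit n, x.1 ≠ y.1 ∧ c = {x, y} := by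
  constructor
  · rintro ⟨h1, h2⟩
    obtain ⟨x, y, hxy, rfl⟩ := Finset.card_eq_two.1 h1
    refine ⟨x, y, ?_, rfl⟩
    intro h
    rw [Finset.image_insert, Finset.image_singleton, h] at h2
    simp at h2
  · rintro ⟨x, y, h, rfl⟩
    exact isCl_pair h

lemma card_Cl (n : ℕ) : Nat.card (Cl n) = 2 * n * (n - 1) := by
  rw [Nat.card_eq_fintype_card, Fintype.card_subtype]
  have h1 : (Finset.univ.filter fun c : Finset (Fin n × Bool) => c.card = 2 ∧ (c.image Prod.fst).card = 2)
      = (Finset.powersetCard 2 (Finset.univ : Finset (Fin n × Bool))) \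
        (Finset.univ.image fun v : Fin n => ({(v, true), (v, false)} : Finset (Fin n × Bool))) := by
    ext c
    simp only [mem_filter, mem_univ, true_and, mem_sdiff, mem_powersetCard, subset_univ, mem_image,
      not_exists]
    constructor
    · rintro ⟨h1, h2⟩
      refine ⟨h1, ?_⟩
      intro v hv
      rw [← hv] at h2
      simp at h2
    · rintro ⟨h1, h2⟩
      refine ⟨h1, ?_⟩
      obtain ⟨x, y, hxy, rfl⟩ := Finset.card_eq_two.1 h1
      rw [Finset.image_insert, Finset.image_singleton]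
      refine Finset.card_pair ?_
      intro h
      rcases eq_or_eq_ng h with h3 | h3
      · exact hxy h3
      · rcases y with ⟨v, b⟩
        subst h3
        cases b
        · exact h2 v rfl
        · exact h2 v (by simp only [ng, Bool.not_true]; exact Finset.pair_comm _ _)
  rw [h1, Finset.card_sdiff_of_subset, Finset.card_powersetCard, Finset.card_image_of_injective]
  · simp only [Finset.card_univ, Fintype.card_prod, Fintype.card_fin, Fintype.card_bool]
    rw [Nat.choose_two_right]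
    have : n * 2 * (n * 2 - 1) / 2 = n * (n * 2 - 1) := by
      rw [Nat.mul_right_comm]
      exact Nat.mul_div_cancel _ (by norm_num)
    rw [this]
    rcases n with _ | n
    · simp
    · have e1 : (n + 1) * 2 - 1 = 2 * n + 1 := by omega
      rw [e1]
      simp only [Nat.add_sub_cancel]
      have : (n + 1) * (2 * n + 1) = 2 * (n + 1) * n + (n + 1) := by ring
      omega
  · intro v w h
    have : (v, true) ∈ ({(w, true), (w, false)} : Finset (Fin n × Bool)) := by
      have h' : ({(v, true), (v, false)} : Finset (Fin n × Bool)) = {(w, true), (w, false)} := h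
      rw [← h']
      simp
    simpa using this
  · intro c hc
    simp only [mem_image, mem_univ, true_and] at hc
    obtain ⟨v, rfl⟩ := hc
    simp

/-- clause of the implication `x → y` -/
def cl {n : ℕ} (x y : Lit n) : Finset (Fin n × Bool) := {ng x, y}

lemma isCl_cl {n : ℕ} {x y : Lit n} (h : x.1 ≠ y.1) : IsCl (cl x y) := isCl_pair (by simpa using h)

lemma cl_comm {n : ℕ} (x y : Lit n) : cl (ng y) (ng x) = cl x y := by
  unfold cl
  rw [ng_ng, Finset.pair_comm]

lemma pair_eq {α : Type*} [DecidableEq α] {a b c d : α} (h : ({a, b} : Finset α) = {c, d}) :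
    (a = c ∧ b = d) ∨ (a = d ∧ b = c) := by
  have := congrArg (fun s : Finset α => (s : Set α)) h
  simp only [coe_insert, coe_singleton] at this
  exact Set.pair_eq_pair_iff.1 this

lemma cl_eq {n : ℕ} {x y x' y' : Lit n} (h : cl x y = cl x' y') :
    (x = x' ∧ y = y') ∨ (x = ng y' ∧ y = ng x') := by
  rcases pair_eq h with ⟨h1, h2⟩ | ⟨h1, h2⟩
  · exact Or.inl ⟨ng_inj.1 h1, h2⟩
  · refine Or.inr ⟨?_, h2⟩
    rw [← ng_ng x, h1]

/-- lift of a set of legal clauses -/
def lft {n : ℕ} (T : Finset (Finset (Fin n × Bool))) : Finset (Cl n) := T.subtype _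

lemma card_lft {n : ℕ} {T : Finset (Finset (Fin n × Bool))} (hT : ∀ c ∈ T, IsCl c) :
    (lft T).card = T.card := by
  unfold lft
  rw [Finset.card_subtype, Finset.filter_true_of_mem hT]

lemma mem_lft {n : ℕ} {T : Finset (Finset (Fin n × Bool))} {c : Cl n} : c ∈ lft T ↔ c.val ∈ T := by
  unfold lft
  rw [Finset.mem_subtype]

/-- the set of clauses (as sets of literals) in the initial segment -/
def frm {n : ℕ} (e : Ord (Cl n)) (m : ℕ) : Finset (Finset (Fin n × Bool)) :=
  (seg e m).image Subtype.val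

lemma lft_subset {n : ℕ} {T : Finset (Finset (Fin n × Bool))} (hT : ∀ c ∈ T, IsCl c) (e : Ord (Cl n)) (m : ℕ) :
    lft T ⊆ seg e m ↔ T ⊆ frm e m := by
  constructor
  · intro h c hc
    have h1 : (⟨c, hT c hc⟩ : Cl n) ∈ lft T := mem_lft.2 hc
    exact Finset.mem_image.2 ⟨_, h h1, rfl⟩
  · intro h c hc
    obtain ⟨d, hd, hdc⟩ := Finset.mem_image.1 (h (mem_lft.1 hc))
    rwa [← Subtype.ext hdc]

lemma isCl_of_mem_frm {n : ℕ} {e : Ord (Cl n)} {m : ℕ} {c : Finset (Fin n × Bool)} (h : c ∈ frm e m) :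
    IsCl c := by
  obtain ⟨d, _, rfl⟩ := Finset.mem_image.1 h
  exact d.2

/-- number of orders satisfying a property, divided by the number of all orders -/
def Pr {n : ℕ} (S : Ord (Cl n) → Prop) : ℝ :=
  ((Finset.univ.filter S).card : ℝ) / (Nat.card (Ord (Cl n)) : ℝ)

lemma Pr_sub {n : ℕ} {T : Finset (Finset (Fin n × Bool))} (hT : ∀ c ∈ T, IsCl c) (m : ℕ) :
    Pr (fun e : Ord (Cl n) => T ⊆ frm e m) = prob m (lft T) := by
  unfold Pr prob cnt
  congr 3
  ext e
  simp only [mem_filter, mem_univ, true_and]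
  exact (lft_subset hT e m).symm

lemma Pr_le {n : ℕ} {T : Finset (Finset (Fin n × Bool))} (hT : ∀ c ∈ T, IsCl c) {m : ℕ}
    (hm : m ≤ Nat.card (Cl n)) :
    Pr (fun e : Ord (Cl n) => T ⊆ frm e m) ≤ ((m : ℝ) / (Nat.card (Cl n) : ℝ)) ^ T.card := by
  rw [Pr_sub hT, ← card_lft hT]
  exact prob_le m hm _

lemma le_Pr {n : ℕ} {T : Finset (Finset (Fin n × Bool))} (hT : ∀ c ∈ T, IsCl c) {m s : ℕ}
    (hm : m ≤ Nat.card (Cl n)) (hs : s ≤ m) (hc : T.card ≤ s + 1) :
    (((m : ℝ) - s) / (Nat.card (Cl n) : ℝ)) ^ T.card ≤ Pr (fun e : Ord (Cl n) => T ⊆ frm e m) := by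
  rw [Pr_sub hT, ← card_lft hT]
  exact le_prob m s hm hs _ (by rwa [card_lft hT])

end

end Run7.h999.USat
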