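import Mathlib

/-! Estimates for powers of a matrix `p J + N`. -/

set_option linter.all false

open Finset
open scoped BigOperators

namespace Run7.h999.USat

noncomputable section

variable {Λ : Type} [Fintype Λ] [DecidableEq Λ]

/-- constant matrix -/
def Pm (p : ℝ) : Matrix Λ Λ ℝ := Matrix.of fun _ _ => p
/-- perturbed constant matrix -/
def Wm (N : Matrix Λ Λ ℝ) (p : ℝ) : Matrix Λ Λ ℝ := Pm p + N
/-- row sum -/
def row (A : Matrix Λ Λ ℝ) (x : Λ) : ℝ := ∑ y, A x y
/-- column sum -/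
def col (A : Matrix Λ Λ ℝ) (y : Λ) : ℝ := ∑ x, A x y
/-- total sum -/
def tot (A : Matrix Λ Λ ℝ) : ℝ := ∑ x, ∑ y, A x y

lemma decomp (N : Matrix Λ Λ ℝ) (p : ℝ) (k : ℕ) :
    (Wm N p) ^ k = N ^ k + ∑ t ∈ range k, N ^ t * Pm p * (Wm N p) ^ (k - 1 - t) := by
  induction k with
  | zero => simp
  | succ k ih =>
    rw [Finset.sum_range_succ', pow_succ', Wm, add_mul, ← Wm]
    nth_rewrite 2 [ih]
    rw [mul_add, Finset.mul_sum]
    simp only [Nat.add_sub_cancel, pow_zero, one_mul, Nat.sub_zero]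
    rw [pow_succ' N k]
    have : ∀ t ∈ range k, N * (N ^ t * Pm p * (Wm N p) ^ (k - 1 - t)) =
        N ^ (t + 1) * Pm p * (Wm N p) ^ (k - (t + 1)) := by
      intro t _
      rw [pow_succ' N t, Nat.sub_sub, Nat.add_comm 1 t]
      simp only [Matrix.mul_assoc]
    rw [Finset.sum_congr rfl this]
    abel

lemma mul_Pm_mul (A B : Matrix Λ Λ ℝ) (p : ℝ) (x y : Λ) :
    (A * Pm p * B : Matrix Λ Λ ℝ) x y = row A x * p * col B y := by
  simp only [Matrix.mul_apply, Pm, Matrix.of_apply, row, col]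
  rw [Finset.sum_mul, Finset.mul_sum]

lemma entry (N : Matrix Λ Λ ℝ) (p : ℝ) (k : ℕ) (x y : Λ) :
    ((Wm N p) ^ k) x y = (N ^ k) x y +
      ∑ t ∈ range k, row (N ^ t) x * p * col ((Wm N p) ^ (k - 1 - t)) y := by
  conv_lhs => rw [decomp]
  rw [Matrix.add_apply, Matrix.sum_apply]
  simp only [mul_Pm_mul]

lemma tot_eq_row (A : Matrix Λ Λ ℝ) : tot A = ∑ x, row A x := rfl
lemma tot_eq_col (A : Matrix Λ Λ ℝ) : tot A = ∑ y, col A y := by
  unfold tot col
  exact Finset.sum_comm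

lemma row_eq (N : Matrix Λ Λ ℝ) (p : ℝ) (k : ℕ) (x : Λ) :
    row ((Wm N p) ^ k) x = row (N ^ k) x +
      ∑ t ∈ range k, row (N ^ t) x * p * tot ((Wm N p) ^ (k - 1 - t)) := by
  conv_lhs => rw [row]
  simp only [entry]
  rw [Finset.sum_add_distrib, ← row, Finset.sum_comm]
  congr 1
  refine Finset.sum_congr rfl fun t _ => ?_
  rw [← Finset.mul_sum, ← tot_eq_col]

/-- hypotheses on the perturbation -/
structure Hyp (N : Matrix Λ Λ ℝ) (V : Finset Λ) (M : ℕ) : Prop where
  nonneg : ∀ x y, 0 ≤ N x y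
  suppl : ∀ x y, x ∉ V → N x y = 0
  suppr : ∀ x y, y ∉ V → N x y = 0
  rowle : ∀ t ≤ M, ∀ x, row (N ^ t) x ≤ 2
  colle : ∀ t ≤ M, ∀ y, col (N ^ t) y ≤ 2
  diag : ∀ x y, ∑ t ∈ range (M + 1), (N ^ t) x y ≤ 2

lemma Hyp.transpose {N : Matrix Λ Λ ℝ} {V : Finset Λ} {M : ℕ} (h : Hyp N V M) :
    Hyp N.transpose V M where
  nonneg := fun x y => h.nonneg y x
  suppl := fun x y hx => h.suppr y x hx
  suppr := fun x y hx => h.suppl y x hx
  rowle := fun t ht x => by
    have := h.colle t ht x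
    rw [← Matrix.transpose_pow]
    exact this
  colle := fun t ht x => by
    have := h.rowle t ht x
    rw [← Matrix.transpose_pow]
    exact this
  diag := fun x y => by
    have := h.diag y x
    simp only [← Matrix.transpose_pow]
    exact this

lemma pow_nonneg' {A : Matrix Λ Λ ℝ} (h : ∀ x y, 0 ≤ A x y) (k : ℕ) : ∀ x y, 0 ≤ (A ^ k) x y := by
  induction k with
  | zero =>
    intro x y
    simp only [pow_zero, Matrix.one_apply]
    split_ifs <;> norm_num
  | succ k ih =>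
    intro x y
    rw [pow_succ, Matrix.mul_apply]
    exact Finset.sum_nonneg fun z _ => mul_nonneg (ih x z) (h z y)

lemma Wm_nonneg {N : Matrix Λ Λ ℝ} (h : ∀ x y, 0 ≤ N x y) {p : ℝ} (hp : 0 ≤ p) :
    ∀ x y, 0 ≤ (Wm N p) x y := by
  intro x y
  simp only [Wm, Matrix.add_apply, Pm, Matrix.of_apply]
  have := h x y
  linarith

lemma row_zero {N : Matrix Λ Λ ℝ} {V : Finset Λ} {M : ℕ} (h : Hyp N V M) {t : ℕ} (ht : 1 ≤ t) {x : Λ}
    (hx : x ∉ V) : row (N ^ t) x = 0 := by
  obtain ⟨s, rfl⟩ := Nat.exists_eq_add_of_le ht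
  unfold row
  refine Finset.sum_eq_zero fun y _ => ?_
  rw [Nat.add_comm, pow_succ', Matrix.mul_apply]
  exact Finset.sum_eq_zero fun z _ => by rw [h.suppl x z hx, zero_mul]

lemma row_pow_zero (N : Matrix Λ Λ ℝ) (x : Λ) : row (N ^ 0) x = 1 := by
  simp [row, Matrix.one_apply]

lemma sum_row_le {N : Matrix Λ Λ ℝ} {V : Finset Λ} {M : ℕ} (h : Hyp N V M) {t : ℕ} (ht : 1 ≤ t)
    (htM : t ≤ M) : ∑ x, row (N ^ t) x ≤ 2 * V.card := by
  have h1 : ∑ x, row (N ^ t) x = ∑ x ∈ V, row (N ^ t) x := by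
    symm
    refine Finset.sum_subset (Finset.subset_univ _) ?_
    intro x _ hx
    exact row_zero h ht hx
  rw [h1]
  calc ∑ x ∈ V, row (N ^ t) x ≤ ∑ x ∈ V, (2 : ℝ) := Finset.sum_le_sum fun x _ => h.rowle t htM x
    _ = 2 * V.card := by rw [Finset.sum_const, nsmul_eq_mul, mul_comm]

lemma tot_nonneg {A : Matrix Λ Λ ℝ} (h : ∀ x y, 0 ≤ A x y) : 0 ≤ tot A :=
  Finset.sum_nonneg fun x _ => Finset.sum_nonneg fun y _ => h x y

lemma row_nonneg {A : Matrix Λ Λ ℝ} (h : ∀ x y, 0 ≤ A x y) (x : Λ) : 0 ≤ row A x :=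
  Finset.sum_nonneg fun y _ => h x y

lemma col_nonneg {A : Matrix Λ Λ ℝ} (h : ∀ x y, 0 ≤ A x y) (x : Λ) : 0 ≤ col A x :=
  Finset.sum_nonneg fun y _ => h y x

lemma row_le_tot {A : Matrix Λ Λ ℝ} (h : ∀ x y, 0 ≤ A x y) (x : Λ) : row A x ≤ tot A := by
  rw [tot_eq_row]
  exact Finset.single_le_sum (f := fun x => row A x) (fun y _ => row_nonneg h y) (Finset.mem_univ x)

/-- growth estimate for the total sum -/
lemma tot_le {N : Matrix Λ Λ ℝ} {V : Finset Λ} {M : ℕ} (h : Hyp N V M) {p : ℝ} (hp : 0 ≤ p)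
    {q : ℝ} (hq : q = (Fintype.card Λ : ℝ)) (hq0 : 0 < q) (hqp : q * p ≤ 1) {δ : ℝ}
    (hδ : 2 * V.card / q + 2 * V.card * p * M ≤ δ) :
    ∀ k ≤ M, tot ((Wm N p) ^ k) ≤ q * (1 + δ) ^ k := by
  have hV : (0 : ℝ) ≤ V.card := by positivity
  have hδ0 : 0 ≤ δ := le_trans (by positivity) hδ
  intro k
  induction k using Nat.strong_induction_on with
  | _ k ih =>
    intro hk
    rcases Nat.eq_zero_or_pos k with rfl | hk0
    · simp only [pow_zero, mul_one]
      rw [tot_eq_row]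
      have : ∀ x : Λ, row (1 : Matrix Λ Λ ℝ) x = 1 := fun x => row_pow_zero (1 : Matrix Λ Λ ℝ) x
      simp only [this, Finset.sum_const, Finset.card_univ, nsmul_eq_mul, mul_one]
      rw [hq]
    · obtain ⟨j, rfl⟩ := Nat.exists_eq_add_of_le' hk0
      have e1 : tot ((Wm N p) ^ (j + 1)) = ∑ x, row (N ^ (j + 1)) x +
          ∑ t ∈ range (j + 1), (∑ x, row (N ^ t) x) * p * tot ((Wm N p) ^ (j - t)) := by
        rw [tot_eq_row]
        simp only [row_eq N p (j + 1)]
        rw [Finset.sum_add_distrib, Finset.sum_comm]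
        congr 1
        refine Finset.sum_congr rfl fun t _ => ?_
        rw [Finset.sum_mul, Finset.sum_mul]
        simp only [Nat.add_sub_cancel]
      rw [e1, Finset.sum_range_succ']
      have hg : (1 : ℝ) ≤ (1 + δ) ^ j := one_le_pow₀ (by linarith)
      have h0 : (∑ x, row (N ^ 0) x) * p * tot ((Wm N p) ^ (j - 0)) ≤ q * (1 + δ) ^ j := by
        have h2 : ∑ x : Λ, row (N ^ 0) x = q := by
          simp only [row_pow_zero, Finset.sum_const, Finset.card_univ, nsmul_eq_mul, mul_one]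
          rw [hq]
        rw [h2, Nat.sub_zero]
        have h3 := ih j (by omega) (by omega)
        have h4 : 0 ≤ tot ((Wm N p) ^ j) := tot_nonneg (pow_nonneg' (Wm_nonneg h.nonneg hp) j)
        calc q * p * tot ((Wm N p) ^ j) ≤ 1 * tot ((Wm N p) ^ j) := mul_le_mul_of_nonneg_right hqp h4
          _ ≤ _ := by rw [one_mul]; exact h3
      have hs : ∑ t ∈ range j, (∑ x, row (N ^ (t + 1)) x) * p * tot ((Wm N p) ^ (j - (t + 1))) ≤
          M * (2 * V.card * p * (q * (1 + δ) ^ j)) := by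
        calc ∑ t ∈ range j, (∑ x, row (N ^ (t + 1)) x) * p * tot ((Wm N p) ^ (j - (t + 1)))
            ≤ ∑ t ∈ range j, (2 * V.card * p * (q * (1 + δ) ^ j)) := by
              refine Finset.sum_le_sum fun t ht => ?_
              rw [Finset.mem_range] at ht
              have h3 := ih (j - (t + 1)) (by omega) (by omega)
              have h4 : q * (1 + δ) ^ (j - (t + 1)) ≤ q * (1 + δ) ^ j :=
                mul_le_mul_of_nonneg_left (pow_le_pow_right₀ (by linarith) (by omega)) hq0.le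
              have h5 := sum_row_le h (t := t + 1) (by omega) (by omega)
              have h6 : 0 ≤ tot ((Wm N p) ^ (j - (t + 1))) :=
                tot_nonneg (pow_nonneg' (Wm_nonneg h.nonneg hp) _)
              exact mul_le_mul (mul_le_mul_of_nonneg_right h5 hp) (h3.trans h4) h6 (by positivity)
          _ = j * (2 * V.card * p * (q * (1 + δ) ^ j)) := by
              rw [Finset.sum_const, Finset.card_range, nsmul_eq_mul]
          _ ≤ M * (2 * V.card * p * (q * (1 + δ) ^ j)) := by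
              refine mul_le_mul_of_nonneg_right ?_ (by positivity)
              have : j ≤ M := by omega
              exact_mod_cast this
      have h7 := sum_row_le h (t := j + 1) (by omega) hk
      have h8 : (2 * V.card : ℝ) ≤ (2 * V.card / q) * (q * (1 + δ) ^ j) := by
        rw [div_mul_eq_mul_div, le_div_iff₀ hq0]
        nlinarith [mul_nonneg (mul_nonneg hV hq0.le) (sub_nonneg.2 hg)]
      calc ∑ x, row (N ^ (j + 1)) x + (∑ t ∈ range j, (∑ x, row (N ^ (t + 1)) x) * p *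
            tot ((Wm N p) ^ (j - (t + 1))) + (∑ x, row (N ^ 0) x) * p * tot ((Wm N p) ^ (j - 0)))
          ≤ (2 * V.card / q) * (q * (1 + δ) ^ j) + (M * (2 * V.card * p * (q * (1 + δ) ^ j)) +
              q * (1 + δ) ^ j) := by linarith
        _ = (1 + (2 * V.card / q + 2 * V.card * p * M)) * (q * (1 + δ) ^ j) := by ring
        _ ≤ (1 + δ) * (q * (1 + δ) ^ j) := by
            refine mul_le_mul_of_nonneg_right (by linarith) (by positivity)
        _ = q * (1 + δ) ^ (j + 1) := by ring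

end

end Run7.h999.USat
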