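import Mathlib
import Pool.Agent.Run7.h999.USat.Kernel

/-! Green function bounds for `p J + N`. -/

set_option linter.all false

open Finset
open scoped BigOperators

namespace Run7.h999.USat

noncomputable section

variable {Λ : Type} [Fintype Λ] [DecidableEq Λ]

/-- the constant -/
def KK : ℝ := Real.exp 72

lemma one_le_KK : 1 ≤ KK := by
  unfold KK
  have := Real.add_one_le_exp (72 : ℝ)
  linarith

/-- numerical setting -/
structure Num (Λ : Type) [Fintype Λ] (V : Finset Λ) (L : ℕ) (p : ℝ) : Prop where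
  hL : 1 ≤ L
  hp : 0 ≤ p
  hcard : (Fintype.card Λ : ℝ) = 2 * (L : ℝ) ^ 3
  hp1 : 2 * (L : ℝ) ^ 3 * p ≤ 1
  hV : (V.card : ℝ) ≤ 12 * L

section
variable {N : Matrix Λ Λ ℝ} {V : Finset Λ} {L : ℕ} {p : ℝ}

lemma tot_le_K (h : Hyp N V (2 * L)) (hn : Num Λ V L p) {k : ℕ} (hk : k ≤ 2 * L) :
    tot ((Wm N p) ^ k) ≤ (2 * (L : ℝ) ^ 3) * KK := by
  have hL : (1 : ℝ) ≤ L := by exact_mod_cast hn.hL
  have hL0 : (0 : ℝ) < L := by linarith
  have hV := hn.hV
  have hp := hn.hp
  have hV0 : (0 : ℝ) ≤ V.card := by positivity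
  have key := tot_le h hp (q := 2 * (L : ℝ) ^ 3) hn.hcard.symm (by positivity) hn.hp1 (δ := 36 / L) (by
    have e1 : 2 * (V.card : ℝ) / (2 * (L : ℝ) ^ 3) ≤ 12 / L := by
      rw [div_le_div_iff₀ (by positivity) hL0]
      have : 2 * (V.card : ℝ) * L ≤ 24 * L * L := by nlinarith
      have h2 : 24 * (L : ℝ) * L ≤ 12 * (2 * L ^ 3) := by nlinarith [mul_nonneg (mul_nonneg hL0.le hL0.le) (sub_nonneg.2 hL)]
      linarith
    have e2 : 2 * (V.card : ℝ) * p * ((2 * L : ℕ) : ℝ) ≤ 24 / L := by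
      rw [le_div_iff₀ hL0]
      push_cast
      have h1 : 2 * (V.card : ℝ) * p * (2 * L) * L ≤ 2 * (12 * L) * p * (2 * L) * L := by
        have : 0 ≤ p * (2 * L) * L := by positivity
        nlinarith
      have h2 : 2 * (12 * (L : ℝ)) * p * (2 * L) * L = 24 * (2 * L ^ 3 * p) := by ring
      have := hn.hp1
      nlinarith
    have : (12 : ℝ) / L + 24 / L = 36 / L := by ring
    linarith) k hk
  refine key.trans ?_
  refine mul_le_mul_of_nonneg_left ?_ (by positivity)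
  calc (1 + 36 / (L : ℝ)) ^ k ≤ (1 + 36 / (L : ℝ)) ^ (2 * L) :=
        pow_le_pow_right₀ (by have : (0 : ℝ) ≤ 36 / L := by positivity
                              linarith) hk
    _ ≤ (Real.exp (36 / L)) ^ (2 * L) := by
        refine pow_le_pow_left₀ (by positivity) ?_ _
        have := Real.add_one_le_exp (36 / (L : ℝ))
        linarith
    _ = Real.exp 72 := by
        rw [← Real.exp_nat_mul]
        congr 1
        push_cast
        field_simp
        norm_num

lemma p_tot_le_K (h : Hyp N V (2 * L)) (hn : Num Λ V L p) {k : ℕ} (hk : k ≤ 2 * L) :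
    p * tot ((Wm N p) ^ k) ≤ KK := by
  have h1 := tot_le_K h hn hk
  have hK := one_le_KK
  have hp := hn.hp
  calc p * tot ((Wm N p) ^ k) ≤ p * ((2 * (L : ℝ) ^ 3) * KK) := mul_le_mul_of_nonneg_left h1 hp
    _ = (2 * (L : ℝ) ^ 3 * p) * KK := by ring
    _ ≤ 1 * KK := mul_le_mul_of_nonneg_right hn.hp1 (by linarith)
    _ = KK := one_mul _

lemma row_le_out (h : Hyp N V (2 * L)) (hn : Num Λ V L p) {k : ℕ} (hk : k ≤ 2 * L) {x : Λ} (hx : x ∉ V) :
    row ((Wm N p) ^ k) x ≤ KK := by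
  have hK := one_le_KK
  rw [row_eq]
  rcases Nat.eq_zero_or_pos k with rfl | hk0
  · simp only [Finset.range_zero, Finset.sum_empty, add_zero]
    rw [row_pow_zero]; exact hK
  · rw [row_zero h hk0 hx, zero_add]
    obtain ⟨j, rfl⟩ := Nat.exists_eq_add_of_le' hk0
    rw [Finset.sum_range_succ', Finset.sum_eq_zero, zero_add, row_pow_zero, one_mul]
    · exact p_tot_le_K h hn (by omega)
    · intro t _
      rw [row_zero h (by omega) hx]
      ring

lemma row_le_all (h : Hyp N V (2 * L)) (hn : Num Λ V L p) {k : ℕ} (hk : k ≤ 2 * L) (x : Λ) :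
    row ((Wm N p) ^ k) x ≤ 6 * KK * L := by
  have hK := one_le_KK
  have hL : (1 : ℝ) ≤ L := by exact_mod_cast hn.hL
  rw [row_eq]
  have h1 := h.rowle k hk x
  have h2 : ∑ t ∈ range k, row (N ^ t) x * p * tot ((Wm N p) ^ (k - 1 - t)) ≤ ∑ t ∈ range k, 2 * KK := by
    refine Finset.sum_le_sum fun t ht => ?_
    rw [Finset.mem_range] at ht
    have h3 := h.rowle t (by omega) x
    have h4 := p_tot_le_K h hn (k := k - 1 - t) (by omega)
    have h5 : 0 ≤ p * tot ((Wm N p) ^ (k - 1 - t)) :=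
      mul_nonneg hn.hp (tot_nonneg (pow_nonneg' (Wm_nonneg h.nonneg hn.hp) _))
    rw [mul_assoc]
    exact mul_le_mul h3 h4 h5 (by norm_num)
  rw [Finset.sum_const, Finset.card_range, nsmul_eq_mul] at h2
  have h6 : (k : ℝ) ≤ 2 * L := by exact_mod_cast hk
  have h7 : (k : ℝ) * (2 * KK) ≤ 2 * L * (2 * KK) := mul_le_mul_of_nonneg_right h6 (by linarith)
  nlinarith [mul_nonneg (sub_nonneg.2 hK) (sub_nonneg.2 hL)]

lemma col_eq_row (A : Matrix Λ Λ ℝ) (y : Λ) : col A y = row A.transpose y := rfl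

lemma Wm_transpose (N : Matrix Λ Λ ℝ) (p : ℝ) (k : ℕ) :
    ((Wm N p) ^ k).transpose = (Wm N.transpose p) ^ k := by
  rw [Matrix.transpose_pow]
  congr 1

lemma col_le_out (h : Hyp N V (2 * L)) (hn : Num Λ V L p) {k : ℕ} (hk : k ≤ 2 * L) {x : Λ} (hx : x ∉ V) :
    col ((Wm N p) ^ k) x ≤ KK := by
  rw [col_eq_row, Wm_transpose]
  exact row_le_out h.transpose hn hk hx

lemma col_le_all (h : Hyp N V (2 * L)) (hn : Num Λ V L p) {k : ℕ} (hk : k ≤ 2 * L) (x : Λ) :
    col ((Wm N p) ^ k) x ≤ 6 * KK * L := by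
  rw [col_eq_row, Wm_transpose]
  exact row_le_all h.transpose hn hk x

/-- Green function -/
def Gr (N : Matrix Λ Λ ℝ) (p : ℝ) (L : ℕ) (x y : Λ) : ℝ :=
  ∑ l ∈ range (2 * L + 1), ((Wm N p) ^ l) x y

lemma Gr_nonneg (h : Hyp N V (2 * L)) (hn : Num Λ V L p) (x y : Λ) : 0 ≤ Gr N p L x y :=
  Finset.sum_nonneg fun l _ => pow_nonneg' (Wm_nonneg h.nonneg hn.hp) l x y

lemma Gr_le (h : Hyp N V (2 * L)) (hn : Num Λ V L p) (x y : Λ) : Gr N p L x y ≤ 38 * KK := by
  have hK := one_le_KK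
  have hL : (1 : ℝ) ≤ L := by exact_mod_cast hn.hL
  have hp := hn.hp
  unfold Gr
  simp only [entry]
  rw [Finset.sum_add_distrib]
  have h1 := h.diag x y
  have h2 : ∑ l ∈ range (2 * L + 1), ∑ t ∈ range l,
      row (N ^ t) x * p * col ((Wm N p) ^ (l - 1 - t)) y ≤
      ∑ l ∈ range (2 * L + 1), (2 * L : ℝ) * (2 * p * (6 * KK * L)) := by
    refine Finset.sum_le_sum fun l hl => ?_
    rw [Finset.mem_range] at hl
    calc ∑ t ∈ range l, row (N ^ t) x * p * col ((Wm N p) ^ (l - 1 - t)) y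
        ≤ ∑ t ∈ range l, 2 * p * (6 * KK * L) := by
          refine Finset.sum_le_sum fun t ht => ?_
          rw [Finset.mem_range] at ht
          have h3 := h.rowle t (by omega) x
          have h4 := col_le_all h hn (k := l - 1 - t) (by omega) y
          exact mul_le_mul (mul_le_mul_of_nonneg_right h3 hp) h4
            (col_nonneg (pow_nonneg' (Wm_nonneg h.nonneg hn.hp) _) y) (by positivity)
      _ = l * (2 * p * (6 * KK * L)) := by rw [Finset.sum_const, Finset.card_range, nsmul_eq_mul]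
      _ ≤ (2 * L : ℝ) * (2 * p * (6 * KK * L)) := by
          refine mul_le_mul_of_nonneg_right ?_ (by positivity)
          have : l ≤ 2 * L := by omega
          exact_mod_cast this
  rw [Finset.sum_const, Finset.card_range, nsmul_eq_mul] at h2
  push_cast at h2
  have h5 : (2 * (L : ℝ) + 1) * ((2 * L : ℝ) * (2 * p * (6 * KK * L))) ≤ 36 * KK := by
    have h6 : (2 * (L : ℝ) + 1) ≤ 3 * L := by linarith
    have h7 : 0 ≤ (2 * L : ℝ) * (2 * p * (6 * KK * L)) := by positivity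
    calc (2 * (L : ℝ) + 1) * ((2 * L : ℝ) * (2 * p * (6 * KK * L)))
        ≤ (3 * L) * ((2 * L : ℝ) * (2 * p * (6 * KK * L))) := mul_le_mul_of_nonneg_right h6 h7
      _ = 36 * KK * (2 * L ^ 3 * p) := by ring
      _ ≤ 36 * KK * 1 := mul_le_mul_of_nonneg_left hn.hp1 (by linarith)
      _ = 36 * KK := by ring
  linarith

lemma sum_Gr_row (h : Hyp N V (2 * L)) (hn : Num Λ V L p) (x : Λ) :
    ∑ y, Gr N p L x y ≤ 18 * KK * L ^ 2 := by
  have hK := one_le_KK
  have hL : (1 : ℝ) ≤ L := by exact_mod_cast hn.hL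
  unfold Gr
  rw [Finset.sum_comm]
  calc ∑ l ∈ range (2 * L + 1), ∑ y, ((Wm N p) ^ l) x y ≤ ∑ l ∈ range (2 * L + 1), 6 * KK * L := by
        refine Finset.sum_le_sum fun l hl => ?_
        rw [Finset.mem_range] at hl
        exact row_le_all h hn (by omega) x
    _ = (2 * L + 1) * (6 * KK * L) := by
        rw [Finset.sum_const, Finset.card_range, nsmul_eq_mul]; push_cast; ring
    _ ≤ (3 * L) * (6 * KK * L) := mul_le_mul_of_nonneg_right (by linarith) (by positivity)
    _ = 18 * KK * L ^ 2 := by ring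

lemma sum_Gr_col (h : Hyp N V (2 * L)) (hn : Num Λ V L p) (y : Λ) :
    ∑ x, Gr N p L x y ≤ 18 * KK * L ^ 2 := by
  have hK := one_le_KK
  have hL : (1 : ℝ) ≤ L := by exact_mod_cast hn.hL
  unfold Gr
  rw [Finset.sum_comm]
  calc ∑ l ∈ range (2 * L + 1), ∑ x, ((Wm N p) ^ l) x y ≤ ∑ l ∈ range (2 * L + 1), 6 * KK * L := by
        refine Finset.sum_le_sum fun l hl => ?_
        rw [Finset.mem_range] at hl
        exact col_le_all h hn (by omega) y
    _ = (2 * L + 1) * (6 * KK * L) := by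
        rw [Finset.sum_const, Finset.card_range, nsmul_eq_mul]; push_cast; ring
    _ ≤ (3 * L) * (6 * KK * L) := mul_le_mul_of_nonneg_right (by linarith) (by positivity)
    _ = 18 * KK * L ^ 2 := by ring

lemma sum_Gr_tot (h : Hyp N V (2 * L)) (hn : Num Λ V L p) :
    ∑ x, ∑ y, Gr N p L x y ≤ 6 * KK * L ^ 4 := by
  have hK := one_le_KK
  have hL : (1 : ℝ) ≤ L := by exact_mod_cast hn.hL
  have e : ∑ x, ∑ y, Gr N p L x y = ∑ l ∈ range (2 * L + 1), tot ((Wm N p) ^ l) := by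
    unfold Gr tot
    rw [Finset.sum_comm]
    simp_rw [Finset.sum_comm (s := (Finset.univ : Finset Λ)) (t := range (2 * L + 1))]
    refine Finset.sum_congr rfl fun l _ => ?_
    exact Finset.sum_comm
  rw [e]
  calc ∑ l ∈ range (2 * L + 1), tot ((Wm N p) ^ l) ≤ ∑ l ∈ range (2 * L + 1), (2 * (L : ℝ) ^ 3) * KK := by
        refine Finset.sum_le_sum fun l hl => ?_
        rw [Finset.mem_range] at hl
        exact tot_le_K h hn (by omega)
    _ = (2 * L + 1) * ((2 * (L : ℝ) ^ 3) * KK) := by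
        rw [Finset.sum_const, Finset.card_range, nsmul_eq_mul]; push_cast; ring
    _ ≤ (3 * L) * ((2 * (L : ℝ) ^ 3) * KK) := mul_le_mul_of_nonneg_right (by linarith) (by positivity)
    _ = 6 * KK * L ^ 4 := by ring

end

end

end Run7.h999.USat
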