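import Mathlib
import Pool.Agent.Run7.h999.USat.Kernel2

/-! The triple Green function sum. -/

set_option linter.all false

open Finset
open scoped BigOperators

namespace Run7.h999.USat

noncomputable section

variable {Λ : Type} [Fintype Λ] [DecidableEq Λ]

/-- indicator-type function -/
def indf (A : Finset Λ) (c : ℝ) (a : Λ) : ℝ := if a ∈ A then c else 0

/-- bilinear sum -/
def Bil (G : Λ → Λ → ℝ) (f g : Λ → ℝ) : ℝ := ∑ a, ∑ b, f a * G a b * g b

lemma Bil_add_left (G : Λ → Λ → ℝ) (f f' g : Λ → ℝ) :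
    Bil G (fun a => f a + f' a) g = Bil G f g + Bil G f' g := by
  unfold Bil
  rw [← Finset.sum_add_distrib]
  refine Finset.sum_congr rfl fun a _ => ?_
  rw [← Finset.sum_add_distrib]
  refine Finset.sum_congr rfl fun b _ => ?_
  ring

lemma Bil_add_right (G : Λ → Λ → ℝ) (f g g' : Λ → ℝ) :
    Bil G f (fun a => g a + g' a) = Bil G f g + Bil G f g' := by
  unfold Bil
  rw [← Finset.sum_add_distrib]
  refine Finset.sum_congr rfl fun a _ => ?_
  rw [← Finset.sum_add_distrib]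
  refine Finset.sum_congr rfl fun b _ => ?_
  ring

lemma Bil_ind (G : Λ → Λ → ℝ) (A B : Finset Λ) (c d : ℝ) :
    Bil G (indf A c) (indf B d) = c * d * ∑ a ∈ A, ∑ b ∈ B, G a b := by
  unfold Bil indf
  rw [Finset.mul_sum]
  have h1 : ∀ a : Λ, ∑ b, (if a ∈ A then c else 0) * G a b * (if b ∈ B then d else 0) =
      if a ∈ A then c * d * ∑ b ∈ B, G a b else 0 := by
    intro a
    split_ifs with ha
    · rw [Finset.mul_sum]
      rw [← Finset.sum_subset (Finset.subset_univ B)]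
      · refine Finset.sum_congr rfl fun b hb => ?_
        rw [if_pos hb]; ring
      · intro b _ hb
        rw [if_neg hb]; ring
    · simp
  simp only [h1]
  rw [Finset.sum_ite_mem, Finset.univ_inter]

lemma Bil_mono (G : Λ → Λ → ℝ) (hG : ∀ a b, 0 ≤ G a b) {f f' g g' : Λ → ℝ}
    (hf : ∀ a, 0 ≤ f a) (hff : ∀ a, f a ≤ f' a) (hg : ∀ a, 0 ≤ g a) (hgg : ∀ a, g a ≤ g' a) :
    Bil G f g ≤ Bil G f' g' := by
  unfold Bil
  refine Finset.sum_le_sum fun a _ => Finset.sum_le_sum fun b _ => ?_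
  have h1 : 0 ≤ f' a := (hf a).trans (hff a)
  exact mul_le_mul (mul_le_mul_of_nonneg_right (hff a) (hG a b)) (hgg b) (hg b) (mul_nonneg h1 (hG a b))

section
variable {N : Matrix Λ Λ ℝ} {V : Finset Λ} {L : ℕ} {p : ℝ}

lemma S_univ (h : Hyp N V (2 * L)) (hn : Num Λ V L p) (A : Finset Λ) :
    ∑ a ∈ A, ∑ b ∈ Finset.univ, Gr N p L a b ≤ A.card * (18 * KK * L ^ 2) := by
  calc ∑ a ∈ A, ∑ b ∈ Finset.univ, Gr N p L a b ≤ ∑ a ∈ A, 18 * KK * (L : ℝ) ^ 2 :=
        Finset.sum_le_sum fun a _ => sum_Gr_row h hn a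
    _ = A.card * (18 * KK * L ^ 2) := by rw [Finset.sum_const, nsmul_eq_mul]

lemma univ_S (h : Hyp N V (2 * L)) (hn : Num Λ V L p) (B : Finset Λ) :
    ∑ a ∈ Finset.univ, ∑ b ∈ B, Gr N p L a b ≤ B.card * (18 * KK * L ^ 2) := by
  rw [Finset.sum_comm]
  calc ∑ b ∈ B, ∑ a ∈ Finset.univ, Gr N p L a b ≤ ∑ a ∈ B, 18 * KK * (L : ℝ) ^ 2 :=
        Finset.sum_le_sum fun a _ => sum_Gr_col h hn a
    _ = B.card * (18 * KK * L ^ 2) := by rw [Finset.sum_const, nsmul_eq_mul]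

lemma S_S (h : Hyp N V (2 * L)) (hn : Num Λ V L p) (A B : Finset Λ) :
    ∑ a ∈ A, ∑ b ∈ B, Gr N p L a b ≤ A.card * (B.card * (38 * KK)) := by
  calc ∑ a ∈ A, ∑ b ∈ B, Gr N p L a b ≤ ∑ a ∈ A, ∑ b ∈ B, 38 * KK :=
        Finset.sum_le_sum fun a _ => Finset.sum_le_sum fun b _ => Gr_le h hn a b
    _ = A.card * (B.card * (38 * KK)) := by
        simp only [Finset.sum_const, nsmul_eq_mul]

/-- The majorant. -/
def maj (V sp : Finset Λ) (L : ℕ) (p : ℝ) (a : Λ) : ℝ :=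
  12 * KK * p * L * (if a ∈ V then (L : ℝ) else 1) + (if a ∈ sp then 38 * KK else 0)

theorem final_sum (h : Hyp N V (2 * L)) (hn : Num Λ V L p) (sp sp' : Finset Λ)
    (hsp : sp.card ≤ 2) (hsp' : sp'.card ≤ 2) {u v : Λ → ℝ}
    (hu0 : ∀ a, 0 ≤ u a) (hv0 : ∀ a, 0 ≤ v a)
    (hu : ∀ a, u a ≤ maj V sp L p a) (hv : ∀ a, v a ≤ maj V sp' L p a) :
    ∑ a, ∑ b, u a * Gr N p L a b * v b ≤ 1000000 * KK ^ 3 := by
  have hK := one_le_KK
  have hL : (1 : ℝ) ≤ L := by exact_mod_cast hn.hL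
  have hp := hn.hp
  have hG := Gr_nonneg h hn
  set α : ℝ := 12 * KK * p * L with hα
  have hα0 : 0 ≤ α := by positivity
  have hmaj : ∀ (s : Finset Λ) (a : Λ), maj V s L p a ≤
      (indf Finset.univ α a + indf V (α * L) a) + indf s (38 * KK) a := by
    intro s a
    unfold maj indf
    rw [← hα]
    simp only [Finset.mem_univ, if_true]
    have : α * (if a ∈ V then (L : ℝ) else 1) ≤ α + if a ∈ V then α * L else 0 := by
      split_ifs
      · linarith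
      · linarith
    linarith
  have h1 : ∑ a, ∑ b, u a * Gr N p L a b * v b ≤
      Bil (Gr N p L) (fun a => (indf Finset.univ α a + indf V (α * L) a) + indf sp (38 * KK) a)
        (fun a => (indf Finset.univ α a + indf V (α * L) a) + indf sp' (38 * KK) a) :=
    Bil_mono _ hG hu0 (fun a => (hu a).trans (hmaj sp a)) hv0 (fun a => (hv a).trans (hmaj sp' a))
  refine h1.trans ?_
  have ex : Bil (Gr N p L) (fun a => (indf Finset.univ α a + indf V (α * L) a) + indf sp (38 * KK) a)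
        (fun a => (indf Finset.univ α a + indf V (α * L) a) + indf sp' (38 * KK) a) =
      (α * α * ∑ a ∈ Finset.univ, ∑ b ∈ Finset.univ, Gr N p L a b +
       (α * L) * α * ∑ a ∈ V, ∑ b ∈ Finset.univ, Gr N p L a b +
       (38 * KK) * α * ∑ a ∈ sp, ∑ b ∈ Finset.univ, Gr N p L a b) +
      (α * (α * L) * ∑ a ∈ Finset.univ, ∑ b ∈ V, Gr N p L a b +
       (α * L) * (α * L) * ∑ a ∈ V, ∑ b ∈ V, Gr N p L a b +
       (38 * KK) * (α * L) * ∑ a ∈ sp, ∑ b ∈ V, Gr N p L a b) +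
      (α * (38 * KK) * ∑ a ∈ Finset.univ, ∑ b ∈ sp', Gr N p L a b +
       (α * L) * (38 * KK) * ∑ a ∈ V, ∑ b ∈ sp', Gr N p L a b +
       (38 * KK) * (38 * KK) * ∑ a ∈ sp, ∑ b ∈ sp', Gr N p L a b) := by
    rw [Bil_add_right, Bil_add_right, Bil_add_left, Bil_add_left, Bil_add_left, Bil_add_left,
      Bil_add_left, Bil_add_left]
    simp only [Bil_ind]
  rw [ex]
  have hV := hn.hV
  have hV0 : (0 : ℝ) ≤ V.card := by positivity
  have hs : (sp.card : ℝ) ≤ 2 := by exact_mod_cast hsp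
  have hs' : (sp'.card : ℝ) ≤ 2 := by exact_mod_cast hsp'
  have hs0 : (0 : ℝ) ≤ sp.card := by positivity
  have hs0' : (0 : ℝ) ≤ sp'.card := by positivity
  -- the key smallness: α L^2 ≤ 6 K
  have hαL : α * L ^ 2 ≤ 6 * KK := by
    have : α * L ^ 2 = 6 * KK * (2 * L ^ 3 * p) := by rw [hα]; ring
    rw [this]
    calc 6 * KK * (2 * L ^ 3 * p) ≤ 6 * KK * 1 := mul_le_mul_of_nonneg_left hn.hp1 (by linarith)
      _ = 6 * KK := by ring
  have hαL0 : 0 ≤ α * L ^ 2 := by positivity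
  have hsq : (α * L ^ 2) * (α * L ^ 2) ≤ 36 * KK ^ 2 := by nlinarith
  have hK0 : 0 < KK := by linarith
  -- nine bounds
  have b00 : α * α * ∑ a ∈ Finset.univ, ∑ b ∈ Finset.univ, Gr N p L a b ≤ 216 * KK ^ 3 := by
    calc α * α * ∑ a ∈ Finset.univ, ∑ b ∈ Finset.univ, Gr N p L a b
        ≤ α * α * (6 * KK * L ^ 4) := mul_le_mul_of_nonneg_left (sum_Gr_tot h hn) (by positivity)
      _ = 6 * KK * ((α * L ^ 2) * (α * L ^ 2)) := by ring
      _ ≤ 6 * KK * (36 * KK ^ 2) := mul_le_mul_of_nonneg_left hsq (by positivity)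
      _ = 216 * KK ^ 3 := by ring
  have cV : (V.card : ℝ) * (18 * KK * L ^ 2) ≤ 216 * KK * L ^ 3 := by
    calc (V.card : ℝ) * (18 * KK * L ^ 2) ≤ (12 * L) * (18 * KK * L ^ 2) :=
          mul_le_mul_of_nonneg_right hV (by positivity)
      _ = 216 * KK * L ^ 3 := by ring
  have b10 : (α * L) * α * ∑ a ∈ V, ∑ b ∈ Finset.univ, Gr N p L a b ≤ 7776 * KK ^ 3 := by
    calc (α * L) * α * ∑ a ∈ V, ∑ b ∈ Finset.univ, Gr N p L a b
        ≤ (α * L) * α * (216 * KK * L ^ 3) :=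
          mul_le_mul_of_nonneg_left ((S_univ h hn V).trans cV) (by positivity)
      _ = 216 * KK * ((α * L ^ 2) * (α * L ^ 2)) := by ring
      _ ≤ 216 * KK * (36 * KK ^ 2) := mul_le_mul_of_nonneg_left hsq (by positivity)
      _ = 7776 * KK ^ 3 := by ring
  have b01 : α * (α * L) * ∑ a ∈ Finset.univ, ∑ b ∈ V, Gr N p L a b ≤ 7776 * KK ^ 3 := by
    calc α * (α * L) * ∑ a ∈ Finset.univ, ∑ b ∈ V, Gr N p L a b
        ≤ α * (α * L) * (216 * KK * L ^ 3) :=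
          mul_le_mul_of_nonneg_left ((univ_S h hn V).trans cV) (by positivity)
      _ = 216 * KK * ((α * L ^ 2) * (α * L ^ 2)) := by ring
      _ ≤ 216 * KK * (36 * KK ^ 2) := mul_le_mul_of_nonneg_left hsq (by positivity)
      _ = 7776 * KK ^ 3 := by ring
  have cs : (sp.card : ℝ) * (18 * KK * L ^ 2) ≤ 36 * KK * L ^ 2 := by
    calc (sp.card : ℝ) * (18 * KK * L ^ 2) ≤ 2 * (18 * KK * L ^ 2) :=
          mul_le_mul_of_nonneg_right hs (by positivity)
      _ = 36 * KK * L ^ 2 := by ring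
  have cs' : (sp'.card : ℝ) * (18 * KK * L ^ 2) ≤ 36 * KK * L ^ 2 := by
    calc (sp'.card : ℝ) * (18 * KK * L ^ 2) ≤ 2 * (18 * KK * L ^ 2) :=
          mul_le_mul_of_nonneg_right hs' (by positivity)
      _ = 36 * KK * L ^ 2 := by ring
  have b20 : (38 * KK) * α * ∑ a ∈ sp, ∑ b ∈ Finset.univ, Gr N p L a b ≤ 8208 * KK ^ 3 := by
    calc (38 * KK) * α * ∑ a ∈ sp, ∑ b ∈ Finset.univ, Gr N p L a b
        ≤ (38 * KK) * α * (36 * KK * L ^ 2) :=
          mul_le_mul_of_nonneg_left ((S_univ h hn sp).trans cs) (by positivity)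
      _ = 1368 * KK ^ 2 * (α * L ^ 2) := by ring
      _ ≤ 1368 * KK ^ 2 * (6 * KK) := mul_le_mul_of_nonneg_left hαL (by positivity)
      _ = 8208 * KK ^ 3 := by ring
  have b02 : α * (38 * KK) * ∑ a ∈ Finset.univ, ∑ b ∈ sp', Gr N p L a b ≤ 8208 * KK ^ 3 := by
    calc α * (38 * KK) * ∑ a ∈ Finset.univ, ∑ b ∈ sp', Gr N p L a b
        ≤ α * (38 * KK) * (36 * KK * L ^ 2) :=
          mul_le_mul_of_nonneg_left ((univ_S h hn sp').trans cs') (by positivity)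
      _ = 1368 * KK ^ 2 * (α * L ^ 2) := by ring
      _ ≤ 1368 * KK ^ 2 * (6 * KK) := mul_le_mul_of_nonneg_left hαL (by positivity)
      _ = 8208 * KK ^ 3 := by ring
  have b11 : (α * L) * (α * L) * ∑ a ∈ V, ∑ b ∈ V, Gr N p L a b ≤ 196992 * KK ^ 3 := by
    have c1 : (V.card : ℝ) * (V.card * (38 * KK)) ≤ (12 * L) * ((12 * L) * (38 * KK)) := by
      gcongr
    calc (α * L) * (α * L) * ∑ a ∈ V, ∑ b ∈ V, Gr N p L a b
        ≤ (α * L) * (α * L) * ((12 * L) * ((12 * L) * (38 * KK))) :=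
          mul_le_mul_of_nonneg_left ((S_S h hn V V).trans c1) (by positivity)
      _ = 5472 * KK * ((α * L ^ 2) * (α * L ^ 2)) := by ring
      _ ≤ 5472 * KK * (36 * KK ^ 2) := mul_le_mul_of_nonneg_left hsq (by positivity)
      _ = 196992 * KK ^ 3 := by ring
  have b21 : (38 * KK) * (α * L) * ∑ a ∈ sp, ∑ b ∈ V, Gr N p L a b ≤ 207936 * KK ^ 3 := by
    have c1 : (sp.card : ℝ) * (V.card * (38 * KK)) ≤ 2 * ((12 * L) * (38 * KK)) := by
      gcongr
    calc (38 * KK) * (α * L) * ∑ a ∈ sp, ∑ b ∈ V, Gr N p L a b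
        ≤ (38 * KK) * (α * L) * (2 * ((12 * L) * (38 * KK))) :=
          mul_le_mul_of_nonneg_left ((S_S h hn sp V).trans c1) (by positivity)
      _ = 34656 * KK ^ 2 * (α * L ^ 2) := by ring
      _ ≤ 34656 * KK ^ 2 * (6 * KK) := mul_le_mul_of_nonneg_left hαL (by positivity)
      _ = 207936 * KK ^ 3 := by ring
  have b12 : (α * L) * (38 * KK) * ∑ a ∈ V, ∑ b ∈ sp', Gr N p L a b ≤ 207936 * KK ^ 3 := by
    have c1 : (V.card : ℝ) * (sp'.card * (38 * KK)) ≤ (12 * L) * (2 * (38 * KK)) := by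
      gcongr
    calc (α * L) * (38 * KK) * ∑ a ∈ V, ∑ b ∈ sp', Gr N p L a b
        ≤ (α * L) * (38 * KK) * ((12 * L) * (2 * (38 * KK))) :=
          mul_le_mul_of_nonneg_left ((S_S h hn V sp').trans c1) (by positivity)
      _ = 34656 * KK ^ 2 * (α * L ^ 2) := by ring
      _ ≤ 34656 * KK ^ 2 * (6 * KK) := mul_le_mul_of_nonneg_left hαL (by positivity)
      _ = 207936 * KK ^ 3 := by ring
  have b22 : (38 * KK) * (38 * KK) * ∑ a ∈ sp, ∑ b ∈ sp', Gr N p L a b ≤ 219488 * KK ^ 3 := by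
    have c1 : (sp.card : ℝ) * (sp'.card * (38 * KK)) ≤ 2 * (2 * (38 * KK)) := by
      gcongr
    calc (38 * KK) * (38 * KK) * ∑ a ∈ sp, ∑ b ∈ sp', Gr N p L a b
        ≤ (38 * KK) * (38 * KK) * (2 * (2 * (38 * KK))) :=
          mul_le_mul_of_nonneg_left ((S_S h hn sp sp').trans c1) (by positivity)
      _ = 219488 * KK ^ 3 := by ring
  have hK3 : 0 ≤ KK ^ 3 := by positivity
  linarith

end

end

end Run7.h999.USat
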