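import Mathlib
import Pool.Agent.Run7.h999.USat.Kernel

/-! Arcs of a path and sums over paths. -/

set_option linter.all false

open Finset
open scoped BigOperators

namespace Run7.h999.USat

/-- the list of arcs of the path `x, l, y` -/
def arcs {Λ : Type} : Λ → List Λ → Λ → List (Λ × Λ)
  | x, [], y => [(x, y)]
  | x, z :: l, y => (x, z) :: arcs z l y

section
variable {Λ : Type}

@[simp] lemma arcs_nil (x y : Λ) : arcs x [] y = [(x, y)] := rfl
@[simp] lemma arcs_cons (x z : Λ) (l : List Λ) (y : Λ) : arcs x (z :: l) y = (x, z) :: arcs z l y := rfl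

lemma arcs_append (x : Λ) (l1 : List Λ) (z : Λ) (l2 : List Λ) (y : Λ) :
    arcs x (l1 ++ z :: l2) y = arcs x l1 z ++ arcs z l2 y := by
  induction l1 generalizing x with
  | nil => simp
  | cons u l ih => simp [ih]

lemma arcs_snoc (x : Λ) (l1 : List Λ) (z : Λ) (y : Λ) :
    arcs x (l1 ++ [z]) y = arcs x l1 z ++ [(z, y)] := by
  rw [arcs_append]; rfl

lemma length_arcs (x : Λ) (l : List Λ) (y : Λ) : (arcs x l y).length = l.length + 1 := by
  induction l generalizing x with
  | nil => simp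
  | cons u l ih => simp [ih]

lemma arcs_map_fst (x : Λ) (l : List Λ) (y : Λ) : (arcs x l y).map Prod.fst = x :: l := by
  induction l generalizing x with
  | nil => simp
  | cons u l ih => simp [ih]

lemma arcs_map_snd (x : Λ) (l : List Λ) (y : Λ) : (arcs x l y).map Prod.snd = l ++ [y] := by
  induction l generalizing x with
  | nil => simp
  | cons u l ih => simp [ih]

lemma fst_mem_of_arcs {x : Λ} {l : List Λ} {y s d : Λ} (h : (s, d) ∈ arcs x l y) : s ∈ x :: l := by
  rw [← arcs_map_fst x l y]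
  exact List.mem_map.2 ⟨_, h, rfl⟩

lemma snd_mem_of_arcs {x : Λ} {l : List Λ} {y s d : Λ} (h : (s, d) ∈ arcs x l y) : d ∈ l ++ [y] := by
  rw [← arcs_map_snd x l y]
  exact List.mem_map.2 ⟨_, h, rfl⟩

lemma arcs_fst_unique {x : Λ} {l : List Λ} {y s d d' : Λ} (hn : (x :: l).Nodup)
    (h : (s, d) ∈ arcs x l y) (h' : (s, d') ∈ arcs x l y) : d = d' := by
  have h1 : ((arcs x l y).map Prod.fst).Nodup := by rwa [arcs_map_fst]
  have := List.inj_on_of_nodup_map h1 h h' rfl
  exact congrArg Prod.snd this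

lemma arcs_snd_unique {x : Λ} {l : List Λ} {y s s' d : Λ} (hn : (l ++ [y]).Nodup)
    (h : (s, d) ∈ arcs x l y) (h' : (s', d) ∈ arcs x l y) : s = s' := by
  have h1 : ((arcs x l y).map Prod.snd).Nodup := by rwa [arcs_map_snd]
  have := List.inj_on_of_nodup_map h1 h h' rfl
  exact congrArg Prod.fst this

/-- product of weights along a list of arcs -/
def wprod (A : Λ → Λ → ℝ) (l : List (Λ × Λ)) : ℝ := (l.map fun a => A a.1 a.2).prod

@[simp] lemma wprod_nil (A : Λ → Λ → ℝ) : wprod A [] = 1 := rfl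
@[simp] lemma wprod_cons (A : Λ → Λ → ℝ) (a : Λ × Λ) (l : List (Λ × Λ)) :
    wprod A (a :: l) = A a.1 a.2 * wprod A l := by simp [wprod]
lemma wprod_append (A : Λ → Λ → ℝ) (l l' : List (Λ × Λ)) :
    wprod A (l ++ l') = wprod A l * wprod A l' := by simp [wprod]

lemma wprod_nonneg {A : Λ → Λ → ℝ} (hA : ∀ x y, 0 ≤ A x y) (l : List (Λ × Λ)) : 0 ≤ wprod A l := by
  induction l with
  | nil => simp
  | cons a l ih => rw [wprod_cons]; exact mul_nonneg (hA _ _) ih

lemma wprod_mono {A A' : Λ → Λ → ℝ} (hA : ∀ x y, 0 ≤ A x y) (hAA : ∀ x y, A x y ≤ A' x y)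
    (l : List (Λ × Λ)) : wprod A l ≤ wprod A' l := by
  induction l with
  | nil => simp
  | cons a l ih =>
    rw [wprod_cons, wprod_cons]
    exact mul_le_mul (hAA _ _) ih (wprod_nonneg hA _) ((hA _ _).trans (hAA _ _))

lemma arcs_graded {R : Type} [AddCommGroupWithOne R] (ψ : Λ → R) {x : Λ} {l : List Λ} {y : Λ} (c : R)
    (hx : ψ x = c) (hl : ∀ k (hk : k < l.length), ψ l[k] = c + k + 1) (hy : ψ y = c + l.length + 1) :
    ∀ s d, (s, d) ∈ arcs x l y → ψ d = ψ s + 1 := by
  induction l generalizing x c with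
  | nil =>
    intro s d h
    simp only [arcs_nil, List.mem_singleton, Prod.mk.injEq] at h
    obtain ⟨rfl, rfl⟩ := h
    rw [hx, hy]; simp
  | cons u l ih =>
    intro s d h
    simp only [arcs_cons, List.mem_cons, Prod.mk.injEq] at h
    rcases h with ⟨rfl, rfl⟩ | h
    · have := hl 0 (by simp)
      simp only [List.getElem_cons_zero, Nat.cast_zero, add_zero] at this
      rw [this, hx]
    · refine ih (c + 1) ?_ ?_ ?_ s d h
      · have := hl 0 (by simp)
        simpa using this
      · intro k hk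
        have := hl (k + 1) (by simpa using hk)
        simp only [List.getElem_cons_succ, Nat.cast_add, Nat.cast_one] at this
        rw [this]; abel
      · rw [hy]
        simp only [List.length_cons, Nat.cast_add, Nat.cast_one]
        abel

lemma arcs_rel {P : Λ → Λ → Prop} {x : Λ} {l : List Λ} {y : Λ} (Q : Λ → Prop)
    (hP : ∀ s d, (s, d) ∈ arcs x l y → Q s → Q d) (hx : Q x) : Q y := by
  induction l generalizing x with
  | nil => exact hP x y (by simp) hx
  | cons u l ih =>
    refine ih (x := u) ?_ ?_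
    · intro s d h
      exact hP s d (by simp [h])
    · exact hP x u (by simp) hx

end

section
variable {Λ : Type} [Fintype Λ] [DecidableEq Λ]

lemma sum_cons {k : ℕ} (F : (Fin (k + 1) → Λ) → ℝ) :
    ∑ f : Fin (k + 1) → Λ, F f = ∑ z : Λ, ∑ g : Fin k → Λ, F (Fin.cons z g) := by
  rw [← Fintype.sum_prod_type']
  exact (Fintype.sum_equiv (Fin.consEquiv fun _ => Λ) _ _ (fun _ => rfl)).symm

lemma sum_snoc {k : ℕ} (F : (Fin (k + 1) → Λ) → ℝ) :
    ∑ f : Fin (k + 1) → Λ, F f = ∑ z : Λ, ∑ g : Fin k → Λ, F (Fin.snoc g z) := by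
  rw [← Fintype.sum_prod_type']
  exact (Fintype.sum_equiv (Fin.snocEquiv fun _ => Λ) _ _ (fun _ => rfl)).symm

lemma ofFn_cons {k : ℕ} (z : Λ) (g : Fin k → Λ) :
    List.ofFn (Fin.cons z g : Fin (k + 1) → Λ) = z :: List.ofFn g := by
  rw [List.ofFn_succ]; simp

lemma ofFn_snoc {k : ℕ} (z : Λ) (g : Fin k → Λ) :
    List.ofFn (Fin.snoc g z : Fin (k + 1) → Λ) = List.ofFn g ++ [z] := by
  rw [List.ofFn_succ']; simp

lemma sum_paths (A : Matrix Λ Λ ℝ) (k : ℕ) (x y : Λ) :
    ∑ f : Fin k → Λ, wprod A (arcs x (List.ofFn f) y) = (A ^ (k + 1)) x y := by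
  induction k generalizing x with
  | zero =>
    simp
  | succ k ih =>
    rw [sum_cons]
    simp only [ofFn_cons, arcs_cons, wprod_cons]
    simp only [← Finset.mul_sum, ih]
    rw [pow_succ' A (k + 1), Matrix.mul_apply]

/-- first arc replaced by the constant `p` -/
lemma sum_paths_first (A : Matrix Λ Λ ℝ) (p : ℝ) (k : ℕ) (x y : Λ) :
    ∑ f : Fin (k + 1) → Λ, p * wprod A ((arcs x (List.ofFn f) y).tail) = p * col (A ^ (k + 1)) y := by
  rw [sum_cons]
  simp only [ofFn_cons, arcs_cons, List.tail_cons]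
  simp only [← Finset.mul_sum, sum_paths]
  rfl

/-- last arc replaced by the constant `p` -/
lemma sum_paths_last (A : Matrix Λ Λ ℝ) (p : ℝ) (k : ℕ) (x y : Λ) :
    ∑ f : Fin (k + 1) → Λ, wprod A ((arcs x (List.ofFn f) y).dropLast) * p = row (A ^ (k + 1)) x * p := by
  rw [sum_snoc]
  simp only [ofFn_snoc, arcs_snoc, List.dropLast_concat]
  simp only [← Finset.sum_mul, sum_paths]
  rfl

end

end Run7.h999.USat
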