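import Mathlib
import Pool.Agent.Run7.h999.USat.Path
import Pool.Agent.Run7.h999.USat.Clause

/-! The unsatisfiable structures. -/

set_option linter.all false

open Finset
open scoped BigOperators Classical

namespace Run7.h999.USat

variable {n : ℕ}

/-- the word -/
def word (a b : Lit n) (l1 l2 l3 : List (Lit n)) : List (Lit n) := l1 ++ a :: (l2 ++ b :: l3)

/-- the arcs of the structure -/
def barcs (a b : Lit n) (l1 l2 l3 : List (Lit n)) : List (Lit n × Lit n) :=
  arcs (ng a) (word a b l1 l2 l3) (ng b)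

lemma barcs_eq (a b : Lit n) (l1 l2 l3 : List (Lit n)) :
    barcs a b l1 l2 l3 = arcs (ng a) l1 a ++ (arcs a l2 b ++ arcs b l3 (ng b)) := by
  unfold barcs word
  rw [arcs_append, arcs_append]

/-- clauses of a list of arcs -/
noncomputable def clset (B : List (Lit n × Lit n)) : Finset (Finset (Fin n × Bool)) :=
  (B.map fun q => cl q.1 q.2).toFinset

lemma mem_clset {B : List (Lit n × Lit n)} {c : Finset (Fin n × Bool)} :
    c ∈ clset B ↔ ∃ s d, (s, d) ∈ B ∧ cl s d = c := by
  unfold clset
  simp only [List.mem_toFinset, List.mem_map, Prod.exists]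

section
variable {a b : Lit n} {l1 l2 l3 : List (Lit n)}

lemma inj_of_nodup {w : List (Lit n)} (hw : (w.map Prod.fst).Nodup) {x y : Lit n} (hx : x ∈ w) (hy : y ∈ w)
    (h : x.1 = y.1) : x = y := List.inj_on_of_nodup_map hw hx hy h

lemma not_mem_ng {w : List (Lit n)} (hw : (w.map Prod.fst).Nodup) {x : Lit n} (hx : x ∈ w) : ng x ∉ w := by
  intro h
  exact ng_ne x (inj_of_nodup hw h hx rfl)

lemma a_mem : a ∈ word a b l1 l2 l3 := by simp [word]
lemma b_mem : b ∈ word a b l1 l2 l3 := by simp [word]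

lemma nodup_fst (hw : ((word a b l1 l2 l3).map Prod.fst).Nodup) : (ng a :: word a b l1 l2 l3).Nodup := by
  rw [List.nodup_cons]
  exact ⟨not_mem_ng hw a_mem, hw.of_map _⟩

lemma nodup_snd (hw : ((word a b l1 l2 l3).map Prod.fst).Nodup) : (word a b l1 l2 l3 ++ [ng b]).Nodup := by
  rw [List.nodup_append]
  refine ⟨hw.of_map _, by simp, ?_⟩
  intro x hx y hy
  simp only [List.mem_singleton] at hy
  subst hy
  rintro rfl
  exact not_mem_ng hw b_mem hx

/-- arcs go between different variables for nodup paths -/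
lemma arcs_ne {x : Lit n} {l : List (Lit n)} {y : Lit n} (h : ((x :: (l ++ [y])).map Prod.fst).Nodup) :
    ∀ s d, (s, d) ∈ arcs x l y → s.1 ≠ d.1 := by
  induction l generalizing x with
  | nil =>
    intro s d hs
    simp only [arcs_nil, List.mem_singleton, Prod.mk.injEq] at hs
    obtain ⟨rfl, rfl⟩ := hs
    simpa using h
  | cons u l ih =>
    intro s d hs
    simp only [arcs_cons, List.mem_cons, Prod.mk.injEq] at hs
    rcases hs with ⟨rfl, rfl⟩ | hs
    · simp only [List.cons_append, List.map_cons, List.nodup_cons, List.mem_cons, not_or] at h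
      exact h.1.1
    · refine ih ?_ s d hs
      simp only [List.cons_append, List.map_cons, List.nodup_cons] at h ⊢
      exact h.2

lemma barcs_ne (hw : ((word a b l1 l2 l3).map Prod.fst).Nodup) (h1 : l1 ≠ []) (h3 : l3 ≠ []) :
    ∀ s d, (s, d) ∈ barcs a b l1 l2 l3 → s.1 ≠ d.1 := by
  intro s d h
  rw [barcs_eq, List.mem_append, List.mem_append] at h
  unfold word at hw
  rcases h with h | h | h
  · obtain ⟨z, l, rfl⟩ := List.exists_cons_of_ne_nil h1
    rw [arcs_cons, List.mem_cons] at h
    rcases h with h | h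
    · simp only [Prod.mk.injEq] at h
      obtain ⟨rfl, rfl⟩ := h
      intro h
      simp only [ng_fst] at h
      simp [h] at hw
    · refine arcs_ne ?_ s d h
      have : (z :: l ++ a :: (l2 ++ b :: l3)) = (z :: (l ++ [a])) ++ (l2 ++ b :: l3) := by simp
      rw [this, List.map_append] at hw
      exact (List.nodup_append.1 hw).1
  · refine arcs_ne ?_ s d h
    have : (l1 ++ a :: (l2 ++ b :: l3)) = l1 ++ ((a :: (l2 ++ [b])) ++ l3) := by simp
    rw [this, List.map_append, List.map_append] at hw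
    exact (List.nodup_append.1 (List.nodup_append.1 hw).2.1).1
  · obtain ⟨l, z, rfl⟩ : ∃ l z, l3 = l ++ [z] := ⟨l3.dropLast, l3.getLast h3, (List.dropLast_append_getLast h3).symm⟩
    rw [arcs_snoc, List.mem_append] at h
    rcases h with h | h
    · refine arcs_ne ?_ s d h
      have : (l1 ++ a :: (l2 ++ b :: (l ++ [z]))) = l1 ++ a :: l2 ++ (b :: (l ++ [z])) := by simp
      rw [this, List.map_append] at hw
      exact (List.nodup_append.1 hw).2.1
    · simp only [List.mem_singleton, Prod.mk.injEq] at h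
      obtain ⟨rfl, rfl⟩ := h
      intro h
      simp only [ng_fst] at h
      simp only [List.map_append, List.map_cons, List.map_nil, h] at hw
      have q1 := (List.nodup_append.1 hw).2.1
      have q2 := (List.nodup_append.1 (List.nodup_cons.1 q1).2).2.1
      exact (List.nodup_cons.1 q2).1 (by simp)

lemma barcs_fst_unique (hw : ((word a b l1 l2 l3).map Prod.fst).Nodup) {s d d' : Lit n}
    (h : (s, d) ∈ barcs a b l1 l2 l3) (h' : (s, d') ∈ barcs a b l1 l2 l3) : d = d' :=
  arcs_fst_unique (nodup_fst hw) h h'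

lemma barcs_snd_unique (hw : ((word a b l1 l2 l3).map Prod.fst).Nodup) {s s' d : Lit n}
    (h : (s, d) ∈ barcs a b l1 l2 l3) (h' : (s', d) ∈ barcs a b l1 l2 l3) : s = s' :=
  arcs_snd_unique (nodup_snd hw) h h'

/-- an arc head which is the negation of an arc tail is special -/
lemma special (hw : ((word a b l1 l2 l3).map Prod.fst).Nodup) {s d s' d' : Lit n}
    (h : (s, d) ∈ barcs a b l1 l2 l3) (h' : (s', d') ∈ barcs a b l1 l2 l3) (e : d = ng s') :
    (d = ng b ∧ s' = b) ∨ (d = a ∧ s' = ng a) := by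
  have h1 := fst_mem_of_arcs h'
  have h2 := snd_mem_of_arcs h
  rw [List.mem_cons] at h1
  rw [List.mem_append, List.mem_singleton] at h2
  rcases h1 with h1 | h1
  · right
    subst h1
    exact ⟨by rw [e, ng_ng], rfl⟩
  · rcases h2 with h2 | h2
    · exact absurd (e ▸ h2) (not_mem_ng hw h1)
    · left
      refine ⟨h2, ?_⟩
      rw [h2] at e
      exact (ng_inj.1 e).symm

lemma no_ngang (hw : ((word a b l1 l2 l3).map Prod.fst).Nodup) : (ng a, ng b) ∉ barcs a b l1 l2 l3 := by
  intro h
  have h2 : ∃ z ∈ word a b l1 l2 l3, (ng a, z) ∈ barcs a b l1 l2 l3 := by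
    unfold barcs
    have hne : word a b l1 l2 l3 ≠ [] := by simp [word]
    obtain ⟨z, l, hzl⟩ := List.exists_cons_of_ne_nil hne
    rw [hzl]
    exact ⟨z, by simp, by simp⟩
  obtain ⟨z, hz, hz2⟩ := h2
  have := barcs_fst_unique hw h hz2
  subst this
  exact not_mem_ng hw b_mem hz

lemma cl_inj (hw : ((word a b l1 l2 l3).map Prod.fst).Nodup) (h1 : l1 ≠ []) (h3 : l3 ≠ []) {s d s' d' : Lit n}
    (h : (s, d) ∈ barcs a b l1 l2 l3) (h' : (s', d') ∈ barcs a b l1 l2 l3) (e : cl s d = cl s' d') :
    s = s' ∧ d = d' := by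
  rcases cl_eq e with h4 | ⟨h4, h5⟩
  · exact h4
  · exfalso
    have e2 : d' = ng s := by rw [h4, ng_ng]
    rcases special hw h h' h5 with ⟨p1, p2⟩ | ⟨p1, p2⟩
    · rcases special hw h' h e2 with ⟨p3, p4⟩ | ⟨p3, p4⟩
      · subst p4
        rw [p1] at h
        exact barcs_ne hw h1 h3 _ _ h (by simp)
      · rw [p4, p1] at h
        exact no_ngang hw h
    · rcases special hw h' h e2 with ⟨p3, p4⟩ | ⟨p3, p4⟩
      · rw [p2, p3] at h'
        exact no_ngang hw h'
      · rw [p4, p1] at h
        exact barcs_ne hw h1 h3 _ _ h (by simp)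

lemma nodup_cls (hw : ((word a b l1 l2 l3).map Prod.fst).Nodup) (h1 : l1 ≠ []) (h3 : l3 ≠ []) :
    ((barcs a b l1 l2 l3).map fun q => cl q.1 q.2).Nodup := by
  refine List.Nodup.map_on ?_ ?_
  · rintro ⟨s, d⟩ h ⟨s', d'⟩ h' e
    obtain ⟨p1, p2⟩ := cl_inj hw h1 h3 h h' e
    rw [p1, p2]
  · have : ((barcs a b l1 l2 l3).map Prod.fst).Nodup := by
      unfold barcs
      rw [arcs_map_fst]
      exact nodup_fst hw
    exact this.of_map _

lemma card_clset (hw : ((word a b l1 l2 l3).map Prod.fst).Nodup) (h1 : l1 ≠ []) (h3 : l3 ≠ []) :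
    (clset (barcs a b l1 l2 l3)).card = l1.length + l2.length + l3.length + 3 := by
  unfold clset
  rw [List.toFinset_card_of_nodup (nodup_cls hw h1 h3), List.length_map]
  unfold barcs
  rw [length_arcs]
  simp only [word, List.length_append, List.length_cons]
  omega

lemma isCl_clset (hw : ((word a b l1 l2 l3).map Prod.fst).Nodup) (h1 : l1 ≠ []) (h3 : l3 ≠ []) :
    ∀ c ∈ clset (barcs a b l1 l2 l3), IsCl c := by
  intro c hc
  obtain ⟨s, d, h, rfl⟩ := mem_clset.1 hc
  exact isCl_cl (barcs_ne hw h1 h3 s d h)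

/-- a literal other than `a, ¬b` is in at most one clause -/
lemma clause_unique (hw : ((word a b l1 l2 l3).map Prod.fst).Nodup) {z : Lit n} (hza : z ≠ a) (hzb : z ≠ ng b)
    {c c' : Finset (Fin n × Bool)}
    (hc : c ∈ clset (barcs a b l1 l2 l3)) (hc' : c' ∈ clset (barcs a b l1 l2 l3)) (hz : z ∈ c) (hz' : z ∈ c') :
    c = c' := by
  obtain ⟨s, d, h, rfl⟩ := mem_clset.1 hc
  obtain ⟨s', d', h', rfl⟩ := mem_clset.1 hc'
  simp only [cl, mem_insert, mem_singleton] at hz hz'
  rcases hz with hz | hz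
  · rcases hz' with hz' | hz'
    · have : s = s' := ng_inj.1 (hz.symm.trans hz')
      subst this
      rw [barcs_fst_unique hw h h']
    · exfalso
      rcases special hw h' h (hz'.symm.trans hz) with ⟨p1, _⟩ | ⟨p1, _⟩
      · exact hzb (hz'.trans p1)
      · exact hza (hz'.trans p1)
  · rcases hz' with hz' | hz'
    · exfalso
      rcases special hw h h' (hz.symm.trans hz') with ⟨p1, _⟩ | ⟨p1, _⟩
      · exact hzb (hz.trans p1)
      · exact hza (hz.trans p1)
    · have : d = d' := hz.symm.trans hz'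
      subst this
      rw [barcs_snd_unique hw h h']

/-- the structures are unsatisfiable -/
lemma unsat_of (g : Fin n → Bool)
    (hg : ∀ c ∈ clset (barcs a b l1 l2 l3), ∃ l ∈ c, g l.1 = l.2) : False := by
  have step : ∀ s d, (s, d) ∈ barcs a b l1 l2 l3 → g s.1 = s.2 → g d.1 = d.2 := by
    intro s d h hs
    obtain ⟨l, hl, hl2⟩ := hg (cl s d) (mem_clset.2 ⟨s, d, h, rfl⟩)
    simp only [cl, mem_insert, mem_singleton] at hl
    rcases hl with rfl | rfl
    · simp only [ng_fst, ng_snd] at hl2
      rw [hs] at hl2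
      simp at hl2
    · exact hl2
  have s1 : g a.1 = a.2 := by
    by_contra hne
    have h0 : g (ng a).1 = (ng a).2 := by
      simp only [ng_fst, ng_snd]
      cases hh : g a.1 <;> cases h2 : a.2 <;> simp_all
    exact hne (arcs_rel (P := fun _ _ => True) (x := ng a) (l := l1) (y := a) (fun l => g l.1 = l.2)
      (fun s d h => step s d (by rw [barcs_eq]; simp [h])) h0)
  have s2 : g b.1 = b.2 := arcs_rel (P := fun _ _ => True) (x := a) (l := l2) (y := b) (fun l => g l.1 = l.2)
      (fun s d h => step s d (by rw [barcs_eq]; simp [h])) s1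
  have s3 : g (ng b).1 = (ng b).2 := arcs_rel (P := fun _ _ => True) (x := b) (l := l3) (y := ng b)
      (fun l => g l.1 = l.2) (fun s d h => step s d (by rw [barcs_eq]; simp [h])) s2
  simp only [ng_fst, ng_snd, s2] at s3
  simp at s3

end

end Run7.h999.USat
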