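import Mathlib
import Pool.Agent.Run7.h999.USat.Struct

/-! The implication digraph of an unsatisfiable structure. -/

set_option linter.all false

open Finset
open scoped BigOperators Classical

namespace Run7.h999.USat

variable {n : ℕ}

/-- adjacency matrix of the implication digraph -/
noncomputable def Nm (B : List (Lit n × Lit n)) : Matrix (Lit n) (Lit n) ℝ :=
  Matrix.of fun x y => if cl x y ∈ clset B then (1 : ℝ) else 0

lemma Nm_apply (B : List (Lit n × Lit n)) (x y : Lit n) :
    Nm B x y = if cl x y ∈ clset B then (1 : ℝ) else 0 := rfl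

lemma Nm_nonneg (B : List (Lit n × Lit n)) (x y : Lit n) : 0 ≤ Nm B x y := by
  rw [Nm_apply]; split_ifs <;> norm_num

lemma Nm_symm (B : List (Lit n × Lit n)) (x y : Lit n) : Nm B (ng y) (ng x) = Nm B x y := by
  rw [Nm_apply, Nm_apply, cl_comm]

/-- literals whose variable occurs in the word -/
noncomputable def Vs (w : List (Lit n)) : Finset (Lit n) :=
  Finset.univ.filter fun x => x ∈ w ∨ ng x ∈ w

lemma mem_Vs {w : List (Lit n)} {x : Lit n} : x ∈ Vs w ↔ x ∈ w ∨ ng x ∈ w := by
  simp [Vs]

lemma ng_mem_Vs {w : List (Lit n)} {x : Lit n} : ng x ∈ Vs w ↔ x ∈ Vs w := by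
  rw [mem_Vs, mem_Vs, ng_ng, or_comm]

lemma card_Vs (w : List (Lit n)) : (Vs w).card ≤ 2 * w.length := by
  have : Vs w ⊆ w.toFinset ∪ (w.map ng).toFinset := by
    intro x hx
    rw [mem_Vs] at hx
    rw [mem_union, List.mem_toFinset, List.mem_toFinset, List.mem_map]
    rcases hx with h | h
    · exact Or.inl h
    · exact Or.inr ⟨_, h, ng_ng x⟩
  calc (Vs w).card ≤ (w.toFinset ∪ (w.map ng).toFinset).card := Finset.card_le_card this
    _ ≤ w.toFinset.card + (w.map ng).toFinset.card := Finset.card_union_le _ _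
    _ ≤ w.length + (w.map ng).length := Nat.add_le_add (List.toFinset_card_le _) (List.toFinset_card_le _)
    _ = 2 * w.length := by rw [List.length_map]; ring

section
variable {a b : Lit n} {l1 l2 l3 : List (Lit n)}

lemma mem_Vs_fst {s d : Lit n} (h : (s, d) ∈ barcs a b l1 l2 l3) : s ∈ Vs (word a b l1 l2 l3) := by
  have := fst_mem_of_arcs h
  rw [List.mem_cons] at this
  rw [mem_Vs]
  rcases this with rfl | h
  · right; rw [ng_ng]; exact a_mem
  · exact Or.inl h

lemma mem_Vs_snd {s d : Lit n} (h : (s, d) ∈ barcs a b l1 l2 l3) : d ∈ Vs (word a b l1 l2 l3) := by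
  have := snd_mem_of_arcs h
  rw [List.mem_append, List.mem_singleton] at this
  rw [mem_Vs]
  rcases this with h | rfl
  · exact Or.inl h
  · right; rw [ng_ng]; exact b_mem

lemma Nm_cases {x y : Lit n} (h : Nm (barcs a b l1 l2 l3) x y ≠ 0) :
    (x, y) ∈ barcs a b l1 l2 l3 ∨ (ng y, ng x) ∈ barcs a b l1 l2 l3 := by
  rw [Nm_apply] at h
  have h2 : cl x y ∈ clset (barcs a b l1 l2 l3) := by
    by_contra hh
    rw [if_neg hh] at h
    exact h rfl
  obtain ⟨s, d, hsd, e⟩ := mem_clset.1 h2
  rcases cl_eq e with ⟨rfl, rfl⟩ | ⟨rfl, rfl⟩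
  · exact Or.inl hsd
  · exact Or.inr hsd

lemma Nm_supp {x y : Lit n} (h : Nm (barcs a b l1 l2 l3) x y ≠ 0) :
    x ∈ Vs (word a b l1 l2 l3) ∧ y ∈ Vs (word a b l1 l2 l3) := by
  rcases Nm_cases h with h | h
  · exact ⟨mem_Vs_fst h, mem_Vs_snd h⟩
  · exact ⟨ng_mem_Vs.1 (mem_Vs_snd h), ng_mem_Vs.1 (mem_Vs_fst h)⟩

/-- the phase -/
noncomputable def ph (T l : ℕ) (w : List (Lit n)) (x : Lit n) : ZMod T :=
  if x ∈ w then ((w.idxOf x : ℕ) : ZMod T) + 1 else (l : ZMod T) - (((w.idxOf (ng x) : ℕ) : ZMod T) + 1)

lemma ph_ng {T l : ℕ} {w : List (Lit n)} (hw : (w.map Prod.fst).Nodup) {x : Lit n} (hx : x ∈ Vs w) :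
    ph T l w (ng x) = l - ph T l w x := by
  unfold ph
  rw [mem_Vs] at hx
  by_cases h : x ∈ w
  · rw [if_neg (not_mem_ng hw h), if_pos h, ng_ng]
  · rw [if_neg h]
    have h2 : ng x ∈ w := by tauto
    rw [if_pos h2]
    ring

lemma ph_get {T l : ℕ} {w : List (Lit n)} (hw : (w.map Prod.fst).Nodup) {k : ℕ} (hk : k < w.length) :
    ph T l w w[k] = (k : ZMod T) + 1 := by
  unfold ph
  rw [if_pos (List.getElem_mem hk), List.Nodup.idxOf_getElem (hw.of_map _)]

lemma ph_a {T l : ℕ} (hw : ((word a b l1 l2 l3).map Prod.fst).Nodup) :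
    ph T l (word a b l1 l2 l3) a = (l1.length : ZMod T) + 1 := by
  have hk : l1.length < (word a b l1 l2 l3).length := by simp [word]
  have := ph_get (T := T) (l := l) hw hk
  have e : (word a b l1 l2 l3)[l1.length] = a := by
    simp [word]
  rw [e] at this
  exact this

lemma ph_b {T l : ℕ} (hw : ((word a b l1 l2 l3).map Prod.fst).Nodup) :
    ph T l (word a b l1 l2 l3) b = ((l1.length + 1 + l2.length : ℕ) : ZMod T) + 1 := by
  have e0 : word a b l1 l2 l3 = (l1 ++ a :: l2) ++ b :: l3 := by simp [word]
  have hk : l1.length + 1 + l2.length < (word a b l1 l2 l3).length := by simp [word]; omega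
  have := ph_get (T := T) (l := l) hw hk
  have e : (word a b l1 l2 l3)[l1.length + 1 + l2.length] = b := by
    have h2 : ((l1 ++ a :: l2) ++ b :: l3)[l1.length + 1 + l2.length]'(by simp; omega) = b := by
      rw [List.getElem_append_right (by simp; omega)]
      have : l1.length + 1 + l2.length - (l1.length + (l2.length + 1)) = 0 := by omega
      simp [this]
    simpa only [e0] using h2
  rw [e] at this
  exact this

/-- grading of the implication digraph -/
lemma graded (hw : ((word a b l1 l2 l3).map Prod.fst).Nodup) {T : ℕ}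
    (hT : T = (l1.length + 1) + 2 * (l2.length + 1) + (l3.length + 1)) {x y : Lit n}
    (h : Nm (barcs a b l1 l2 l3) x y ≠ 0) :
    ph T (l1.length + 1) (word a b l1 l2 l3) y = ph T (l1.length + 1) (word a b l1 l2 l3) x + 1 := by
  set ψ := ph T (l1.length + 1) (word a b l1 l2 l3) with hψ
  have hT0 : ((l1.length + 1 : ℕ) : ZMod T) + 2 * ((l2.length + 1 : ℕ) : ZMod T) +
      ((l3.length + 1 : ℕ) : ZMod T) = 0 := by
    have := ZMod.natCast_self T
    conv_lhs at this => arg 1; rw [hT]
    push_cast at this ⊢
    exact this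
  have key : ∀ s d, (s, d) ∈ barcs a b l1 l2 l3 → ψ d = ψ s + 1 := by
    unfold barcs
    refine arcs_graded ψ 0 ?_ ?_ ?_
    · rw [hψ, ph_ng hw (mem_Vs.2 (Or.inl a_mem)), ph_a hw]
      push_cast
      ring
    · intro k hk
      rw [hψ, ph_get hw hk]
      ring
    · rw [hψ, ph_ng hw (mem_Vs.2 (Or.inl b_mem)), ph_b hw]
      have e : (word a b l1 l2 l3).length = l1.length + 1 + l2.length + 1 + l3.length := by
        simp [word]; omega
      rw [e]
      push_cast at hT0 ⊢
      linear_combination hT0 * (-1)
  rcases Nm_cases h with h | h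
  · exact key _ _ h
  · have h1 := key _ _ h
    have hx : x ∈ Vs (word a b l1 l2 l3) := ng_mem_Vs.1 (mem_Vs_snd h)
    have hy : y ∈ Vs (word a b l1 l2 l3) := ng_mem_Vs.1 (mem_Vs_fst h)
    rw [hψ, ph_ng hw hx, ph_ng hw hy] at h1
    rw [hψ]
    linear_combination h1

lemma sum_Nm_le_one (hw : ((word a b l1 l2 l3).map Prod.fst).Nodup) {x : Lit n} (hxa : x ≠ ng a) (hxb : x ≠ b) :
    row (Nm (barcs a b l1 l2 l3)) x ≤ 1 := by
  unfold row
  simp only [Nm_apply]
  rw [← Finset.sum_filter, Finset.sum_const, nsmul_eq_mul, mul_one]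
  have : (Finset.univ.filter fun y => cl x y ∈ clset (barcs a b l1 l2 l3)).card ≤ 1 := by
    rw [Finset.card_le_one]
    intro y hy z hz
    simp only [mem_filter, mem_univ, true_and] at hy hz
    have e := clause_unique (z := ng x) hw (fun h => hxa (by rw [← h, ng_ng])) (fun h => hxb (ng_inj.1 h)) hy hz
      (by simp [cl]) (by simp [cl])
    rcases cl_eq e with h | h
    · exact h.2
    · rw [← ng_ng y, ← ng_ng z]
      have h1 := h.1
      have h2 := h.2
      rw [h2, ← ng_ng z, ← h1, ng_ng]
  exact_mod_cast this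

lemma sum_Nm_le_two (hw : ((word a b l1 l2 l3).map Prod.fst).Nodup) (x : Lit n) :
    row (Nm (barcs a b l1 l2 l3)) x ≤ 2 := by
  unfold row
  simp only [Nm_apply]
  rw [← Finset.sum_filter, Finset.sum_const, nsmul_eq_mul, mul_one]
  have : (Finset.univ.filter fun y => cl x y ∈ clset (barcs a b l1 l2 l3)).card ≤ 2 := by
    have hsub : (Finset.univ.filter fun y => cl x y ∈ clset (barcs a b l1 l2 l3)) ⊆
        (Finset.univ.filter fun y => (x, y) ∈ barcs a b l1 l2 l3) ∪
        (Finset.univ.filter fun y => (ng y, ng x) ∈ barcs a b l1 l2 l3) := by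
      intro y hy
      simp only [mem_filter, mem_univ, true_and, mem_union] at hy ⊢
      exact Nm_cases (by rw [Nm_apply, if_pos hy]; norm_num)
    refine (Finset.card_le_card hsub).trans ((Finset.card_union_le _ _).trans ?_)
    have c1 : (Finset.univ.filter fun y => (x, y) ∈ barcs a b l1 l2 l3).card ≤ 1 := by
      rw [Finset.card_le_one]
      intro y hy z hz
      simp only [mem_filter, mem_univ, true_and] at hy hz
      exact barcs_fst_unique hw hy hz
    have c2 : (Finset.univ.filter fun y => (ng y, ng x) ∈ barcs a b l1 l2 l3).card ≤ 1 := by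
      rw [Finset.card_le_one]
      intro y hy z hz
      simp only [mem_filter, mem_univ, true_and] at hy hz
      exact ng_inj.1 (barcs_snd_unique hw hy hz)
    omega
  exact_mod_cast this

lemma row_succ (A : Matrix (Lit n) (Lit n) ℝ) (t : ℕ) (x : Lit n) :
    row (A ^ (t + 1)) x = ∑ z, A x z * row (A ^ t) z := by
  unfold row
  simp only [pow_succ', Matrix.mul_apply]
  rw [Finset.sum_comm]
  refine Finset.sum_congr rfl fun z _ => ?_
  rw [Finset.mul_sum]

lemma zmod_ne {T u : ℕ} (h0 : 0 < u) (hu : u < T) : (u : ZMod T) ≠ 0 := by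
  intro h
  rw [ZMod.natCast_eq_zero_iff] at h
  exact absurd (Nat.le_of_dvd h0 h) (by omega)

theorem hyp_Nm (hw : ((word a b l1 l2 l3).map Prod.fst).Nodup) {L : ℕ} (hL : 1 ≤ L)
    (h1 : L ≤ l1.length + 1) (h2 : L ≤ l2.length + 1) (h3 : L ≤ l3.length + 1) :
    Hyp (Nm (barcs a b l1 l2 l3)) (Vs (word a b l1 l2 l3)) (2 * L) := by
  set N := Nm (barcs a b l1 l2 l3) with hN
  set T := (l1.length + 1) + 2 * (l2.length + 1) + (l3.length + 1) with hT
  set ψ := ph T (l1.length + 1) (word a b l1 l2 l3) with hψ
  set j0 : ℕ := (l1.length + 1) + (l2.length + 1) with hj0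
  have hgr : ∀ x y, N x y ≠ 0 → ψ y = ψ x + 1 := fun x y h => graded hw hT h
  have hψa : ψ (ng a) = 0 := by
    rw [hψ, ph_ng hw (mem_Vs.2 (Or.inl a_mem)), ph_a hw]
    push_cast; ring
  have hψb : ψ b = (j0 : ZMod T) := by
    rw [hψ, ph_b hw, hj0]
    push_cast; ring
  have hN0 : ∀ x y, 0 ≤ N x y := Nm_nonneg _
  have hpow0 := fun t : ℕ => pow_nonneg' hN0 t
  -- claim 1
  have claim1 : ∀ (t : ℕ) (x : Lit n), (∀ u : ℕ, u < t → ψ x + (u : ZMod T) ≠ 0 ∧ ψ x + (u : ZMod T) ≠ (j0 : ZMod T)) →
      row (N ^ t) x ≤ 1 := by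
    intro t
    induction t with
    | zero => intro x _; rw [row_pow_zero]
    | succ t ih =>
      intro x hx
      rw [row_succ]
      have hx0 := hx 0 (by omega)
      simp only [Nat.cast_zero, add_zero] at hx0
      have hxa : x ≠ ng a := by rintro rfl; exact hx0.1 hψa
      have hxb : x ≠ b := by rintro rfl; exact hx0.2 hψb
      calc ∑ z, N x z * row (N ^ t) z ≤ ∑ z, N x z := by
            refine Finset.sum_le_sum fun z _ => ?_
            by_cases hz : N x z = 0
            · rw [hz]; simp
            · have : row (N ^ t) z ≤ 1 := by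
                refine ih z ?_
                intro u hu
                have := hx (u + 1) (by omega)
                rw [hgr x z hz]
                push_cast at this
                rw [show ψ x + 1 + (u : ZMod T) = ψ x + ((u : ZMod T) + 1) by ring]
                exact this
              calc N x z * row (N ^ t) z ≤ N x z * 1 := mul_le_mul_of_nonneg_left this (hN0 x z)
                _ = N x z := mul_one _
        _ ≤ 1 := sum_Nm_le_one hw hxa hxb
  -- claim 2
  have claim2 : ∀ t : ℕ, t ≤ 2 * L → ∀ x, row (N ^ t) x ≤ 2 := by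
    intro t
    induction t with
    | zero => intro _ x; rw [row_pow_zero]; norm_num
    | succ t ih =>
      intro ht x
      rw [row_succ]
      by_cases hx : ψ x = 0 ∨ ψ x = (j0 : ZMod T)
      · calc ∑ z, N x z * row (N ^ t) z ≤ ∑ z, N x z := by
              refine Finset.sum_le_sum fun z _ => ?_
              by_cases hz : N x z = 0
              · rw [hz]; simp
              · have : row (N ^ t) z ≤ 1 := by
                  refine claim1 t z ?_
                  intro u hu
                  rw [hgr x z hz]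
                  have f1 : ((u + 1 : ℕ) : ZMod T) ≠ 0 := zmod_ne (by omega) (by omega)
                  have f2 : ((j0 + (u + 1) : ℕ) : ZMod T) ≠ 0 := zmod_ne (by omega) (by omega)
                  have f3 : ((j0 - (u + 1) : ℕ) : ZMod T) ≠ 0 := zmod_ne (by omega) (by omega)
                  rw [Nat.cast_sub (by omega)] at f3
                  push_cast at f1 f2 f3
                  rcases hx with hx | hx
                  · rw [hx]
                    refine ⟨?_, ?_⟩
                    · intro h; apply f1; linear_combination h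
                    · intro h; apply f3; linear_combination (-1) * h
                  · rw [hx]
                    refine ⟨?_, ?_⟩
                    · intro h; apply f2; linear_combination h
                    · intro h; apply f1; linear_combination h
                calc N x z * row (N ^ t) z ≤ N x z * 1 := mul_le_mul_of_nonneg_left this (hN0 x z)
                  _ = N x z := mul_one _
          _ ≤ 2 := sum_Nm_le_two hw x
      · have hxa : x ≠ ng a := by rintro rfl; exact hx (Or.inl hψa)
        have hxb : x ≠ b := by rintro rfl; exact hx (Or.inr hψb)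
        calc ∑ z, N x z * row (N ^ t) z ≤ ∑ z, N x z * 2 :=
              Finset.sum_le_sum fun z _ => mul_le_mul_of_nonneg_left (ih (by omega) z) (hN0 x z)
          _ = (∑ z, N x z) * 2 := by rw [Finset.sum_mul]
          _ ≤ 1 * 2 := mul_le_mul_of_nonneg_right (sum_Nm_le_one hw hxa hxb) (by norm_num)
          _ = 2 := by norm_num
  -- symmetry
  have symm : ∀ (t : ℕ) (x y : Lit n), (N ^ t) (ng y) (ng x) = (N ^ t) x y := by
    intro t
    induction t with
    | zero =>
      intro x y
      simp only [pow_zero, Matrix.one_apply]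
      by_cases h : x = y
      · subst h; simp
      · rw [if_neg h, if_neg]
        intro h'
        exact h (ng_inj.1 h').symm
    | succ t ih =>
      intro x y
      have hl : (N ^ (t + 1)) (ng y) (ng x) = ∑ z, N (ng y) z * (N ^ t) z (ng x) := by
        rw [pow_succ', Matrix.mul_apply]
      have hr : (N ^ (t + 1)) x y = ∑ z, (N ^ t) x z * N z y := by
        rw [pow_succ, Matrix.mul_apply]
      rw [hl, hr]
      refine Fintype.sum_equiv ⟨ng, ng, ng_ng, ng_ng⟩ _ _ ?_
      intro z
      simp only [Equiv.coe_fn_mk]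
      have e1 : N (ng y) z = N (ng z) y := by
        have := Nm_symm (barcs a b l1 l2 l3) (ng z) y
        rw [ng_ng] at this
        exact this
      have e2 : (N ^ t) z (ng x) = (N ^ t) x (ng z) := by
        have := ih x (ng z)
        rw [ng_ng] at this
        exact this
      rw [e1, e2, mul_comm]
  have hcol : ∀ (t : ℕ) (y : Lit n), col (N ^ t) y = row (N ^ t) (ng y) := by
    intro t y
    unfold col row
    refine Fintype.sum_equiv ⟨ng, ng, ng_ng, ng_ng⟩ _ _ ?_
    intro z
    simp only [Equiv.coe_fn_mk]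
    exact (symm t z y).symm
  -- phases of powers
  have hpow : ∀ (t : ℕ) (x y : Lit n), (N ^ t) x y ≠ 0 → ψ y = ψ x + (t : ZMod T) := by
    intro t
    induction t with
    | zero =>
      intro x y h
      simp only [pow_zero, Matrix.one_apply] at h
      by_cases hxy : x = y
      · subst hxy; simp
      · rw [if_neg hxy] at h; exact absurd rfl h
    | succ t ih =>
      intro x y h
      rw [pow_succ', Matrix.mul_apply] at h
      obtain ⟨z, _, hz⟩ := Finset.exists_ne_zero_of_sum_ne_zero h
      have h4 := left_ne_zero_of_mul hz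
      have h5 := right_ne_zero_of_mul hz
      rw [ih z y h5, hgr x z h4]
      push_cast; ring
  refine ⟨hN0, ?_, ?_, claim2, ?_, ?_⟩
  · intro x y hx
    by_contra h
    exact hx (Nm_supp h).1
  · intro x y hy
    by_contra h
    exact hy (Nm_supp h).2
  · intro t ht y
    rw [hcol]
    exact claim2 t ht _
  · intro x y
    by_cases hall : ∀ t ∈ Finset.range (2 * L + 1), (N ^ t) x y = 0
    · rw [Finset.sum_eq_zero hall]; norm_num
    · push_neg at hall
      obtain ⟨t0, ht0, hne⟩ := hall
      rw [Finset.sum_eq_single_of_mem t0 ht0]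
      · refine le_trans ?_ (claim2 t0 (by rw [Finset.mem_range] at ht0; omega) x)
        unfold row
        exact Finset.single_le_sum (f := fun y => (N ^ t0) x y) (fun z _ => hpow0 t0 x z) (Finset.mem_univ y)
      · intro t ht htt
        by_contra hne2
        have e1 := hpow t x y hne2
        have e2 := hpow t0 x y hne
        have e3 : (t : ZMod T) = (t0 : ZMod T) := by
          have := e1.symm.trans e2
          exact add_left_cancel this
        rw [ZMod.natCast_eq_natCast_iff] at e3
        rw [Finset.mem_range] at ht ht0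
        have := Nat.ModEq.eq_of_lt_of_lt e3 (by omega) (by omega)
        exact htt this

end

end Run7.h999.USat
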