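import Mathlib
import Pool.Agent.Run7.h999.USat.Struct2
import Pool.Agent.Run7.h999.USat.Kernel3

/-! The conditional first moment of structures. -/

set_option linter.all false

open Finset
open scoped BigOperators Classical

namespace Run7.h999.USat

noncomputable section

variable {n : ℕ}

/-- tuples -/
abbrev Tup (n k1 k2 k3 : ℕ) : Type :=
  Lit n × Lit n × (Fin k1 → Lit n) × (Fin k2 → Lit n) × (Fin k3 → Lit n)

/-- word of a tuple -/
def tw {k1 k2 k3 : ℕ} (t : Tup n k1 k2 k3) : List (Lit n) :=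
  word t.1 t.2.1 (List.ofFn t.2.2.1) (List.ofFn t.2.2.2.1) (List.ofFn t.2.2.2.2)

/-- arcs of a tuple -/
def tb {k1 k2 k3 : ℕ} (t : Tup n k1 k2 k3) : List (Lit n × Lit n) :=
  barcs t.1 t.2.1 (List.ofFn t.2.2.1) (List.ofFn t.2.2.2.1) (List.ofFn t.2.2.2.2)

/-- legal tuples -/
def Good {k1 k2 k3 : ℕ} (t : Tup n k1 k2 k3) : Prop := ((tw t).map Prod.fst).Nodup

/-- weights relative to a set of clauses -/
def wt (T : Finset (Finset (Fin n × Bool))) (p : ℝ) (x y : Lit n) : ℝ := if cl x y ∈ T then 1 else p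

lemma wt_nonneg (T : Finset (Finset (Fin n × Bool))) {p : ℝ} (hp : 0 ≤ p) (x y : Lit n) : 0 ≤ wt T p x y := by
  unfold wt; split_ifs
  · norm_num
  · exact hp

lemma wt_le (B : List (Lit n × Lit n)) {p : ℝ} (hp : 0 ≤ p) (x y : Lit n) :
    wt (clset B) p x y ≤ Wm (Nm B) p x y := by
  simp only [wt, Wm, Matrix.add_apply, Pm, Matrix.of_apply, Nm_apply]
  split_ifs
  · linarith
  · linarith

lemma wprod_wt (T : Finset (Finset (Fin n × Bool))) (p : ℝ) (B : List (Lit n × Lit n))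
    (hB : (B.map fun q => cl q.1 q.2).Nodup) :
    wprod (wt T p) B = p ^ (clset B \ T).card := by
  unfold clset
  induction B with
  | nil => simp
  | cons q B ih =>
    rw [List.map_cons, List.nodup_cons] at hB
    rw [wprod_cons, ih hB.2, List.map_cons, List.toFinset_cons]
    unfold wt
    by_cases h : cl q.1 q.2 ∈ T
    · rw [if_pos h, one_mul, Finset.insert_sdiff_of_mem _ h]
    · rw [if_neg h, Finset.insert_sdiff_of_notMem _ h, Finset.card_insert_of_notMem, pow_succ']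
      intro h2
      exact hB.1 (List.mem_toFinset.1 (Finset.mem_sdiff.1 h2).1)

lemma first_arc (x z : Lit n) (l : List (Lit n)) (y : Lit n) :
    arcs x (z :: l) y = (x, z) :: (arcs x (z :: l) y).tail := by simp

lemma arcs_split_first {x : Lit n} {l : List (Lit n)} {y : Lit n} (h : l ≠ []) :
    ∃ z, (x, z) ∈ arcs x l y ∧ arcs x l y = (x, z) :: (arcs x l y).tail := by
  obtain ⟨z, l', rfl⟩ := List.exists_cons_of_ne_nil h
  exact ⟨z, by simp, by simp⟩

lemma arcs_split_last {x : Lit n} {l : List (Lit n)} {y : Lit n} (h : l ≠ []) :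
    ∃ z, (z, y) ∈ arcs x l y ∧ arcs x l y = (arcs x l y).dropLast ++ [(z, y)] := by
  obtain ⟨l', z, rfl⟩ : ∃ l' z, l = l' ++ [z] :=
    ⟨l.dropLast, l.getLast h, (List.dropLast_append_getLast h).symm⟩
  rw [arcs_snoc]
  exact ⟨z, by simp, by simp⟩

/-- bound for a path whose two extreme arcs are not both in `T` -/
lemma wprod_extreme {B : List (Lit n × Lit n)} {p : ℝ} (hp : 0 ≤ p) {x : Lit n} {l : List (Lit n)} {y : Lit n}
    (h : l ≠ []) (hex : ∀ z z', (x, z) ∈ arcs x l y → (z', y) ∈ arcs x l y →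
      ¬ (cl x z ∈ clset B ∧ cl z' y ∈ clset B)) :
    wprod (wt (clset B) p) (arcs x l y) ≤
      p * wprod (Wm (Nm B) p) ((arcs x l y).tail) + wprod (Wm (Nm B) p) ((arcs x l y).dropLast) * p := by
  have hW0 := Wm_nonneg (N := Nm B) (Nm_nonneg B) hp
  obtain ⟨z, hz, ez⟩ := arcs_split_first (x := x) (y := y) h
  obtain ⟨z', hz', ez'⟩ := arcs_split_last (x := x) (y := y) h
  have hn := hex z z' hz hz'
  by_cases h1 : cl x z ∈ clset B
  · have h2 : cl z' y ∉ clset B := fun h2 => hn ⟨h1, h2⟩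
    have : wprod (wt (clset B) p) (arcs x l y) = wprod (wt (clset B) p) ((arcs x l y).dropLast) * p := by
      conv_lhs => rw [ez']
      rw [wprod_append, wprod_cons, wprod_nil, mul_one]
      congr 1
      simp [wt, h2]
    rw [this]
    have h3 : wprod (wt (clset B) p) ((arcs x l y).dropLast) ≤ wprod (Wm (Nm B) p) ((arcs x l y).dropLast) :=
      wprod_mono (wt_nonneg _ hp) (wt_le B hp) _
    have h4 := wprod_nonneg hW0 ((arcs x l y).tail)
    nlinarith [mul_le_mul_of_nonneg_right h3 hp, mul_nonneg hp h4]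
  · have : wprod (wt (clset B) p) (arcs x l y) = p * wprod (wt (clset B) p) ((arcs x l y).tail) := by
      conv_lhs => rw [ez]
      rw [wprod_cons]
      congr 1
      simp [wt, h1]
    rw [this]
    have h3 : wprod (wt (clset B) p) ((arcs x l y).tail) ≤ wprod (Wm (Nm B) p) ((arcs x l y).tail) :=
      wprod_mono (wt_nonneg _ hp) (wt_le B hp) _
    have h4 := wprod_nonneg hW0 ((arcs x l y).dropLast)
    nlinarith [mul_le_mul_of_nonneg_left h3 hp, mul_nonneg h4 hp]

/-- majorant for the first segment -/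
def U1 (B : List (Lit n × Lit n)) (p : ℝ) (sp : Finset (Lit n)) (c : Lit n) (x y : Lit n) (l : List (Lit n)) : ℝ :=
  if c ∈ sp then wprod (Wm (Nm B) p) (arcs x l y)
  else p * wprod (Wm (Nm B) p) ((arcs x l y).tail) + wprod (Wm (Nm B) p) ((arcs x l y).dropLast) * p

lemma U1_nonneg (B : List (Lit n × Lit n)) {p : ℝ} (hp : 0 ≤ p) (sp : Finset (Lit n)) (c : Lit n) (x y : Lit n)
    (l : List (Lit n)) : 0 ≤ U1 B p sp c x y l := by
  have hW0 := Wm_nonneg (N := Nm B) (Nm_nonneg B) hp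
  unfold U1
  split_ifs
  · exact wprod_nonneg hW0 _
  · exact add_nonneg (mul_nonneg hp (wprod_nonneg hW0 _)) (mul_nonneg (wprod_nonneg hW0 _) hp)

section
variable {a0 b0 : Lit n} {m1 m2 m3 : List (Lit n)}

lemma main_term (hw0 : ((word a0 b0 m1 m2 m3).map Prod.fst).Nodup)
    {p : ℝ} (hp : 0 ≤ p) {a b : Lit n} {l1 l2 l3 : List (Lit n)}
    (hw : ((word a b l1 l2 l3).map Prod.fst).Nodup) (h1 : l1 ≠ []) (h3 : l3 ≠ []) :
    p ^ (clset (barcs a b l1 l2 l3) \ clset (barcs a0 b0 m1 m2 m3)).card ≤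
      U1 (barcs a0 b0 m1 m2 m3) p {a0, ng b0} a (ng a) a l1 *
      wprod (Wm (Nm (barcs a0 b0 m1 m2 m3)) p) (arcs a l2 b) *
      U1 (barcs a0 b0 m1 m2 m3) p {ng a0, b0} b b (ng b) l3 := by
  set B := barcs a0 b0 m1 m2 m3 with hB
  have hW0 := Wm_nonneg (N := Nm B) (Nm_nonneg B) hp
  rw [← wprod_wt _ p _ (nodup_cls hw h1 h3), barcs_eq, wprod_append, wprod_append, ← mul_assoc]
  have g1 : wprod (wt (clset B) p) (arcs (ng a) l1 a) ≤ U1 B p {a0, ng b0} a (ng a) a l1 := by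
    unfold U1
    split_ifs with hc
    · exact wprod_mono (wt_nonneg _ hp) (wt_le B hp) _
    · refine wprod_extreme hp h1 ?_
      rintro z z' hz hz' ⟨q1, q2⟩
      simp only [mem_insert, mem_singleton, not_or] at hc
      have e := clause_unique hw0 (z := a) hc.1 hc.2 q1 q2 (by simp [cl]) (by simp [cl])
      have m1' : (ng a, z) ∈ barcs a b l1 l2 l3 := by rw [barcs_eq]; simp [hz]
      have m2' : (z', a) ∈ barcs a b l1 l2 l3 := by rw [barcs_eq]; simp [hz']
      obtain ⟨e1, e2⟩ := cl_inj hw h1 h3 m1' m2' e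
      rw [e2] at m1'
      exact barcs_ne hw h1 h3 _ _ m1' (by simp)
  have g3 : wprod (wt (clset B) p) (arcs b l3 (ng b)) ≤ U1 B p {ng a0, b0} b b (ng b) l3 := by
    unfold U1
    split_ifs with hc
    · exact wprod_mono (wt_nonneg _ hp) (wt_le B hp) _
    · refine wprod_extreme hp h3 ?_
      rintro z z' hz hz' ⟨q1, q2⟩
      simp only [mem_insert, mem_singleton, not_or] at hc
      have hc1 : ng b ≠ a0 := fun h => hc.1 (by rw [← h, ng_ng])
      have hc2 : ng b ≠ ng b0 := fun h => hc.2 (ng_inj.1 h)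
      have e := clause_unique hw0 (z := ng b) hc1 hc2 q1 q2 (by simp [cl]) (by simp [cl])
      have m1' : (b, z) ∈ barcs a b l1 l2 l3 := by rw [barcs_eq]; simp [hz]
      have m2' : (z', ng b) ∈ barcs a b l1 l2 l3 := by rw [barcs_eq]; simp [hz']
      obtain ⟨e1, e2⟩ := cl_inj hw h1 h3 m1' m2' e
      rw [e2] at m1'
      exact barcs_ne hw h1 h3 _ _ m1' (by simp)
  have g2 : wprod (wt (clset B) p) (arcs a l2 b) ≤ wprod (Wm (Nm B) p) (arcs a l2 b) :=
    wprod_mono (wt_nonneg _ hp) (wt_le B hp) _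
  have n1 := wprod_nonneg (wt_nonneg (clset B) hp) (arcs (ng a) l1 a)
  have n2 := wprod_nonneg (wt_nonneg (clset B) hp) (arcs a l2 b)
  have n3 := wprod_nonneg (wt_nonneg (clset B) hp) (arcs b l3 (ng b))
  exact mul_le_mul (mul_le_mul g1 g2 n2 (n1.trans g1)) g3 n3
    (mul_nonneg (n1.trans g1) (wprod_nonneg hW0 _))

end

/-- sum of the majorant over interior vertices -/
lemma sum_U1 (B : List (Lit n × Lit n)) (p : ℝ) (sp : Finset (Lit n)) (c x y : Lit n) (k : ℕ) :
    ∑ f : Fin (k + 1) → Lit n, U1 B p sp c x y (List.ofFn f) =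
      if c ∈ sp then ((Wm (Nm B) p) ^ (k + 2)) x y
      else p * col ((Wm (Nm B) p) ^ (k + 1)) y + row ((Wm (Nm B) p) ^ (k + 1)) x * p := by
  unfold U1
  split_ifs with h
  · exact sum_paths (Wm (Nm B) p) (k + 1) x y
  · rw [Finset.sum_add_distrib, sum_paths_first, sum_paths_last]

/-- total mass of the majorant -/
lemma sum_U1_le {a0 b0 : Lit n} {m1 m2 m3 : List (Lit n)} {L : ℕ} {p : ℝ} (hL : 2 ≤ L)
    (h : Hyp (Nm (barcs a0 b0 m1 m2 m3)) (Vs (word a0 b0 m1 m2 m3)) (2 * L))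
    (hn : Num (Lit n) (Vs (word a0 b0 m1 m2 m3)) L p) (sp : Finset (Lit n)) (c x y : Lit n)
    (hxy : (x = ng c ∧ y = c) ∨ (x = c ∧ y = ng c)) :
    ∑ κ : Fin L, ∑ f : Fin (L - 1 + κ) → Lit n, U1 (barcs a0 b0 m1 m2 m3) p sp c x y (List.ofFn f) ≤
      maj (Vs (word a0 b0 m1 m2 m3)) sp L p c := by
  set B := barcs a0 b0 m1 m2 m3 with hB
  set V := Vs (word a0 b0 m1 m2 m3) with hV
  have hp := hn.hp
  have hK := one_le_KK
  have hL1 : (1 : ℝ) ≤ L := by exact_mod_cast hn.hL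
  obtain ⟨j, rfl⟩ : ∃ j, L = j + 2 := ⟨L - 2, by omega⟩
  have e : ∀ κ : Fin (j + 2), ∑ f : Fin (j + 2 - 1 + κ) → Lit n, U1 B p sp c x y (List.ofFn f) =
      if c ∈ sp then ((Wm (Nm B) p) ^ (j + κ + 2)) x y
      else p * col ((Wm (Nm B) p) ^ (j + κ + 1)) y + row ((Wm (Nm B) p) ^ (j + κ + 1)) x * p := by
    intro κ
    have : j + 2 - 1 + (κ : ℕ) = (j + κ) + 1 := by omega
    rw [← sum_U1 B p sp c x y (j + κ)]
    rw [this]
  simp only [e]
  unfold maj
  by_cases hc : c ∈ sp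
  · simp only [hc, if_true]
    have h1 : ∑ κ : Fin (j + 2), ((Wm (Nm B) p) ^ (j + (κ : ℕ) + 2)) x y ≤ Gr (Nm B) p (j + 2) x y := by
      unfold Gr
      have : ∑ κ : Fin (j + 2), ((Wm (Nm B) p) ^ (j + (κ : ℕ) + 2)) x y =
          ∑ l ∈ (Finset.range (j + 2)).image (fun κ => j + κ + 2), ((Wm (Nm B) p) ^ l) x y := by
        rw [Finset.sum_image (by intro a _ b _ h; simpa using h)]
        rw [Finset.sum_range fun κ => ((Wm (Nm B) p) ^ (j + κ + 2)) x y]
      rw [this]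
      refine Finset.sum_le_sum_of_subset_of_nonneg ?_ ?_
      · intro l hl
        simp only [Finset.mem_image, Finset.mem_range] at hl ⊢
        obtain ⟨κ, h1, rfl⟩ := hl
        omega
      · intro l _ _
        exact pow_nonneg' (Wm_nonneg h.nonneg hp) l x y
    have h2 := Gr_le h hn x y
    have h3 : (0 : ℝ) ≤ 12 * KK * p * ((j + 2 : ℕ) : ℝ) * (if c ∈ V then ((j + 2 : ℕ) : ℝ) else 1) := by
      have : (0 : ℝ) ≤ (if c ∈ V then ((j + 2 : ℕ) : ℝ) else 1) := by split_ifs <;> positivity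
      have : 0 ≤ KK := by linarith
      positivity
    linarith
  · simp only [hc, if_false, add_zero]
    have hcx : (if c ∈ V then ((j + 2 : ℕ) : ℝ) else 1) = (if x ∈ V then ((j + 2 : ℕ) : ℝ) else 1) := by
      rcases hxy with ⟨rfl, rfl⟩ | ⟨rfl, rfl⟩
      · simp only [hV, ng_mem_Vs]
      · rfl
    have hcy : (if c ∈ V then ((j + 2 : ℕ) : ℝ) else 1) = (if y ∈ V then ((j + 2 : ℕ) : ℝ) else 1) := by
      rcases hxy with ⟨rfl, rfl⟩ | ⟨rfl, rfl⟩
      · rfl
      · simp only [hV, ng_mem_Vs]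
    set H : ℝ := (if c ∈ V then ((j + 2 : ℕ) : ℝ) else 1) with hH
    have hr : ∀ κ : Fin (j + 2), row ((Wm (Nm B) p) ^ (j + (κ : ℕ) + 1)) x ≤ 6 * KK * H := by
      intro κ
      rw [hcx]
      split_ifs with hx
      · exact row_le_all h hn (by omega) x
      · have := row_le_out h hn (k := j + (κ : ℕ) + 1) (by omega) hx
        linarith
    have hcc : ∀ κ : Fin (j + 2), col ((Wm (Nm B) p) ^ (j + (κ : ℕ) + 1)) y ≤ 6 * KK * H := by
      intro κ
      rw [hcy]
      split_ifs with hy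
      · exact col_le_all h hn (by omega) y
      · have := col_le_out h hn (k := j + (κ : ℕ) + 1) (by omega) hy
        linarith
    calc ∑ κ : Fin (j + 2), (p * col ((Wm (Nm B) p) ^ (j + (κ : ℕ) + 1)) y +
          row ((Wm (Nm B) p) ^ (j + (κ : ℕ) + 1)) x * p)
        ≤ ∑ κ : Fin (j + 2), (p * (6 * KK * H) + (6 * KK * H) * p) := by
          refine Finset.sum_le_sum fun κ _ => ?_
          exact add_le_add (mul_le_mul_of_nonneg_left (hcc κ) hp) (mul_le_mul_of_nonneg_right (hr κ) hp)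
      _ = 12 * KK * p * ((j + 2 : ℕ) : ℝ) * H := by
          rw [Finset.sum_const, Finset.card_univ, Fintype.card_fin, nsmul_eq_mul]
          ring

end

end Run7.h999.USat
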