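import Mathlib
import Pool.Agent.Run7.h999.USat.Second

/-! Second moment of the number of unsatisfiable structures. -/

set_option linter.all false

open Finset
open scoped BigOperators Classical

namespace Run7.h999.USat

noncomputable section

variable {n : ℕ}

/-- index set of all structures -/
abbrev Idx (L n : ℕ) : Type :=
  Σ κ : Fin L × Fin L × Fin L, Tup n (L - 1 + κ.1) (L - 1 + κ.2.1) (L - 1 + κ.2.2)

/-- legal indices -/
def GoodI {L : ℕ} (I : Idx L n) : Prop := Good I.2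

/-- clause set of an index -/
def TI {L : ℕ} (I : Idx L n) : Finset (Finset (Fin n × Bool)) := clset (tb I.2)

lemma rearrange {A : Type} [Fintype A] {L : ℕ} (P : Fin L → A → ℝ) (Q : Fin L → A → A → ℝ) (R : Fin L → A → ℝ) :
    ∑ κ : Fin L × Fin L × Fin L, ∑ a, ∑ b, P κ.1 a * Q κ.2.1 a b * R κ.2.2 b =
      ∑ a, ∑ b, (∑ k, P k a) * (∑ k, Q k a b) * (∑ k, R k b) := by
  rw [Finset.sum_comm]
  refine Finset.sum_congr rfl fun a _ => ?_
  rw [Finset.sum_comm]
  refine Finset.sum_congr rfl fun b _ => ?_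
  rw [Fintype.sum_prod_type]
  simp only [Fintype.sum_prod_type]
  rw [Finset.sum_mul_sum, Finset.sum_mul]
  refine Finset.sum_congr rfl fun k _ => ?_
  rw [Finset.sum_mul]
  refine Finset.sum_congr rfl fun k2 _ => ?_
  rw [Finset.mul_sum]

lemma sum_tup {k1 k2 k3 : ℕ} (F : Lit n → (Fin k1 → Lit n) → ℝ) (G : Lit n → Lit n → (Fin k2 → Lit n) → ℝ)
    (H : Lit n → (Fin k3 → Lit n) → ℝ) :
    ∑ t : Tup n k1 k2 k3, F t.1 t.2.2.1 * G t.1 t.2.1 t.2.2.2.1 * H t.2.1 t.2.2.2.2 =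
      ∑ a, ∑ b, (∑ f, F a f) * (∑ f, G a b f) * (∑ f, H b f) := by
  rw [Fintype.sum_prod_type]
  refine Finset.sum_congr rfl fun a _ => ?_
  rw [Fintype.sum_prod_type]
  refine Finset.sum_congr rfl fun b _ => ?_
  rw [Fintype.sum_prod_type]
  simp only [Fintype.sum_prod_type]
  rw [Finset.sum_mul_sum, Finset.sum_mul]
  refine Finset.sum_congr rfl fun k _ => ?_
  rw [Finset.sum_mul]
  refine Finset.sum_congr rfl fun k2 _ => ?_
  rw [Finset.mul_sum]

theorem cond_first {a0 b0 : Lit n} {m1 m2 m3 : List (Lit n)} {L : ℕ} {p : ℝ} (hL : 2 ≤ L)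
    (hw0 : ((word a0 b0 m1 m2 m3).map Prod.fst).Nodup)
    (h : Hyp (Nm (barcs a0 b0 m1 m2 m3)) (Vs (word a0 b0 m1 m2 m3)) (2 * L))
    (hn : Num (Lit n) (Vs (word a0 b0 m1 m2 m3)) L p) :
    ∑ I : Idx L n, (if GoodI I then p ^ (TI I \ clset (barcs a0 b0 m1 m2 m3)).card else 0) ≤
      1000000 * KK ^ 3 := by
  set B := barcs a0 b0 m1 m2 m3 with hB
  have hp := hn.hp
  have hW0 := Wm_nonneg (N := Nm B) (Nm_nonneg B) hp
  rw [Fintype.sum_sigma]
  have step1 : ∀ κ : Fin L × Fin L × Fin L,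
      ∑ t : Tup n (L - 1 + κ.1) (L - 1 + κ.2.1) (L - 1 + κ.2.2),
        (if GoodI (⟨κ, t⟩ : Idx L n) then p ^ (TI (⟨κ, t⟩ : Idx L n) \ clset B).card else 0) ≤
      ∑ a, ∑ b, (∑ f : Fin (L - 1 + κ.1) → Lit n, U1 B p {a0, ng b0} a (ng a) a (List.ofFn f)) *
        (((Wm (Nm B) p) ^ (L + (κ.2.1 : ℕ))) a b) *
        (∑ f : Fin (L - 1 + κ.2.2) → Lit n, U1 B p {ng a0, b0} b b (ng b) (List.ofFn f)) := by
    intro κ
    have e2 : ∀ a b, ((Wm (Nm B) p) ^ (L + (κ.2.1 : ℕ))) a b =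
        ∑ f : Fin (L - 1 + κ.2.1) → Lit n, wprod (Wm (Nm B) p) (arcs a (List.ofFn f) b) := by
      intro a b
      have e3 : L - 1 + (κ.2.1 : ℕ) + 1 = L + (κ.2.1 : ℕ) := by omega
      rw [sum_paths, e3]
    simp only [e2]
    rw [← sum_tup (F := fun a f => U1 B p {a0, ng b0} a (ng a) a (List.ofFn f))
      (G := fun a b f => wprod (Wm (Nm B) p) (arcs a (List.ofFn f) b))
      (H := fun b f => U1 B p {ng a0, b0} b b (ng b) (List.ofFn f))]
    refine Finset.sum_le_sum fun t _ => ?_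
    split_ifs with hg
    · have hne1 : List.ofFn t.2.2.1 ≠ [] := by
        intro hh
        have := congrArg List.length hh
        simp only [List.length_ofFn, List.length_nil] at this
        omega
      have hne3 : List.ofFn t.2.2.2.2 ≠ [] := by
        intro hh
        have := congrArg List.length hh
        simp only [List.length_ofFn, List.length_nil] at this
        omega
      exact main_term hw0 hp hg hne1 hne3
    · exact mul_nonneg (mul_nonneg (U1_nonneg B hp _ _ _ _ _) (wprod_nonneg hW0 _)) (U1_nonneg B hp _ _ _ _ _)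
  refine (Finset.sum_le_sum fun κ _ => step1 κ).trans ?_
  rw [rearrange (P := fun κ a => ∑ f : Fin (L - 1 + κ) → Lit n, U1 B p {a0, ng b0} a (ng a) a (List.ofFn f))
    (Q := fun κ a b => ((Wm (Nm B) p) ^ (L + (κ : ℕ))) a b)
    (R := fun κ b => ∑ f : Fin (L - 1 + κ) → Lit n, U1 B p {ng a0, b0} b b (ng b) (List.ofFn f))]
  set u : Lit n → ℝ := fun a => ∑ κ : Fin L, ∑ f : Fin (L - 1 + κ) → Lit n,
    U1 B p {a0, ng b0} a (ng a) a (List.ofFn f) with hu
  set v : Lit n → ℝ := fun b => ∑ κ : Fin L, ∑ f : Fin (L - 1 + κ) → Lit n,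
    U1 B p {ng a0, b0} b b (ng b) (List.ofFn f) with hv
  have hu0 : ∀ a, 0 ≤ u a := fun a =>
    Finset.sum_nonneg fun κ _ => Finset.sum_nonneg fun f _ => U1_nonneg B hp _ _ _ _ _
  have hv0 : ∀ a, 0 ≤ v a := fun a =>
    Finset.sum_nonneg fun κ _ => Finset.sum_nonneg fun f _ => U1_nonneg B hp _ _ _ _ _
  have hum : ∀ a, u a ≤ maj (Vs (word a0 b0 m1 m2 m3)) {a0, ng b0} L p a := fun a =>
    sum_U1_le hL h hn _ a (ng a) a (Or.inl ⟨rfl, rfl⟩)
  have hvm : ∀ b, v b ≤ maj (Vs (word a0 b0 m1 m2 m3)) {ng a0, b0} L p b := fun b =>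
    sum_U1_le hL h hn _ b b (ng b) (Or.inr ⟨rfl, rfl⟩)
  have hGr : ∀ a b, ∑ κ : Fin L, ((Wm (Nm B) p) ^ (L + (κ : ℕ))) a b ≤ Gr (Nm B) p L a b := by
    intro a b
    unfold Gr
    have : ∑ κ : Fin L, ((Wm (Nm B) p) ^ (L + (κ : ℕ))) a b =
        ∑ l ∈ (Finset.range L).image (fun κ => L + κ), ((Wm (Nm B) p) ^ l) a b := by
      rw [Finset.sum_image (by intro a _ b _ h; simpa using h)]
      rw [Finset.sum_range fun κ => ((Wm (Nm B) p) ^ (L + κ)) a b]
    rw [this]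
    refine Finset.sum_le_sum_of_subset_of_nonneg ?_ ?_
    · intro l hl
      simp only [Finset.mem_image, Finset.mem_range] at hl ⊢
      obtain ⟨κ, h1, rfl⟩ := hl
      omega
    · intro l _ _
      exact pow_nonneg' hW0 l a b
  refine le_trans ?_ (final_sum h hn {a0, ng b0} {ng a0, b0} (Finset.card_le_two) (Finset.card_le_two)
    hu0 hv0 hum hvm)
  refine Finset.sum_le_sum fun a _ => Finset.sum_le_sum fun b _ => ?_
  exact mul_le_mul_of_nonneg_right (mul_le_mul_of_nonneg_left (hGr a b) (hu0 a)) (hv0 b)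

end

end Run7.h999.USat
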