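import Mathlib
import Pool.Agent.Run7.h999.USat.Second2

/-! Second moment assembly: the formula is unsatisfiable with probability bounded below. -/

set_option linter.all false

open Finset
open scoped BigOperators Classical

namespace Run7.h999.USat

noncomputable section

/-- number of elements with a property -/
def cardP {Ω : Type} [Fintype Ω] (S : Ω → Prop) : ℝ := ((Finset.univ.filter S).card : ℝ)

lemma cardP_eq {Ω : Type} [Fintype Ω] (S : Ω → Prop) : cardP S = ∑ e, (if S e then (1 : ℝ) else 0) := by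
  unfold cardP
  rw [Finset.card_filter]
  push_cast
  rfl

/-- general second moment inequality -/
lemma second_moment {Ω : Type} [Fintype Ω] (X : Ω → ℝ) :
    (∑ e, X e) ^ 2 ≤ cardP (fun e => X e ≠ 0) * ∑ e, X e ^ 2 := by
  have h1 : ∑ e, X e = ∑ e ∈ Finset.univ.filter (fun e => X e ≠ 0), X e := by
    rw [Finset.sum_filter_ne_zero]
  have h2 : cardP (fun e => X e ≠ 0) = ((Finset.univ.filter (fun e => X e ≠ 0)).card : ℝ) := by
    unfold cardP
    congr!
  rw [h1, h2]
  refine (sq_sum_le_card_mul_sum_sq).trans ?_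
  refine mul_le_mul_of_nonneg_left ?_ (by positivity)
  exact Finset.sum_le_sum_of_subset_of_nonneg (Finset.filter_subset _ _) (fun _ _ _ => by positivity)

section
variable {Ω ι γ : Type} [Fintype Ω] [Fintype ι] [DecidableEq γ] (G : ι → Prop) (T : ι → Finset γ) (F : Ω → Finset γ)

/-- number of good structures in a formula -/
def cntX (e : Ω) : ℝ := ∑ i, (if G i ∧ T i ⊆ F e then (1 : ℝ) else 0)

lemma sum_cntX : ∑ e, cntX G T F e =
    ∑ i, (if G i then cardP (fun e : Ω => T i ⊆ F e) else 0) := by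
  unfold cntX
  rw [Finset.sum_comm]
  refine Finset.sum_congr rfl fun i _ => ?_
  by_cases h : G i
  · simp only [h, true_and, if_true]
    rw [cardP_eq]
    refine Finset.sum_congr rfl fun e _ => ?_
    by_cases h1 : T i ⊆ F e
    · simp [h1]
    · simp [h1]
  · simp [h]

lemma sum_cntX_sq : ∑ e, cntX G T F e ^ 2 =
    ∑ i, ∑ j, (if G i then (if G j then cardP (fun e : Ω => T i ∪ T j ⊆ F e) else 0) else 0) := by
  unfold cntX
  simp only [sq, Finset.sum_mul_sum]
  rw [Finset.sum_comm]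
  refine Finset.sum_congr rfl fun i _ => ?_
  rw [Finset.sum_comm]
  refine Finset.sum_congr rfl fun j _ => ?_
  by_cases h : G i
  · by_cases h' : G j
    · simp only [h, h', true_and, if_true]
      rw [cardP_eq]
      refine Finset.sum_congr rfl fun e _ => ?_
      by_cases h1 : T i ⊆ F e
      · by_cases h2 : T j ⊆ F e
        · simp [h1, h2, Finset.union_subset_iff]
        · simp [h1, h2, Finset.union_subset_iff]
      · simp [h1, Finset.union_subset_iff]
    · simp [h, h']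
  · simp [h]

lemma exists_of_cntX {e : Ω} (h : cntX G T F e ≠ 0) : ∃ i, G i ∧ T i ⊆ F e := by
  by_contra hne
  push Not at hne
  apply h
  unfold cntX
  refine Finset.sum_eq_zero fun i _ => ?_
  rw [if_neg]
  rintro ⟨h1, h2⟩
  exact hne i h1 h2

end

/-! ### counting good tuples -/

section
variable {n : ℕ}

/-- positions -/
abbrev Pos (k1 k2 k3 : ℕ) : Type := Bool ⊕ (Fin k1 ⊕ (Fin k2 ⊕ Fin k3))

/-- tuple from a function on positions -/
def ofPos {k1 k2 k3 : ℕ} (g : Pos k1 k2 k3 → Lit n) : Tup n k1 k2 k3 :=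
  (g (Sum.inl true), g (Sum.inl false), fun i => g (Sum.inr (Sum.inl i)),
    fun i => g (Sum.inr (Sum.inr (Sum.inl i))), fun i => g (Sum.inr (Sum.inr (Sum.inr i))))

lemma ofPos_inj {k1 k2 k3 : ℕ} {g g' : Pos k1 k2 k3 → Lit n} (h : ofPos g = ofPos g') : g = g' := by
  unfold ofPos at h
  simp only [Prod.mk.injEq] at h
  obtain ⟨h1, h2, h3, h4, h5⟩ := h
  funext i
  rcases i with b | i | i | i
  · cases b
    · exact h2
    · exact h1
  · exact congrFun h3 i
  · exact congrFun h4 i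
  · exact congrFun h5 i

/-- list of positions -/
def posL (k1 k2 k3 : ℕ) : List (Pos k1 k2 k3) :=
  List.ofFn (fun i : Fin k1 => (Sum.inr (Sum.inl i) : Pos k1 k2 k3)) ++ (Sum.inl true : Pos k1 k2 k3) ::
    (List.ofFn (fun i : Fin k2 => (Sum.inr (Sum.inr (Sum.inl i)) : Pos k1 k2 k3)) ++
      (Sum.inl false : Pos k1 k2 k3) :: List.ofFn (fun i : Fin k3 => (Sum.inr (Sum.inr (Sum.inr i)) : Pos k1 k2 k3)))

lemma nodup_posL (k1 k2 k3 : ℕ) : (posL k1 k2 k3).Nodup := by
  unfold posL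
  rw [List.nodup_append, List.nodup_cons, List.nodup_append, List.nodup_cons]
  refine ⟨?_, ⟨?_, ?_, ⟨?_, ?_⟩, ?_⟩, ?_⟩
  · rw [List.nodup_ofFn]
    intro a b h
    simpa using h
  · simp [List.mem_ofFn]
  · rw [List.nodup_ofFn]
    intro a b h
    simpa using h
  · simp [List.mem_ofFn]
  · rw [List.nodup_ofFn]
    intro a b h
    simpa using h
  · intro a ha b hb
    simp only [List.mem_ofFn, List.mem_cons] at ha hb
    obtain ⟨i, rfl⟩ := ha
    rcases hb with rfl | ⟨j, rfl⟩ <;> simp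
  · intro a ha b hb
    simp only [List.mem_ofFn, List.mem_cons, List.mem_append] at ha hb
    obtain ⟨i, rfl⟩ := ha
    rcases hb with rfl | ⟨j, rfl⟩ | rfl | ⟨j, rfl⟩ <;> simp

lemma tw_ofPos {k1 k2 k3 : ℕ} (g : Pos k1 k2 k3 → Lit n) : tw (ofPos g) = (posL k1 k2 k3).map g := by
  unfold tw ofPos posL word
  simp only [List.map_append, List.map_cons, List.map_ofFn]
  rfl

lemma good_ofPos {k1 k2 k3 : ℕ} (g : Pos k1 k2 k3 → Lit n) (hg : Function.Injective fun i => (g i).1) :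
    Good (ofPos g) := by
  unfold Good
  rw [tw_ofPos, List.map_map]
  exact (nodup_posL k1 k2 k3).map hg

lemma card_good (k1 k2 k3 : ℕ) :
    n.descFactorial (k1 + k2 + k3 + 2) * 2 ^ (k1 + k2 + k3 + 2) ≤
      (Finset.univ.filter fun t : Tup n k1 k2 k3 => Good t).card := by
  have hc : Fintype.card (Pos k1 k2 k3) = k1 + k2 + k3 + 2 := by
    simp only [Fintype.card_sum, Fintype.card_bool, Fintype.card_fin]
    ring
  have h1 : Fintype.card ((Pos k1 k2 k3 ↪ Fin n) × (Pos k1 k2 k3 → Bool)) ≤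
      Fintype.card {t : Tup n k1 k2 k3 // Good t} := by
    refine Fintype.card_le_of_injective
      (fun q => ⟨ofPos fun i => (q.1 i, q.2 i), good_ofPos _ (fun i j h => q.1.injective h)⟩) ?_
    intro q q' h
    have h2 : (fun i => (q.1 i, q.2 i)) = (fun i => (q'.1 i, q'.2 i)) := ofPos_inj (Subtype.ext_iff.1 h)
    refine Prod.ext ?_ ?_
    · ext i
      have := congrFun h2 i
      simp only [Prod.mk.injEq] at this
      rw [this.1]
    · funext i
      have := congrFun h2 i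
      simp only [Prod.mk.injEq] at this
      exact this.2
  rw [Fintype.card_prod, Fintype.card_embedding_eq, Fintype.card_fun, Fintype.card_bool, hc, Fintype.card_fin,
    Fintype.card_subtype] at h1
  exact h1

lemma card_good_real {k1 k2 k3 L : ℕ} (hk : k1 + k2 + k3 + 2 ≤ 6 * L) (hn : 6 * L ≤ n) :
    (2 * ((n : ℝ) - 6 * L)) ^ (k1 + k2 + k3 + 2) ≤
      ((Finset.univ.filter fun t : Tup n k1 k2 k3 => Good t).card : ℝ) := by
  have h1 := card_good (n := n) k1 k2 k3
  have h2 : (n + 1 - (k1 + k2 + k3 + 2)) ^ (k1 + k2 + k3 + 2) ≤ n.descFactorial (k1 + k2 + k3 + 2) :=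
    Nat.pow_sub_le_descFactorial n _
  have h3 : (n - 6 * L) ^ (k1 + k2 + k3 + 2) ≤ (n + 1 - (k1 + k2 + k3 + 2)) ^ (k1 + k2 + k3 + 2) :=
    Nat.pow_le_pow_left (by omega) _
  have h4 : (n - 6 * L) ^ (k1 + k2 + k3 + 2) * 2 ^ (k1 + k2 + k3 + 2) ≤
      (Finset.univ.filter fun t : Tup n k1 k2 k3 => Good t).card :=
    (Nat.mul_le_mul_right _ (h3.trans h2)).trans h1
  have h5 : (((n - 6 * L) ^ (k1 + k2 + k3 + 2) * 2 ^ (k1 + k2 + k3 + 2) : ℕ) : ℝ) ≤
      ((Finset.univ.filter fun t : Tup n k1 k2 k3 => Good t).card : ℝ) := by exact_mod_cast h4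
  refine le_trans (le_of_eq ?_) h5
  push_cast
  rw [Nat.cast_sub hn, mul_pow]
  push_cast
  ring

end

/-! ### numerical parameters -/

/-- the number of clauses used -/
def mm (L : ℕ) : ℕ := L ^ 3 - L ^ 2

/-- the density used -/
def pp (L : ℕ) : ℝ := (mm L : ℝ) / (Nat.card (Cl (L ^ 3)) : ℝ)

lemma mm_cast (L : ℕ) (hL : 1 ≤ L) : (mm L : ℝ) = (L : ℝ) ^ 3 - (L : ℝ) ^ 2 := by
  unfold mm
  rw [Nat.cast_sub (Nat.pow_le_pow_right hL (by norm_num))]
  push_cast
  ring

lemma card_cast (L : ℕ) (hL : 1 ≤ L) : (Nat.card (Cl (L ^ 3)) : ℝ) = 2 * (L : ℝ) ^ 3 * ((L : ℝ) ^ 3 - 1) := by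
  rw [card_Cl]
  have : 1 ≤ L ^ 3 := Nat.one_le_pow _ _ hL
  push_cast [Nat.cast_sub this]
  ring

lemma mm_le (L : ℕ) (hL : 2 ≤ L) : mm L ≤ Nat.card (Cl (L ^ 3)) := by
  rw [card_Cl]
  unfold mm
  have h1 : 1 ≤ L ^ 3 - 1 := by
    have : 2 ^ 3 ≤ L ^ 3 := Nat.pow_le_pow_left hL 3
    omega
  calc L ^ 3 - L ^ 2 ≤ L ^ 3 := Nat.sub_le _ _
    _ ≤ 2 * L ^ 3 * 1 := by omega
    _ ≤ 2 * L ^ 3 * (L ^ 3 - 1) := Nat.mul_le_mul_left _ h1

lemma pp_nonneg (L : ℕ) : 0 ≤ pp L := by unfold pp; positivity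

lemma pp_le (L : ℕ) (hL : 2 ≤ L) : 2 * (L : ℝ) ^ 3 * pp L ≤ 1 := by
  unfold pp
  rw [mm_cast L (by omega), card_cast L (by omega)]
  have h2 : (2 : ℝ) ≤ L := by exact_mod_cast hL
  have h3 : (0 : ℝ) < (L : ℝ) ^ 3 := by positivity
  have h4 : (1 : ℝ) < (L : ℝ) ^ 3 := by nlinarith [sq_nonneg ((L : ℝ) - 2), sq_nonneg (L : ℝ)]
  have h5 : (0 : ℝ) < 2 * (L : ℝ) ^ 3 * ((L : ℝ) ^ 3 - 1) := by
    have : (0 : ℝ) < (L : ℝ) ^ 3 - 1 := by linarith
    positivity
  rw [mul_div_assoc', div_le_one h5]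
  have h6 : (L : ℝ) ^ 3 - (L : ℝ) ^ 2 ≤ (L : ℝ) ^ 3 - 1 := by nlinarith
  exact mul_le_mul_of_nonneg_left h6 (by positivity)

lemma num_pp {L : ℕ} (hL : 2 ≤ L) (V : Finset (Lit (L ^ 3))) (hV : V.card ≤ 12 * L) :
    Num (Lit (L ^ 3)) V L (pp L) where
  hL := by omega
  hp := pp_nonneg L
  hcard := by
    rw [Fintype.card_prod, Fintype.card_fin, Fintype.card_bool]
    push_cast
    ring
  hp1 := pp_le L hL
  hV := by exact_mod_cast hV

lemma card_TI {n L : ℕ} (hL : 2 ≤ L) {I : Idx L n} (h : GoodI I) :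
    (TI I).card = (L - 1 + I.1.1) + (L - 1 + I.1.2.1) + (L - 1 + I.1.2.2) + 3 := by
  have hne1 : List.ofFn I.2.2.2.1 ≠ [] := by
    intro hh
    have := congrArg List.length hh
    simp only [List.length_ofFn, List.length_nil] at this
    omega
  have hne3 : List.ofFn I.2.2.2.2.2 ≠ [] := by
    intro hh
    have := congrArg List.length hh
    simp only [List.length_ofFn, List.length_nil] at this
    omega
  have := card_clset h hne1 hne3
  simp only [List.length_ofFn] at this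
  exact this

lemma isCl_TI {n L : ℕ} (hL : 2 ≤ L) {I : Idx L n} (h : GoodI I) : ∀ c ∈ TI I, IsCl c := by
  have hne1 : List.ofFn I.2.2.2.1 ≠ [] := by
    intro hh
    have := congrArg List.length hh
    simp only [List.length_ofFn, List.length_nil] at this
    omega
  have hne3 : List.ofFn I.2.2.2.2.2 ≠ [] := by
    intro hh
    have := congrArg List.length hh
    simp only [List.length_ofFn, List.length_nil] at this
    omega
  exact isCl_clset h hne1 hne3

/-- number of orders -/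
def MM (L : ℕ) : ℝ := (Nat.card (Ord (Cl (L ^ 3))) : ℝ)

lemma MM_pos (L : ℕ) : 0 < MM L := card_ord_pos

lemma filt_eq {L : ℕ} (S : Ord (Cl (L ^ 3)) → Prop) :
    cardP S = MM L * Pr S := by
  unfold Pr MM cardP
  rw [mul_div_cancel₀ _ (ne_of_gt card_ord_pos)]

/-- first moment, upper bound with powers of `p` -/
lemma sum_pow_le {L : ℕ} (hL : 2 ≤ L) :
    ∑ I : Idx L (L ^ 3), (if GoodI I then (pp L) ^ (TI I).card else 0) ≤ 1 / 2 := by
  have hp := pp_nonneg L
  have h1 := pp_le L hL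
  rw [Fintype.sum_sigma]
  have step : ∀ κ : Fin L × Fin L × Fin L,
      ∑ t : Tup (L ^ 3) (L - 1 + κ.1) (L - 1 + κ.2.1) (L - 1 + κ.2.2),
        (if GoodI (⟨κ, t⟩ : Idx L (L ^ 3)) then (pp L) ^ (TI (⟨κ, t⟩ : Idx L (L ^ 3))).card else 0) ≤ pp L := by
    intro κ
    set s : ℕ := (L - 1 + κ.1) + (L - 1 + κ.2.1) + (L - 1 + κ.2.2) with hs
    calc _ ≤ ∑ t : Tup (L ^ 3) (L - 1 + κ.1) (L - 1 + κ.2.1) (L - 1 + κ.2.2), (pp L) ^ (s + 3) := by
            refine Finset.sum_le_sum fun t _ => ?_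
            split_ifs with hg
            · rw [card_TI hL hg]
            · positivity
      _ = (2 * (L : ℝ) ^ 3 * pp L) ^ (s + 2) * pp L := by
            rw [Finset.sum_const, nsmul_eq_mul, Finset.card_univ]
            simp only [Fintype.card_prod, Fintype.card_fin, Fintype.card_bool, Fintype.card_fun]
            push_cast
            rw [mul_pow, hs]
            ring
      _ ≤ 1 * pp L := by
            refine mul_le_mul_of_nonneg_right (pow_le_one₀ (by positivity) h1) hp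
      _ = pp L := one_mul _
  refine (Finset.sum_le_sum fun κ _ => step κ).trans ?_
  rw [Finset.sum_const, nsmul_eq_mul, Finset.card_univ]
  simp only [Fintype.card_prod, Fintype.card_fin]
  push_cast
  nlinarith

/-- second moment, upper bound -/
lemma second_le {L : ℕ} (hL : 2 ≤ L) :
    ∑ e : Ord (Cl (L ^ 3)), cntX (GoodI (n := L ^ 3) (L := L)) TI (fun e => frm e (mm L)) e ^ 2 ≤
      MM L * (1000000 * KK ^ 3 * (1 / 2)) := by
  rw [sum_cntX_sq]
  have hp := pp_nonneg L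
  have hM := MM_pos L
  have hK : 0 ≤ KK := by linarith [one_le_KK]
  have step : ∀ I : Idx L (L ^ 3),
      ∑ J : Idx L (L ^ 3), (if GoodI I then (if GoodI J then
        cardP (fun e : Ord (Cl (L ^ 3)) => TI I ∪ TI J ⊆ frm e (mm L)) else 0) else 0) ≤
      (MM L * (1000000 * KK ^ 3)) * (if GoodI I then (pp L) ^ (TI I).card else 0) := by
    intro I
    by_cases hI : GoodI I
    · simp only [hI, if_true]
      have h2 : ∀ J : Idx L (L ^ 3), (if GoodI J then
          cardP (fun e : Ord (Cl (L ^ 3)) => TI I ∪ TI J ⊆ frm e (mm L)) else 0) ≤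
          (MM L * (pp L) ^ (TI I).card) * (if GoodI J then (pp L) ^ (TI J \ TI I).card else 0) := by
        intro J
        by_cases hJ : GoodI J
        · simp only [hJ, if_true]
          rw [filt_eq, mul_assoc, ← pow_add]
          refine mul_le_mul_of_nonneg_left ?_ hM.le
          have h3 : (TI I).card + (TI J \ TI I).card = (TI I ∪ TI J).card := by
            rw [add_comm, Finset.card_sdiff_add_card, Finset.union_comm]
          rw [h3]
          refine Pr_le ?_ (mm_le L hL)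
          intro c hc
          rw [Finset.mem_union] at hc
          rcases hc with hc | hc
          · exact isCl_TI hL hI c hc
          · exact isCl_TI hL hJ c hc
        · simp [hJ]
      refine (Finset.sum_le_sum fun J _ => h2 J).trans ?_
      rw [← Finset.mul_sum]
      have hw : ((tw I.2).map Prod.fst).Nodup := hI
      have h4 : ∑ J : Idx L (L ^ 3), (if GoodI J then (pp L) ^ (TI J \ TI I).card else 0) ≤ 1000000 * KK ^ 3 := by
        refine cond_first hL hw ?_ ?_
        · refine hyp_Nm hw (by omega) ?_ ?_ ?_ <;> (rw [List.length_ofFn]; omega)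
        · refine num_pp hL _ ?_
          refine (card_Vs _).trans ?_
          unfold word
          simp only [List.length_append, List.length_cons, List.length_ofFn]
          have q1 := I.1.1.2
          have q2 := I.1.2.1.2
          have q3 := I.1.2.2.2
          omega
      calc MM L * (pp L) ^ (TI I).card * _ ≤ MM L * (pp L) ^ (TI I).card * (1000000 * KK ^ 3) :=
            mul_le_mul_of_nonneg_left h4 (by positivity)
        _ = MM L * (1000000 * KK ^ 3) * (pp L) ^ (TI I).card := by ring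
    · simp [hI]
  refine (Finset.sum_le_sum fun I _ => step I).trans ?_
  rw [← Finset.mul_sum]
  calc MM L * (1000000 * KK ^ 3) * _ ≤ MM L * (1000000 * KK ^ 3) * (1 / 2) :=
        mul_le_mul_of_nonneg_left (sum_pow_le hL) (by positivity)
    _ = _ := by ring

lemma exp_bound {L : ℕ} (hL : 13 ≤ L) : Real.exp (-24) ≤ (1 - 2 / (L : ℝ)) ^ (6 * L) := by
  have h13 : (13 : ℝ) ≤ L := by exact_mod_cast hL
  have h0 : (0 : ℝ) < L := by linarith
  have h1 : Real.exp (-(4 / (L : ℝ))) ≤ 1 - 2 / (L : ℝ) := by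
    set y : ℝ := 2 / (L : ℝ) with hy
    have hy0 : 0 < y := by positivity
    have hy1 : y ≤ 1 / 2 := by
      rw [hy, div_le_div_iff₀ h0 (by norm_num)]
      linarith
    have e : 4 / (L : ℝ) = 2 * y := by rw [hy]; ring
    rw [e, Real.exp_neg]
    have h2 : 1 + 2 * y ≤ Real.exp (2 * y) := by
      have := Real.add_one_le_exp (2 * y)
      linarith
    have h3 : (Real.exp (2 * y))⁻¹ ≤ (1 + 2 * y)⁻¹ := inv_anti₀ (by linarith) h2
    refine h3.trans ?_
    rw [inv_le_iff_one_le_mul₀ (by linarith)]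
    nlinarith
  calc Real.exp (-24) = (Real.exp (-(4 / (L : ℝ)))) ^ (6 * L) := by
        rw [← Real.exp_nat_mul]
        congr 1
        push_cast
        field_simp
        norm_num
    _ ≤ _ := pow_le_pow_left₀ (Real.exp_pos _).le h1 _

/-- the slightly smaller density -/
def qq (L : ℕ) : ℝ := ((mm L : ℝ) - ((6 * L : ℕ) : ℝ)) / (Nat.card (Cl (L ^ 3)) : ℝ)

lemma qq_ge {L : ℕ} (hL : 13 ≤ L) : 1 / (4 * (L : ℝ) ^ 3) ≤ qq L := by
  have h13 : (13 : ℝ) ≤ L := by exact_mod_cast hL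
  unfold qq
  rw [mm_cast L (by omega), card_cast L (by omega)]
  push_cast
  set x : ℝ := (L : ℝ) with hx
  have h3 : (1 : ℝ) < x ^ 3 := by nlinarith [sq_nonneg x, sq_nonneg (x - 1)]
  have h4 : 0 < x ^ 3 - 1 := by linarith
  have h5 : 0 < x := by linarith
  rw [div_le_div_iff₀ (by positivity) (by positivity)]
  have h6 : x ^ 3 - 1 ≤ 2 * (x ^ 3 - x ^ 2 - 6 * x) := by nlinarith [mul_nonneg h5.le (sub_nonneg.2 h13), mul_nonneg (mul_nonneg h5.le h5.le) (sub_nonneg.2 h13)]
  have h7 : 0 ≤ 2 * x ^ 3 := by positivity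
  nlinarith [mul_le_mul_of_nonneg_left h6 h7]

lemma qq_prod {L : ℕ} (hL : 13 ≤ L) :
    1 - 2 / (L : ℝ) ≤ 2 * (((L ^ 3 : ℕ) : ℝ) - 6 * L) * qq L := by
  have h13 : (13 : ℝ) ≤ L := by exact_mod_cast hL
  unfold qq
  rw [mm_cast L (by omega), card_cast L (by omega)]
  push_cast
  set x : ℝ := (L : ℝ) with hx
  have h3 : (1 : ℝ) < x ^ 3 := by nlinarith [sq_nonneg x, sq_nonneg (x - 1)]
  have h4 : 0 < x ^ 3 - 1 := by linarith
  have h5 : 0 < x := by linarith
  have e : (1 - 2 / x) = (x - 2) / x := by field_simp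
  rw [e, mul_div_assoc', div_le_div_iff₀ h5 (by positivity)]
  have h6 : 0 ≤ x ^ 4 * (x - 12) + 7 * x ^ 3 + 34 * x ^ 2 := by
    have : 0 ≤ x - 12 := by linarith
    positivity
  have h7 : 0 ≤ 2 * x * (x ^ 4 * (x - 12) + 7 * x ^ 3 + 34 * x ^ 2) := by positivity
  nlinarith

lemma alg_aux (A q M : ℝ) (s : ℕ) : A ^ s * (M * q ^ (s + 1)) = M * ((A * q) ^ s * q) := by
  rw [mul_pow]; ring

/-- first moment, lower bound -/
lemma first_ge {L : ℕ} (hL : 13 ≤ L) :
    MM L * (Real.exp (-24) / 4) ≤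
      ∑ e : Ord (Cl (L ^ 3)), cntX (GoodI (n := L ^ 3) (L := L)) TI (fun e => frm e (mm L)) e := by
  rw [sum_cntX]
  have h13 : (13 : ℝ) ≤ L := by exact_mod_cast hL
  have h0 : (0 : ℝ) < L := by linarith
  have hM := MM_pos L
  have hL2 : 2 ≤ L := by omega
  have hnat : 6 * L + L ^ 2 ≤ L ^ 3 := by nlinarith [Nat.mul_le_mul hL hL]
  have h6m : 6 * L ≤ mm L := by
    unfold mm
    omega
  have h6n : 6 * L ≤ L ^ 3 := by omega
  have hq0 : 0 ≤ qq L := le_trans (by positivity) (qq_ge hL)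
  have hb0 : 0 ≤ 1 - 2 / (L : ℝ) := by
    rw [sub_nonneg, div_le_one h0]
    linarith
  have hb1 : 1 - 2 / (L : ℝ) ≤ 1 := by
    have : 0 < 2 / (L : ℝ) := by positivity
    linarith
  have hex := exp_bound hL
  rw [Fintype.sum_sigma]
  have step : ∀ κ : Fin L × Fin L × Fin L,
      MM L * (Real.exp (-24) * (1 / (4 * (L : ℝ) ^ 3))) ≤
      ∑ t : Tup (L ^ 3) (L - 1 + κ.1) (L - 1 + κ.2.1) (L - 1 + κ.2.2),
        (if GoodI (⟨κ, t⟩ : Idx L (L ^ 3)) then
          cardP (fun e : Ord (Cl (L ^ 3)) => TI (⟨κ, t⟩ : Idx L (L ^ 3)) ⊆ frm e (mm L)) else 0) := by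
    intro κ
    have q1 := κ.1.2
    have q2 := κ.2.1.2
    have q3 := κ.2.2.2
    set s : ℕ := (L - 1 + κ.1) + (L - 1 + κ.2.1) + (L - 1 + κ.2.2) + 2 with hs
    have hs6 : s ≤ 6 * L := by omega
    have hcg := card_good_real (n := L ^ 3) (k1 := L - 1 + κ.1) (k2 := L - 1 + κ.2.1) (k3 := L - 1 + κ.2.2)
      (L := L) hs6 h6n
    have hlow : ∀ t : Tup (L ^ 3) (L - 1 + κ.1) (L - 1 + κ.2.1) (L - 1 + κ.2.2),
        (if Good t then MM L * (qq L) ^ (s + 1) else 0) ≤
        (if GoodI (⟨κ, t⟩ : Idx L (L ^ 3)) then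
          cardP (fun e : Ord (Cl (L ^ 3)) => TI (⟨κ, t⟩ : Idx L (L ^ 3)) ⊆ frm e (mm L)) else 0) := by
      intro t
      by_cases hg : Good t
      · have hg' : GoodI (⟨κ, t⟩ : Idx L (L ^ 3)) := hg
        rw [if_pos hg, if_pos hg', filt_eq]
        refine mul_le_mul_of_nonneg_left ?_ hM.le
        have hcard : (TI (⟨κ, t⟩ : Idx L (L ^ 3))).card = s + 1 := by
          rw [card_TI hL2 hg']
        rw [← hcard]
        exact le_Pr (isCl_TI hL2 hg') (mm_le L hL2) h6m (by omega)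
      · have hg' : ¬ GoodI (⟨κ, t⟩ : Idx L (L ^ 3)) := hg
        rw [if_neg hg, if_neg hg']
    refine le_trans ?_ (Finset.sum_le_sum fun t _ => hlow t)
    rw [← Finset.sum_filter, Finset.sum_const, nsmul_eq_mul]
    have e1 : (2 * (((L ^ 3 : ℕ) : ℝ) - 6 * L)) ^ s * (MM L * (qq L) ^ (s + 1)) ≤
        ((Finset.univ.filter fun t : Tup (L ^ 3) (L - 1 + κ.1) (L - 1 + κ.2.1) (L - 1 + κ.2.2) => Good t).card : ℝ) *
          (MM L * (qq L) ^ (s + 1)) := mul_le_mul_of_nonneg_right hcg (by positivity)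
    refine le_trans ?_ e1
    rw [alg_aux]
    refine mul_le_mul_of_nonneg_left ?_ hM.le
    refine mul_le_mul ?_ (qq_ge hL) (by positivity) ?_
    · calc Real.exp (-24) ≤ (1 - 2 / (L : ℝ)) ^ (6 * L) := hex
        _ ≤ (1 - 2 / (L : ℝ)) ^ s := pow_le_pow_of_le_one hb0 hb1 hs6
        _ ≤ _ := pow_le_pow_left₀ hb0 (qq_prod hL) _
    · exact pow_nonneg (hb0.trans (qq_prod hL)) _
  refine le_trans ?_ (Finset.sum_le_sum fun κ _ => step κ)
  rw [Finset.sum_const, nsmul_eq_mul, Finset.card_univ]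
  simp only [Fintype.card_prod, Fintype.card_fin]
  push_cast
  apply le_of_eq
  field_simp

/-- the constant -/
def c0 : ℝ := (Real.exp (-24) / 4) ^ 2 / (1000000 * KK ^ 3 * (1 / 2))

lemma c0_pos : 0 < c0 := by
  unfold c0
  have hK : 0 < KK := by linarith [one_le_KK]
  have := Real.exp_pos (-24)
  positivity

lemma Pr_mono {n : ℕ} {S S' : Ord (Cl n) → Prop} (h : ∀ e, S e → S' e) : Pr S ≤ Pr S' := by
  unfold Pr
  refine div_le_div_of_nonneg_right ?_ card_ord_pos.le
  have : (Finset.univ.filter S) ⊆ (Finset.univ.filter S') := by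
    intro e he
    simp only [mem_filter, mem_univ, true_and] at he ⊢
    exact h e he
  exact_mod_cast Finset.card_le_card this

/-- unsatisfiability of a set of clauses -/
def Unsat {n : ℕ} (T : Finset (Finset (Fin n × Bool))) : Prop :=
  ∀ g : Fin n → Bool, ¬ ∀ c ∈ T, ∃ l ∈ c, g l.1 = l.2

theorem unsat_prob {L : ℕ} (hL : 13 ≤ L) :
    c0 ≤ Pr (fun e : Ord (Cl (L ^ 3)) => Unsat (frm e (mm L))) := by
  have hM := MM_pos L
  have h1 := second_moment (cntX (GoodI (n := L ^ 3) (L := L)) TI (fun e : Ord (Cl (L ^ 3)) => frm e (mm L)))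
  have h2 := first_ge hL
  have h3 := second_le (L := L) (by omega)
  have hK : 0 < KK := by linarith [one_le_KK]
  have he := Real.exp_pos (-24)
  set X := cntX (GoodI (n := L ^ 3) (L := L)) TI (fun e : Ord (Cl (L ^ 3)) => frm e (mm L)) with hX
  set b : ℝ := 1000000 * KK ^ 3 * (1 / 2) with hb
  have hb0 : 0 < b := by positivity
  set a : ℝ := Real.exp (-24) / 4 with ha
  have ha0 : 0 < a := by positivity
  have h4 : (MM L * a) ^ 2 ≤ cardP (fun e => X e ≠ 0) * (MM L * b) := by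
    calc (MM L * a) ^ 2 ≤ (∑ e, X e) ^ 2 := pow_le_pow_left₀ (by positivity) h2 2
      _ ≤ _ := h1
      _ ≤ cardP (fun e => X e ≠ 0) * (MM L * b) := by
        refine mul_le_mul_of_nonneg_left h3 ?_
        unfold cardP; positivity
  rw [filt_eq] at h4
  have h5 : c0 ≤ Pr (fun e : Ord (Cl (L ^ 3)) => X e ≠ 0) := by
    unfold c0
    rw [div_le_iff₀ hb0]
    have h6 : (MM L) ^ 2 * a ^ 2 ≤ (MM L) ^ 2 * (Pr (fun e : Ord (Cl (L ^ 3)) => X e ≠ 0) * b) := by
      calc (MM L) ^ 2 * a ^ 2 = (MM L * a) ^ 2 := by ring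
        _ ≤ _ := h4
        _ = _ := by ring
    exact le_of_mul_le_mul_left h6 (by positivity)
  refine h5.trans (Pr_mono ?_)
  intro e he g hg
  obtain ⟨I, hI, hsub⟩ := exists_of_cntX _ _ _ he
  exact unsat_of g (fun c hc => hg c (hsub hc))

end

end Run7.h999.USat
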