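import Mathlib
import Pool.Agent.Run7.h999.USat.Struct

/-! Uniquely satisfiable 2-formulas contain one of two small structures. -/

set_option linter.all false

open Finset
open scoped BigOperators Classical

namespace Run7.h999.USat

section graph
variable {V : Type}

lemma walk_of_trans {E : V → V → Prop} {x y : V} (h : Relation.TransGen E x y) :
    ∃ l, ∀ s d, (s, d) ∈ arcs x l y → E s d := by
  induction h with
  | single h =>
    refine ⟨[], ?_⟩
    intro s d hs
    simp only [arcs_nil, List.mem_singleton, Prod.mk.injEq] at hs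
    obtain ⟨rfl, rfl⟩ := hs
    exact h
  | @tail b c _ hbc ih =>
    obtain ⟨l, hl⟩ := ih
    refine ⟨l ++ [b], ?_⟩
    intro s d hs
    rw [arcs_snoc, List.mem_append, List.mem_singleton] at hs
    rcases hs with hs | hs
    · exact hl s d hs
    · simp only [Prod.mk.injEq] at hs
      obtain ⟨rfl, rfl⟩ := hs
      exact hbc

lemma not_nodup_split {l : List V} (h : ¬ l.Nodup) : ∃ z l1 l2 l3, l = l1 ++ z :: (l2 ++ z :: l3) := by
  induction l with
  | nil => exact absurd List.nodup_nil h
  | cons a l ih =>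
    by_cases ha : a ∈ l
    · obtain ⟨s, t, rfl⟩ := List.append_of_mem ha
      exact ⟨a, [], s, t, rfl⟩
    · have : ¬ l.Nodup := fun h2 => h (List.nodup_cons.2 ⟨ha, h2⟩)
      obtain ⟨z, l1, l2, l3, rfl⟩ := ih this
      exact ⟨z, a :: l1, l2, l3, rfl⟩

/-- shortest path between two disjoint sets -/
lemma short_path (E : V → V → Prop) (X Y : V → Prop) {x y : V} (hx : X x) (hy : Y y)
    (hne : ∀ z, X z → ¬ Y z) (h : Relation.ReflTransGen E x y) :
    ∃ x' l y', X x' ∧ Y y' ∧ (∀ s d, (s, d) ∈ arcs x' l y' → E s d) ∧ l.Nodup ∧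
      ∀ z ∈ l, ¬ X z ∧ ¬ Y z := by
  have h0 : ∃ k, ∃ x' l y', X x' ∧ Y y' ∧ (∀ s d, (s, d) ∈ arcs x' l y' → E s d) ∧ l.length = k := by
    rcases Relation.reflTransGen_iff_eq_or_transGen.1 h with h | h
    · subst h
      exact absurd hy (hne _ hx)
    · obtain ⟨l, hl⟩ := walk_of_trans h
      exact ⟨l.length, x, l, y, hx, hy, hl, rfl⟩
  obtain ⟨x', l, y', hx', hy', hE, hl⟩ := Nat.find_spec h0
  have hmin : ∀ x'' l' y'', X x'' → Y y'' → (∀ s d, (s, d) ∈ arcs x'' l' y'' → E s d) →
      l.length ≤ l'.length := by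
    intro x'' l' y'' q1 q2 q3
    by_contra hlt
    push Not at hlt
    rw [hl] at hlt
    exact Nat.find_min h0 hlt ⟨x'', l', y'', q1, q2, q3, rfl⟩
  refine ⟨x', l, y', hx', hy', hE, ?_, ?_⟩
  · by_contra hnd
    obtain ⟨z, l1, l2, l3, rfl⟩ := not_nodup_split hnd
    have := hmin x' (l1 ++ z :: l3) y' hx' hy' (by
      intro s d hs
      rw [arcs_append, List.mem_append] at hs
      refine hE s d ?_
      rw [arcs_append, arcs_append, List.mem_append, List.mem_append]
      rcases hs with hs | hs
      · exact Or.inl hs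
      · exact Or.inr (Or.inr hs))
    simp only [List.length_append, List.length_cons] at this
    omega
  · intro z hz
    obtain ⟨l1, l2, rfl⟩ := List.append_of_mem hz
    constructor
    · intro hX
      have := hmin z l2 y' hX hy' (by
        intro s d hs
        refine hE s d ?_
        rw [arcs_append, List.mem_append]
        exact Or.inr hs)
      simp only [List.length_append, List.length_cons] at this
      omega
    · intro hY
      have := hmin x' l1 z hx' hY (by
        intro s d hs
        refine hE s d ?_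
        rw [arcs_append, List.mem_append]
        exact Or.inl hs)
      simp only [List.length_append, List.length_cons] at this
      omega

end graph

variable {n : ℕ}

/-- satisfaction -/
def Sat (a : Fin n → Bool) (H : Finset (Finset (Fin n × Bool))) : Prop := ∀ c ∈ H, ∃ l ∈ c, a l.1 = l.2

/-- occurring variables -/
def Occ (H : Finset (Finset (Fin n × Bool))) (i : Fin n) : Prop := ∃ c ∈ H, ∃ l ∈ c, l.1 = i

/-- true literal -/
def Tr (a : Fin n → Bool) (s : Lit n) : Prop := a s.1 = s.2

lemma Tr_ng {a : Fin n → Bool} {s : Lit n} : Tr a (ng s) ↔ ¬ Tr a s := by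
  unfold Tr ng
  simp only
  cases a s.1 <;> cases s.2 <;> simp

lemma Tr_inj {a : Fin n → Bool} {s t : Lit n} (hs : Tr a s) (ht : Tr a t) (h : s.1 = t.1) : s = t := by
  unfold Tr at hs ht
  refine Prod.ext h ?_
  rw [← hs, ← ht, h]

/-- implication between true literals -/
def Ed (a : Fin n → Bool) (H : Finset (Finset (Fin n × Bool))) (s d : Lit n) : Prop :=
  Tr a s ∧ Tr a d ∧ cl s d ∈ H

/-- the flipping argument -/
lemma flip {a : Fin n → Bool} {H : Finset (Finset (Fin n × Bool))} (hcl : ∀ c ∈ H, IsCl c) (hsat : Sat a H)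
    (huni : ∀ b, Sat b H → ∀ i, Occ H i → b i = a i) {x : Lit n} (hx : Tr a x) (hocc : Occ H x.1) :
    ∃ u w, Tr a u ∧ Tr a w ∧ u.1 ≠ w.1 ∧ ({u, w} : Finset (Fin n × Bool)) ∈ H ∧
      Relation.ReflTransGen (Ed a H) u x ∧ Relation.ReflTransGen (Ed a H) w x := by
  set b : Fin n → Bool := fun i => if Relation.ReflTransGen (Ed a H) (i, a i) x then !a i else a i with hb
  have hbx : b x.1 ≠ a x.1 := by
    have e : (x.1, a x.1) = x := by
      unfold Tr at hx
      rw [hx]
    simp only [hb, e, Relation.ReflTransGen.refl, if_true]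
    cases a x.1 <;> simp
  have hns : ¬ Sat b H := fun h => hbx (huni b h x.1 hocc)
  unfold Sat at hns
  push Not at hns
  obtain ⟨c, hc, hcb⟩ := hns
  -- consequences of falsified literals
  have key1 : ∀ l : Lit n, Tr a l → b l.1 ≠ l.2 → Relation.ReflTransGen (Ed a H) l x := by
    intro l hl hbl
    unfold Tr at hl
    have e : (l.1, a l.1) = l := by rw [hl]
    by_contra hno
    apply hbl
    simp only [hb, e, hno, if_false]
    exact hl
  have key2 : ∀ l : Lit n, ¬ Tr a l → b l.1 ≠ l.2 → ¬ Relation.ReflTransGen (Ed a H) (ng l) x := by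
    intro l hl hbl hr
    unfold Tr at hl
    have e : (l.1, a l.1) = ng l := by
      unfold ng
      congr 1
      cases h1 : a l.1 <;> cases h2 : l.2 <;> simp_all
    apply hbl
    simp only [hb, e, hr, if_true]
    cases h1 : a l.1 <;> cases h2 : l.2 <;> simp_all
  obtain ⟨l1, l2, hne, rfl⟩ := (isCl_iff c).1 (hcl c hc)
  have hb1 := hcb l1 (by simp)
  have hb2 := hcb l2 (by simp)
  by_cases h1 : Tr a l1
  · by_cases h2 : Tr a l2
    · exact ⟨l1, l2, h1, h2, hne, hc, key1 l1 h1 hb1, key1 l2 h2 hb2⟩
    · exfalso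
      refine key2 l2 h2 hb2 (Relation.ReflTransGen.head ⟨?_, h1, ?_⟩ (key1 l1 h1 hb1))
      · exact Tr_ng.2 h2
      · unfold cl
        rw [ng_ng, Finset.pair_comm]
        exact hc
  · by_cases h2 : Tr a l2
    · exfalso
      refine key2 l1 h1 hb1 (Relation.ReflTransGen.head ⟨?_, h2, ?_⟩ (key1 l2 h2 hb2))
      · exact Tr_ng.2 h1
      · unfold cl
        rw [ng_ng]
        exact hc
    · exfalso
      obtain ⟨l, hl, hl2⟩ := hsat _ hc
      simp only [mem_insert, mem_singleton] at hl
      rcases hl with rfl | rfl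
      · exact h1 hl2
      · exact h2 hl2

/-- the positive chord inside a strong component -/
lemma chord {a : Fin n → Bool} {H : Finset (Finset (Fin n × Bool))} (hcl : ∀ c ∈ H, IsCl c) (hH : H.Nonempty)
    (hsat : Sat a H) (huni : ∀ b, Sat b H → ∀ i, Occ H i → b i = a i) :
    ∃ u w, Tr a u ∧ Tr a w ∧ u ≠ w ∧ ({u, w} : Finset (Fin n × Bool)) ∈ H ∧
      Relation.ReflTransGen (Ed a H) u w ∧ Relation.ReflTransGen (Ed a H) w u := by
  set S : Finset (Lit n) := Finset.univ.filter fun x => Tr a x ∧ Occ H x.1 with hS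
  have hSne : S.Nonempty := by
    obtain ⟨c, hc⟩ := hH
    obtain ⟨l, hl, hl2⟩ := hsat c hc
    exact ⟨l, by rw [hS, mem_filter]; exact ⟨mem_univ _, hl2, c, hc, l, hl, rfl⟩⟩
  obtain ⟨x, hxS, hxmin⟩ := S.exists_min_image
    (fun x => (Finset.univ.filter fun z : Lit n => Relation.ReflTransGen (Ed a H) z x).card) hSne
  rw [hS, mem_filter] at hxS
  obtain ⟨u, w, hu, hw, hne, hc, ru, rw'⟩ := flip hcl hsat huni hxS.2.1 hxS.2.2
  have back : ∀ v : Lit n, Tr a v → Occ H v.1 → Relation.ReflTransGen (Ed a H) v x →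
      Relation.ReflTransGen (Ed a H) x v := by
    intro v hv ho hr
    have h1 := hxmin v (by rw [hS, mem_filter]; exact ⟨mem_univ _, hv, ho⟩)
    have h2 : (Finset.univ.filter fun z : Lit n => Relation.ReflTransGen (Ed a H) z v) ⊆
        (Finset.univ.filter fun z : Lit n => Relation.ReflTransGen (Ed a H) z x) := by
      intro z hz
      rw [mem_filter] at hz ⊢
      exact ⟨mem_univ _, hz.2.trans hr⟩
    have h3 := Finset.eq_of_subset_of_card_le h2 h1
    have h4 : x ∈ (Finset.univ.filter fun z : Lit n => Relation.ReflTransGen (Ed a H) z v) := by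
      rw [h3, mem_filter]
      exact ⟨mem_univ _, Relation.ReflTransGen.refl⟩
    rw [mem_filter] at h4
    exact h4.2
  have ou : Occ H u.1 := ⟨_, hc, u, by simp, rfl⟩
  have ow : Occ H w.1 := ⟨_, hc, w, by simp, rfl⟩
  refine ⟨u, w, hu, hw, ?_, hc, ru.trans (back w hw ow rw'), rw'.trans (back u hu ou ru)⟩
  intro h
  exact hne (by rw [h])

/-- distinctness of clauses along true arcs plus a chord -/
lemma card_clset_chord {a : Fin n → Bool} {D : List (Lit n × Lit n)} (hD : D.Nodup)
    (hT : ∀ s d, (s, d) ∈ D → Tr a s ∧ Tr a d) {u w : Lit n} (hu : Tr a u) (hw : Tr a w) :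
    (clset (D ++ [(ng u, w)])).card = D.length + 1 := by
  have hnd : ((D ++ [(ng u, w)]).map fun q => cl q.1 q.2).Nodup := by
    rw [List.map_append, List.nodup_append]
    refine ⟨?_, by simp, ?_⟩
    · refine List.Nodup.map_on ?_ hD
      rintro ⟨s, d⟩ h ⟨s', d'⟩ h' e
      have h1 := hT s d h
      have h2 := hT s' d' h'
      rcases cl_eq e with ⟨e1, e2⟩ | ⟨e1, e2⟩
      · simp only at e1 e2
        rw [e1, e2]
      · exfalso
        simp only at e1 e2
        rw [e1, Tr_ng] at h1
        exact h1.1 h2.2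
    · intro c hc c' hc'
      rw [List.mem_map] at hc
      obtain ⟨⟨s, d⟩, h, rfl⟩ := hc
      simp only [List.map_cons, List.map_nil, List.mem_singleton] at hc'
      subst hc'
      intro e
      have h1 := hT s d h
      rcases cl_eq e with ⟨e1, e2⟩ | ⟨e1, e2⟩
      · simp only at e1
        rw [e1, Tr_ng] at h1
        exact h1.1 hu
      · simp only at e1
        rw [e1, Tr_ng] at h1
        exact h1.1 hw
  unfold clset
  rw [List.toFinset_card_of_nodup hnd, List.length_map, List.length_append, List.length_singleton]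

lemma length_lt_of_true {a : Fin n → Bool} {x : Lit n} {l : List (Lit n)} (hnd : (x :: l).Nodup)
    (hT : ∀ s ∈ x :: l, Tr a s) : l.length < n := by
  have h1 : ((x :: l).map Prod.fst).Nodup := by
    refine List.Nodup.map_on ?_ hnd
    intro s hs t ht h
    exact Tr_inj (hT s hs) (hT t ht) h
  have h2 := h1.length_le_card
  rw [Fintype.card_fin, List.length_map, List.length_cons] at h2
  omega

/-- the first kind of witness: a cycle with a positive chord -/
def W1 (H : Finset (Finset (Fin n × Bool))) : Prop :=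
  ∃ (g : List (Lit n)) (u w : Lit n), w ∈ g ∧ clset (arcs u g u ++ [(ng u, w)]) ⊆ H ∧
    (clset (arcs u g u ++ [(ng u, w)])).card = g.length + 2 ∧ g.length < n

/-- the second kind of witness -/
def W2 (H : Finset (Finset (Fin n × Bool))) : Prop :=
  ∃ (g f : List (Lit n)) (u v w y : Lit n), v ∈ g ∧ w ∈ g ∧ y ∈ g ∧
    clset ((arcs u g v ++ arcs y f u) ++ [(ng u, w)]) ⊆ H ∧
    (clset ((arcs u g v ++ arcs y f u) ++ [(ng u, w)])).card = g.length + f.length + 3 ∧ g.length < n ∧ f.length < n

theorem extract {a : Fin n → Bool} {H : Finset (Finset (Fin n × Bool))} (hcl : ∀ c ∈ H, IsCl c) (hH : H.Nonempty)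
    (hsat : Sat a H) (huni : ∀ b, Sat b H → ∀ i, Occ H i → b i = a i) : W1 H ∨ W2 H := by
  obtain ⟨u, w, hu, hw, hne, hc, ruw, rwu⟩ := chord hcl hH hsat huni
  obtain ⟨x1, f1, y1, hx1, hy1, hE1, hn1, ha1⟩ := short_path (Ed a H) (fun z => z = u) (fun z => z = w) rfl rfl
    (fun z h1 h2 => hne (h1.symm.trans h2)) ruw
  subst hx1
  subst hy1
  have hwf1 : y1 ∉ f1 := fun h => (ha1 y1 h).2 rfl
  have huf1 : x1 ∉ f1 := fun h => (ha1 x1 h).1 rfl
  obtain ⟨x2, f2, v, hx2, hv, hE2, hn2, ha2⟩ := short_path (Ed a H) (fun z => z = y1) (fun z => z = x1 ∨ z ∈ f1) rfl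
    (Or.inl rfl) (by
      intro z h1 h2
      subst h1
      rcases h2 with h2 | h2
      · exact hne h2.symm
      · exact hwf1 h2) rwu
  subst hx2
  -- the word
  set g : List (Lit n) := f1 ++ x2 :: f2 with hg
  have hwg : x2 ∈ g := by simp [hg]
  have hEg : ∀ s d, (s, d) ∈ arcs x1 g v → Ed a H s d := by
    intro s d hs
    rw [hg, arcs_append, List.mem_append] at hs
    rcases hs with hs | hs
    · exact hE1 s d hs
    · exact hE2 s d hs
  have hgn : (x1 :: g).Nodup := by
    rw [List.nodup_cons]
    refine ⟨?_, ?_⟩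
    · rw [hg, List.mem_append, List.mem_cons]
      rintro (h | h | h)
      · exact huf1 h
      · exact hne h
      · exact (ha2 _ h).2 (Or.inl rfl)
    · rw [hg, List.nodup_append, List.nodup_cons]
      refine ⟨hn1, ⟨fun h => (ha2 _ h).1 rfl, hn2⟩, ?_⟩
      intro s hs t ht
      rw [List.mem_cons] at ht
      rcases ht with rfl | ht
      · rintro rfl
        exact hwf1 hs
      · rintro rfl
        exact (ha2 _ ht).2 (Or.inr hs)
  have hTg : ∀ s ∈ x1 :: g, Tr a s := by
    intro s hs
    rw [← arcs_map_fst x1 g v, List.mem_map] at hs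
    obtain ⟨⟨s', d'⟩, h1, rfl⟩ := hs
    exact (hEg _ _ h1).1
  have hlen : g.length < n := length_lt_of_true hgn hTg
  have hnarc : (arcs x1 g v).Nodup := by
    have : ((arcs x1 g v).map Prod.fst).Nodup := by rwa [arcs_map_fst]
    exact this.of_map _
  have hchord : cl (ng x1) x2 ∈ H := by
    unfold cl
    rw [ng_ng]
    exact hc
  rcases hv with hv | hv
  · left
    subst hv
    refine ⟨g, v, x2, hwg, ?_, ?_, hlen⟩
    · intro c hc
      obtain ⟨s, d, h, rfl⟩ := mem_clset.1 hc
      rw [List.mem_append, List.mem_singleton] at h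
      rcases h with h | h
      · exact (hEg s d h).2.2
      · simp only [Prod.mk.injEq] at h
        obtain ⟨rfl, rfl⟩ := h
        exact hchord
    · rw [card_clset_chord (a := a) hnarc (fun s d h => ⟨(hEg s d h).1, (hEg s d h).2.1⟩) hu hw, length_arcs]
  · right
    have hvg : v ∈ g := by rw [hg]; simp [hv]
    have hug : x1 ∉ g := (List.nodup_cons.1 hgn).1
    obtain ⟨y, f, u', hy, hu', hE3, hn3, ha3⟩ := short_path (Ed a H) (fun z => z ∈ g) (fun z => z = x1) hwg rfl
      (by
        intro z h1 h2
        subst h2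
        exact hug h1) rwu
    subst hu'
    have hun : u' ∉ f := fun h => (ha3 _ h).2 rfl
    have hfn : (u' :: f).Nodup := List.nodup_cons.2 ⟨hun, hn3⟩
    have hTf : ∀ s ∈ u' :: f, Tr a s := by
      intro s hs
      have : s ∈ f ++ [u'] := by
        rw [List.mem_append, List.mem_singleton]
        rw [List.mem_cons] at hs
        exact hs.symm
      rw [← arcs_map_snd y f u', List.mem_map] at this
      obtain ⟨⟨s', d'⟩, h1, rfl⟩ := this
      exact (hE3 _ _ h1).2.1
    have hflen : f.length < n := length_lt_of_true hfn hTf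
    have hnarc3 : (arcs y f u').Nodup := by
      have : ((arcs y f u').map Prod.snd).Nodup := by
        rw [arcs_map_snd, List.nodup_append]
        refine ⟨hn3, by simp, ?_⟩
        intro s hs t ht
        rw [List.mem_singleton] at ht
        subst ht
        rintro rfl
        exact hun hs
      exact this.of_map _
    have hnD : (arcs u' g v ++ arcs y f u').Nodup := by
      rw [List.nodup_append]
      refine ⟨hnarc, hnarc3, ?_⟩
      rintro ⟨s, d⟩ h ⟨s', d'⟩ h' e
      simp only [Prod.mk.injEq] at e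
      obtain ⟨rfl, rfl⟩ := e
      have h1 := snd_mem_of_arcs h
      have h2 := snd_mem_of_arcs h'
      rw [List.mem_append, List.mem_singleton] at h1 h2
      have h3 : d ∈ g := by
        rcases h1 with h1 | h1
        · exact h1
        · rw [h1]; exact hvg
      rcases h2 with h2 | h2
      · exact (ha3 _ h2).1 h3
      · subst h2
        exact hug h3
    have hED : ∀ s d, (s, d) ∈ arcs u' g v ++ arcs y f u' → Ed a H s d := by
      intro s d h
      rw [List.mem_append] at h
      rcases h with h | h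
      · exact hEg s d h
      · exact hE3 s d h
    refine ⟨g, f, u', v, x2, y, hvg, hwg, hy, ?_, ?_, hlen, hflen⟩
    · intro c hc
      obtain ⟨s, d, h, rfl⟩ := mem_clset.1 hc
      rw [List.mem_append, List.mem_singleton] at h
      rcases h with h | h
      · exact (hED s d h).2.2
      · simp only [Prod.mk.injEq] at h
        obtain ⟨rfl, rfl⟩ := h
        exact hchord
    · rw [card_clset_chord (a := a) hnD (fun s d h => ⟨(hED s d h).1, (hED s d h).2.1⟩) hu hw, List.length_append,
        length_arcs, length_arcs]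
      omega

end Run7.h999.USat
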