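import Mathlib
import Pool.Agent.Run7.h999.USat.Unique
import Pool.Agent.Run7.h999.USat.Second3

/-! Union bound for the two kinds of witnesses. -/

set_option linter.all false

open Finset
open scoped BigOperators Classical

namespace Run7.h999.USat

noncomputable section

lemma Pr_eq {n : ℕ} (S : Ord (Cl n) → Prop) :
    Pr S = (∑ e, (if S e then (1 : ℝ) else 0)) / (Nat.card (Ord (Cl n)) : ℝ) := by
  rw [← cardP_eq]
  rfl

lemma Pr_exists {n : ℕ} {ι : Type} [Fintype ι] (S : ι → Ord (Cl n) → Prop) :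
    Pr (fun e => ∃ i, S i e) ≤ ∑ i, Pr (S i) := by
  simp only [Pr_eq]
  rw [← Finset.sum_div]
  refine div_le_div_of_nonneg_right ?_ card_ord_pos.le
  rw [Finset.sum_comm]
  refine Finset.sum_le_sum fun e _ => ?_
  have h0 : ∀ i, (0 : ℝ) ≤ (if S i e then (1 : ℝ) else 0) := by
    intro i; split_ifs <;> norm_num
  by_cases h : ∃ i, S i e
  · rw [if_pos h]
    obtain ⟨i, hi⟩ := h
    have := Finset.single_le_sum (f := fun i => (if S i e then (1 : ℝ) else 0)) (fun i _ => h0 i) (Finset.mem_univ i)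
    simpa [hi] using this
  · rw [if_neg h]
    exact Finset.sum_nonneg fun i _ => h0 i

lemma Pr_or {n : ℕ} (S S' : Ord (Cl n) → Prop) : Pr (fun e => S e ∨ S' e) ≤ Pr S + Pr S' := by
  simp only [Pr_eq]
  rw [← add_div]
  refine div_le_div_of_nonneg_right ?_ card_ord_pos.le
  rw [← Finset.sum_add_distrib]
  refine Finset.sum_le_sum fun e _ => ?_
  by_cases h : S e
  · by_cases h' : S' e <;> simp [h, h']
  · by_cases h' : S' e <;> simp [h, h']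

lemma Pr_nonneg {n : ℕ} (S : Ord (Cl n) → Prop) : 0 ≤ Pr S := by
  unfold Pr; positivity

lemma Pr_false {n : ℕ} {S : Ord (Cl n) → Prop} (h : ∀ e, ¬ S e) : Pr S = 0 := by
  unfold Pr
  have : (Finset.univ.filter S) = ∅ := by
    ext e
    simp [h e]
  rw [this]
  simp

lemma Pr_card_le {n : ℕ} (T : Finset (Finset (Fin n × Bool))) (k m : ℕ) (hm : m ≤ Nat.card (Cl n)) :
    Pr (fun e : Ord (Cl n) => T.card = k ∧ T ⊆ frm e m) ≤ ((m : ℝ) / (Nat.card (Cl n) : ℝ)) ^ k := by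
  by_cases h : T.card = k ∧ ∀ c ∈ T, IsCl c
  · obtain ⟨h1, h2⟩ := h
    subst h1
    refine le_trans (Pr_mono ?_) (Pr_le h2 hm)
    intro e he
    exact he.2
  · rw [Pr_false]
    · positivity
    · rintro e ⟨h1, h2⟩
      exact h ⟨h1, fun c hc => isCl_of_mem_frm (h2 hc)⟩

/-! ### numerical series -/

lemma geo_sum (k N : ℕ) {r : ℝ} (h0 : 0 ≤ r) (h1 : r < 1) :
    ∑ i ∈ Finset.range N, ((i + k).choose k : ℝ) * r ^ i ≤ 1 / (1 - r) ^ (k + 1) := by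
  have hr : ‖r‖ < 1 := by
    rw [Real.norm_of_nonneg h0]; exact h1
  rw [← tsum_choose_mul_geometric_of_norm_lt_one k hr]
  exact (summable_choose_mul_geometric_of_norm_lt_one k hr).sum_le_tsum _ (fun i _ => by positivity)

lemma cube_le (K : ℕ) : (K : ℝ) ^ 3 ≤ 6 * ((K + 3).choose 3 : ℝ) := by
  have h1 : (K + 3).descFactorial 3 = Nat.factorial 3 * (K + 3).choose 3 := Nat.descFactorial_eq_factorial_mul_choose _ _
  have h2 : (K + 3).descFactorial 3 = (K + 1) * ((K + 2) * (K + 3)) := by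
    simp [Nat.descFactorial]
    try ring
  have h3 : K ^ 3 ≤ 6 * (K + 3).choose 3 := by
    have h4 : Nat.factorial 3 = 6 := rfl
    rw [h4] at h1
    rw [← h1, h2]
    have : (K + 1) * ((K + 2) * (K + 3)) = K ^ 3 + 6 * K ^ 2 + 11 * K + 6 := by ring
    omega
  exact_mod_cast h3

section
variable {L : ℕ}

/-- branching ratio -/
def lam (L : ℕ) : ℝ := 2 * (L : ℝ) ^ 3 * pp L

lemma lam_nonneg (L : ℕ) : 0 ≤ lam L := by
  unfold lam
  have := pp_nonneg L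
  positivity

lemma lam_bound (hL : 2 ≤ L) : 1 / ((L : ℝ) + 1) ≤ 1 - lam L := by
  unfold lam pp
  rw [mm_cast L (by omega), card_cast L (by omega)]
  have h2 : (2 : ℝ) ≤ L := by exact_mod_cast hL
  set x : ℝ := (L : ℝ) with hx
  have h4 : (1 : ℝ) < x ^ 3 := by nlinarith [sq_nonneg (x - 2), sq_nonneg x]
  have h5 : 0 < x ^ 3 - 1 := by linarith
  have h6 : 0 < x := by linarith
  have e : 1 - 2 * x ^ 3 * ((x ^ 3 - x ^ 2) / (2 * x ^ 3 * (x ^ 3 - 1))) = (x ^ 2 - 1) / (x ^ 3 - 1) := by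
    field_simp
    ring
  rw [e, div_le_div_iff₀ (by positivity) h5]
  nlinarith [mul_pos h6 h6]

lemma lam_lt_one (hL : 2 ≤ L) : lam L < 1 := by
  have h1 := lam_bound hL
  have h2 : 0 < 1 / ((L : ℝ) + 1) := by positivity
  linarith

lemma inv_lam (hL : 2 ≤ L) (k : ℕ) : 1 / (1 - lam L) ^ k ≤ ((L : ℝ) + 1) ^ k := by
  have h1 := lam_bound hL
  have h2 : 0 < 1 / ((L : ℝ) + 1) := by positivity
  have h3 : 0 < (1 / ((L : ℝ) + 1)) ^ k := by positivity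
  calc 1 / (1 - lam L) ^ k ≤ 1 / (1 / ((L : ℝ) + 1)) ^ k :=
        one_div_le_one_div_of_le h3 (pow_le_pow_left₀ h2.le h1 k)
    _ = ((L : ℝ) + 1) ^ k := by
        rw [one_div_pow, one_div_one_div]

/-- witnesses of the first kind have small expected number -/
lemma w1_bound (hL : 2 ≤ L) :
    Pr (fun e : Ord (Cl (L ^ 3)) => W1 (frm e (mm L))) ≤ pp L * ((L : ℝ) + 1) ^ 2 := by
  have hp := pp_nonneg L
  have hl0 := lam_nonneg L
  have hl1 := lam_lt_one hL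
  set S : (Σ K : Fin (L ^ 3), Lit (L ^ 3) × (Fin K → Lit (L ^ 3)) × Fin K) → Ord (Cl (L ^ 3)) → Prop :=
    fun i e => (clset (arcs i.2.1 (List.ofFn i.2.2.1) i.2.1 ++ [(ng i.2.1, i.2.2.1 i.2.2.2)])).card = (i.1 : ℕ) + 2 ∧
      clset (arcs i.2.1 (List.ofFn i.2.2.1) i.2.1 ++ [(ng i.2.1, i.2.2.1 i.2.2.2)]) ⊆ frm e (mm L) with hS
  have h1 : Pr (fun e : Ord (Cl (L ^ 3)) => W1 (frm e (mm L))) ≤ Pr (fun e => ∃ i, S i e) := by
    refine Pr_mono ?_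
    rintro e ⟨g, u, w, hw, hsub, hcard, hlt⟩
    obtain ⟨c, rfl⟩ := List.mem_iff_get.1 hw
    refine ⟨⟨⟨g.length, hlt⟩, u, g.get, c⟩, ?_⟩
    simp only [hS, List.ofFn_get]
    exact ⟨hcard, hsub⟩
  refine h1.trans ((Pr_exists S).trans ?_)
  have h2 : ∀ i, Pr (S i) ≤ (pp L) ^ ((i.1 : ℕ) + 2) := fun i => Pr_card_le _ _ _ (mm_le L hL)
  refine (Finset.sum_le_sum fun i _ => h2 i).trans ?_
  rw [Fintype.sum_sigma]
  have h3 : ∀ K : Fin (L ^ 3), ∑ j : Lit (L ^ 3) × (Fin K → Lit (L ^ 3)) × Fin K, (pp L) ^ ((K : ℕ) + 2) ≤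
      pp L * ((((K : ℕ) + 1).choose 1 : ℝ) * lam L ^ (K : ℕ)) := by
    intro K
    rw [Finset.sum_const, nsmul_eq_mul, Finset.card_univ]
    simp only [Fintype.card_prod, Fintype.card_fin, Fintype.card_bool, Fintype.card_fun]
    push_cast
    have e : ((L : ℝ) ^ 3 * 2 * (((L : ℝ) ^ 3 * 2) ^ (K : ℕ) * (K : ℕ))) * pp L ^ ((K : ℕ) + 2) =
        pp L * (((K : ℕ) : ℝ) * lam L ^ (K : ℕ)) * lam L := by
      unfold lam
      rw [mul_pow (2 * (L : ℝ) ^ 3)]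
      ring
    rw [e, Nat.choose_one_right]
    push_cast
    have h5 : 0 ≤ pp L * (((K : ℕ) : ℝ) * lam L ^ (K : ℕ)) := by positivity
    have h6 : pp L * (((K : ℕ) : ℝ) * lam L ^ (K : ℕ)) ≤ pp L * ((((K : ℕ) : ℝ) + 1) * lam L ^ (K : ℕ)) := by
      refine mul_le_mul_of_nonneg_left (mul_le_mul_of_nonneg_right (by linarith) (by positivity)) hp
    nlinarith
  refine (Finset.sum_le_sum fun K _ => h3 K).trans ?_
  rw [← Finset.mul_sum]
  refine mul_le_mul_of_nonneg_left ?_ hp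
  have h7 := geo_sum 1 (L ^ 3) hl0 hl1
  rw [Finset.sum_range] at h7
  exact h7.trans (inv_lam hL 2)

/-- witnesses of the second kind have small expected number -/
lemma w2_bound (hL : 2 ≤ L) :
    Pr (fun e : Ord (Cl (L ^ 3)) => W2 (frm e (mm L))) ≤ 6 * pp L ^ 2 * ((L : ℝ) + 1) ^ 5 := by
  have hp := pp_nonneg L
  have hl0 := lam_nonneg L
  have hl1 := lam_lt_one hL
  set S : (Σ K : Fin (L ^ 3) × Fin (L ^ 3), Lit (L ^ 3) × (Fin K.1 → Lit (L ^ 3)) × (Fin K.2 → Lit (L ^ 3)) ×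
      Fin K.1 × Fin K.1 × Fin K.1) → Ord (Cl (L ^ 3)) → Prop :=
    fun i e => (clset ((arcs i.2.1 (List.ofFn i.2.2.1) (i.2.2.1 i.2.2.2.2.1) ++
        arcs (i.2.2.1 i.2.2.2.2.2.2) (List.ofFn i.2.2.2.1) i.2.1) ++ [(ng i.2.1, i.2.2.1 i.2.2.2.2.2.1)])).card =
        (i.1.1 : ℕ) + i.1.2 + 3 ∧
      clset ((arcs i.2.1 (List.ofFn i.2.2.1) (i.2.2.1 i.2.2.2.2.1) ++
        arcs (i.2.2.1 i.2.2.2.2.2.2) (List.ofFn i.2.2.2.1) i.2.1) ++ [(ng i.2.1, i.2.2.1 i.2.2.2.2.2.1)]) ⊆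
        frm e (mm L) with hS
  have h1 : Pr (fun e : Ord (Cl (L ^ 3)) => W2 (frm e (mm L))) ≤ Pr (fun e => ∃ i, S i e) := by
    refine Pr_mono ?_
    rintro e ⟨g, f, u, v, w, y, hv, hw, hy, hsub, hcard, hlt, hlt'⟩
    obtain ⟨c, rfl⟩ := List.mem_iff_get.1 hw
    obtain ⟨c2, rfl⟩ := List.mem_iff_get.1 hv
    obtain ⟨c3, rfl⟩ := List.mem_iff_get.1 hy
    refine ⟨⟨(⟨g.length, hlt⟩, ⟨f.length, hlt'⟩), u, g.get, f.get, c2, c, c3⟩, ?_⟩
    simp only [hS, List.ofFn_get]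
    exact ⟨hcard, hsub⟩
  refine h1.trans ((Pr_exists S).trans ?_)
  have h2 : ∀ i, Pr (S i) ≤ (pp L) ^ ((i.1.1 : ℕ) + i.1.2 + 3) := fun i => Pr_card_le _ _ _ (mm_le L hL)
  refine (Finset.sum_le_sum fun i _ => h2 i).trans ?_
  rw [Fintype.sum_sigma]
  have h3 : ∀ K : Fin (L ^ 3) × Fin (L ^ 3), ∑ j : Lit (L ^ 3) × (Fin K.1 → Lit (L ^ 3)) × (Fin K.2 → Lit (L ^ 3)) ×
      Fin K.1 × Fin K.1 × Fin K.1, (pp L) ^ ((K.1 : ℕ) + K.2 + 3) ≤
      (6 * pp L ^ 2) * (((((K.1 : ℕ) + 3).choose 3 : ℝ) * lam L ^ (K.1 : ℕ)) *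
        ((((K.2 : ℕ) + 0).choose 0 : ℝ) * lam L ^ (K.2 : ℕ))) := by
    intro K
    rw [Finset.sum_const, nsmul_eq_mul, Finset.card_univ]
    simp only [Fintype.card_prod, Fintype.card_fin, Fintype.card_bool, Fintype.card_fun]
    push_cast
    have e : ((L : ℝ) ^ 3 * 2 * (((L : ℝ) ^ 3 * 2) ^ (K.1 : ℕ) * (((L : ℝ) ^ 3 * 2) ^ (K.2 : ℕ) *
        (((K.1 : ℕ) : ℝ) * (((K.1 : ℕ) : ℝ) * ((K.1 : ℕ) : ℝ)))))) * pp L ^ ((K.1 : ℕ) + K.2 + 3) =
        pp L ^ 2 * ((((K.1 : ℕ) : ℝ) ^ 3 * lam L ^ (K.1 : ℕ)) * lam L ^ (K.2 : ℕ)) * lam L := by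
      unfold lam
      rw [mul_pow (2 * (L : ℝ) ^ 3), mul_pow (2 * (L : ℝ) ^ 3)]
      ring
    rw [e, Nat.choose_zero_right]
    push_cast
    have h5 : 0 ≤ pp L ^ 2 * ((((K.1 : ℕ) : ℝ) ^ 3 * lam L ^ (K.1 : ℕ)) * lam L ^ (K.2 : ℕ)) := by positivity
    have h6 : pp L ^ 2 * ((((K.1 : ℕ) : ℝ) ^ 3 * lam L ^ (K.1 : ℕ)) * lam L ^ (K.2 : ℕ)) ≤
        pp L ^ 2 * (((6 * (((K.1 : ℕ) + 3).choose 3 : ℝ)) * lam L ^ (K.1 : ℕ)) * lam L ^ (K.2 : ℕ)) := by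
      refine mul_le_mul_of_nonneg_left (mul_le_mul_of_nonneg_right
        (mul_le_mul_of_nonneg_right (cube_le _) (by positivity)) (by positivity)) (by positivity)
    nlinarith
  refine (Finset.sum_le_sum fun K _ => h3 K).trans ?_
  rw [← Finset.mul_sum]
  refine mul_le_mul_of_nonneg_left ?_ (by positivity)
  rw [Fintype.sum_prod_type]
  simp only
  rw [← Finset.sum_mul_sum]
  have h7 := geo_sum 3 (L ^ 3) hl0 hl1
  have h8 := geo_sum 0 (L ^ 3) hl0 hl1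
  rw [Finset.sum_range] at h7 h8
  have h9 := h7.trans (inv_lam hL 4)
  have h10 := h8.trans (inv_lam hL 1)
  calc _ ≤ ((L : ℝ) + 1) ^ 4 * ((L : ℝ) + 1) ^ 1 := by
        refine mul_le_mul h9 h10 ?_ (by positivity)
        exact Finset.sum_nonneg fun i _ => by positivity
    _ = ((L : ℝ) + 1) ^ 5 := by ring

theorem w_bound (hL : 2 ≤ L) :
    Pr (fun e : Ord (Cl (L ^ 3)) => W1 (frm e (mm L)) ∨ W2 (frm e (mm L))) ≤ 50 / L := by
  refine (Pr_or _ _).trans ((add_le_add (w1_bound hL) (w2_bound hL)).trans ?_)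
  have hp := pp_nonneg L
  have h2 : (2 : ℝ) ≤ L := by exact_mod_cast hL
  have h1 : pp L ≤ 1 / (2 * (L : ℝ) ^ 3) := by
    rw [le_div_iff₀ (by positivity)]
    have := pp_le L hL
    linarith
  set x : ℝ := (L : ℝ) with hx
  have hx0 : 0 < x := by linarith
  have e1 : pp L * (x + 1) ^ 2 ≤ 1 / (2 * x ^ 3) * (2 * x) ^ 2 := by
    refine mul_le_mul h1 (pow_le_pow_left₀ (by linarith) (by linarith) 2) (by positivity) (by positivity)
  have e2 : 6 * pp L ^ 2 * (x + 1) ^ 5 ≤ 6 * (1 / (2 * x ^ 3)) ^ 2 * (2 * x) ^ 5 := by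
    refine mul_le_mul (mul_le_mul_of_nonneg_left (pow_le_pow_left₀ hp h1 2) (by norm_num))
      (pow_le_pow_left₀ (by linarith) (by linarith) 5) (by positivity) (by positivity)
  refine (add_le_add e1 e2).trans (le_of_eq ?_)
  field_simp
  norm_num

end

end

end Run7.h999.USat
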