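import Mathlib
import Pool.Agent.Run7.h999.USat.Union

/-! The event of the frozen statement for `k = 2`. -/

set_option linter.all false

open Finset
open scoped BigOperators

namespace Run7.h999.USat

noncomputable section

/-- the event: a non-empty uniquely satisfiable subformula has appeared by the time of unsatisfiability -/
def Ev (n : ℕ) (e : Ord (Cl n)) : Prop :=
  ∃ m : ℕ,
    (∀ j : ℕ, j < m → ∃ a : Fin n → Bool, ∀ c : Cl n, ((e.symm c : Fin _) : ℕ) < j → ∃ l ∈ c.val, a l.1 = l.2) ∧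
    ∃ H : Finset (Cl n), H.Nonempty ∧ (∀ c ∈ H, ((e.symm c : Fin _) : ℕ) < m) ∧
      ∃ a : Fin n → Bool, (∀ c ∈ H, ∃ l ∈ c.val, a l.1 = l.2) ∧
        ∀ b : Fin n → Bool, (∀ c ∈ H, ∃ l ∈ c.val, b l.1 = l.2) →
          ∀ i : Fin n, (∃ c ∈ H, ∃ l ∈ c.val, l.1 = i) → b i = a i

lemma mem_frm {n : ℕ} {e : Ord (Cl n)} {m : ℕ} {c : Cl n} : c.val ∈ frm e m ↔ ((e.symm c : Fin _) : ℕ) < m := by
  unfold frm seg
  rw [Finset.mem_image]
  constructor
  · rintro ⟨d, hd, hdc⟩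
    rw [Finset.mem_filter] at hd
    rw [← Subtype.ext hdc]
    exact hd.2
  · intro h
    exact ⟨c, by rw [Finset.mem_filter]; exact ⟨mem_univ _, h⟩, rfl⟩

lemma ev_imp {n : ℕ} {e : Ord (Cl n)} {m0 : ℕ} (h : Ev n e) (hu : Unsat (frm e m0)) :
    W1 (frm e m0) ∨ W2 (frm e m0) := by
  obtain ⟨m, hm, H, hH, hHm, a, hsat, huni⟩ := h
  have hle : m ≤ m0 := by
    by_contra hlt
    push Not at hlt
    obtain ⟨g, hg⟩ := hm m0 hlt
    refine hu g ?_
    intro c hc
    have hcl := isCl_of_mem_frm hc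
    have h1 : ((e.symm (⟨c, hcl⟩ : Cl n) : Fin _) : ℕ) < m0 := mem_frm.1 hc
    exact hg ⟨c, hcl⟩ h1
  set H' : Finset (Finset (Fin n × Bool)) := H.image Subtype.val with hH'
  have hsub : H' ⊆ frm e m0 := by
    intro c hc
    rw [hH', Finset.mem_image] at hc
    obtain ⟨d, hd, rfl⟩ := hc
    exact mem_frm.2 ((hHm d hd).trans_le hle)
  have hcl : ∀ c ∈ H', IsCl c := fun c hc => isCl_of_mem_frm (hsub hc)
  have hne : H'.Nonempty := hH.image _
  have hs : Sat a H' := by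
    intro c hc
    rw [hH', Finset.mem_image] at hc
    obtain ⟨d, hd, rfl⟩ := hc
    exact hsat d hd
  have hq : ∀ b, Sat b H' → ∀ i, Occ H' i → b i = a i := by
    intro b hb i hi
    refine huni b ?_ i ?_
    · intro c hc
      exact hb c.val (Finset.mem_image.2 ⟨c, hc, rfl⟩)
    · obtain ⟨c, hc, l, hl, hl2⟩ := hi
      rw [hH', Finset.mem_image] at hc
      obtain ⟨d, hd, rfl⟩ := hc
      exact ⟨d, hd, l, hl, hl2⟩
  rcases extract hcl hne hs hq with h | h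
  · left
    obtain ⟨g, u, w, h1, h2, h3⟩ := h
    exact ⟨g, u, w, h1, h2.trans hsub, h3⟩
  · right
    obtain ⟨g, f, u, v, w, y, h1, h2, h3, h4, h5⟩ := h
    exact ⟨g, f, u, v, w, y, h1, h2, h3, h4.trans hsub, h5⟩

lemma Pr_not {n : ℕ} (S : Ord (Cl n) → Prop) : Pr (fun e => ¬ S e) = 1 - Pr S := by
  classical
  rw [Pr_eq, Pr_eq]
  have h0 := card_ord_pos (C := Cl n)
  have h1 : (∑ e : Ord (Cl n), (if S e then (1 : ℝ) else 0)) + ∑ e : Ord (Cl n), (if ¬ S e then (1 : ℝ) else 0) =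
      (Nat.card (Ord (Cl n)) : ℝ) := by
    rw [← Finset.sum_add_distrib]
    have : ∀ e : Ord (Cl n), ((if S e then (1 : ℝ) else 0) + (if ¬ S e then (1 : ℝ) else 0)) = 1 := by
      intro e
      by_cases h : S e <;> simp [h]
    rw [Finset.sum_congr rfl (fun e _ => this e), Finset.sum_const, Finset.card_univ, nsmul_eq_mul, mul_one]
    exact congrArg _ (Nat.card_eq_fintype_card (α := Ord (Cl n))).symm
  rw [eq_sub_iff_add_eq, ← add_div, add_comm]
  rw [div_eq_one_iff_eq (ne_of_gt h0)]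
  convert h1

lemma Pr_Ev_le {L : ℕ} (hL : 13 ≤ L) : Pr (Ev (L ^ 3)) ≤ 1 - c0 + 50 / L := by
  have h1 : Pr (Ev (L ^ 3)) ≤ Pr (fun e : Ord (Cl (L ^ 3)) =>
      (¬ Unsat (frm e (mm L))) ∨ (W1 (frm e (mm L)) ∨ W2 (frm e (mm L)))) := by
    refine Pr_mono ?_
    intro e he
    by_cases hu : Unsat (frm e (mm L))
    · exact Or.inr (ev_imp he hu)
    · exact Or.inl hu
  have h2 := Pr_or (fun e : Ord (Cl (L ^ 3)) => ¬ Unsat (frm e (mm L)))
    (fun e => W1 (frm e (mm L)) ∨ W2 (frm e (mm L)))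
  have h3 := w_bound (L := L) (by omega)
  have h4 := unsat_prob hL
  rw [Pr_not] at h2
  linarith

lemma ratio_eq (n : ℕ) : (Nat.card {e : Ord (Cl n) // Ev n e} : ℝ) / (Nat.card (Ord (Cl n)) : ℝ) = Pr (Ev n) := by
  classical
  unfold Pr
  congr 2
  rw [Nat.card_eq_fintype_card, Fintype.card_subtype]

theorem not_tendsto : ¬ Filter.Tendsto
    (fun n : ℕ => (Nat.card {e : Ord (Cl n) // Ev n e} : ℝ) / (Nat.card (Ord (Cl n)) : ℝ)) Filter.atTop (nhds 1) := by
  intro h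
  simp only [ratio_eq] at h
  have hc := c0_pos
  have hcub : Filter.Tendsto (fun L : ℕ => L ^ 3) Filter.atTop Filter.atTop :=
    Filter.tendsto_pow_atTop (by norm_num)
  have h2 := h.comp hcub
  have h3 : ∀ᶠ L : ℕ in Filter.atTop, 1 - c0 / 2 < Pr (Ev (L ^ 3)) := by
    have := h2.eventually (lt_mem_nhds (show 1 - c0 / 2 < 1 by linarith))
    exact this
  have h4 : ∀ᶠ L : ℕ in Filter.atTop, 50 / (L : ℝ) < c0 / 2 := by
    have h5 : Filter.Tendsto (fun L : ℕ => 50 / (L : ℝ)) Filter.atTop (nhds 0) :=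
      tendsto_const_div_atTop_nhds_zero_nat 50
    exact h5.eventually (gt_mem_nhds (by linarith))
  obtain ⟨L, h6, h7, h8⟩ := (h3.and (h4.and (Filter.eventually_ge_atTop 13))).exists
  have h9 := Pr_Ev_le h8
  linarith

end

end Run7.h999.USat
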